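import Pool.Agent.Lib_MP_92ef0c_spi.IDefs

/-!
# Piece I-CLSN: residue classes in terms of Dirichlet characters
-/

set_option autoImplicit false

namespace Pool.Agent.SplI

open Finset

/-- Mathlib: `DirichletCharacter.sum_char_inv_mul_char_eq` (`∑_χ χ a⁻¹ χ b = φ(m)` if `a = b`, else `0`) -/
theorem cls_char_n (m : ℕ) [NeZero m] (b : ℕ) (hb : b.Coprime m) : ∃ (n : ℕ) (χ : Fin n → DirichletCharacter ℂ m) (c : Fin n → ℂ),
    (∀ i, ‖c i‖ ≤ 1) ∧ ∀ x : ℕ, ∑ i, c i * χ i (x : ZMod m) = if x ≡ b [MOD m] then 1 else 0 := by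
  classical
  have hu : IsUnit ((b : ZMod m)) := (ZMod.isUnit_iff_coprime b m).2 hb
  have hφ : ((m.totient : ℕ) : ℂ) ≠ 0 := by
    exact_mod_cast (Nat.totient_pos.2 (Nat.pos_of_ne_zero (NeZero.ne m))).ne'
  have hφ1 : (1 : ℝ) ≤ (m.totient : ℝ) := by
    exact_mod_cast (Nat.totient_pos.2 (Nat.pos_of_ne_zero (NeZero.ne m)))
  let e := (Fintype.equivFin (DirichletCharacter ℂ m)).symm
  refine ⟨Fintype.card (DirichletCharacter ℂ m), fun i => e i,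
    fun i => ((m.totient : ℕ) : ℂ)⁻¹ * (e i) ((b : ZMod m)⁻¹), ?_, ?_⟩
  · intro i
    rw [norm_mul, norm_inv, Complex.norm_natCast]
    have h1 : ‖(e i) ((b : ZMod m)⁻¹)‖ ≤ 1 := (e i).norm_le_one _
    have h2 : (m.totient : ℝ)⁻¹ ≤ 1 := inv_le_one_of_one_le₀ hφ1
    calc (m.totient : ℝ)⁻¹ * ‖(e i) ((b : ZMod m)⁻¹)‖ ≤ 1 * 1 :=
          mul_le_mul h2 h1 (norm_nonneg _) zero_le_one
      _ = 1 := one_mul 1
  · intro x
    have h := DirichletCharacter.sum_char_inv_mul_char_eq ℂ hu (x : ZMod m)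
    have h2 : ∑ i, ((m.totient : ℕ) : ℂ)⁻¹ * (e i) ((b : ZMod m)⁻¹) * (e i) (x : ZMod m) =
        ((m.totient : ℕ) : ℂ)⁻¹ * ∑ χ : DirichletCharacter ℂ m, χ ((b : ZMod m)⁻¹) * χ (x : ZMod m) := by
      rw [Finset.mul_sum, ← Equiv.sum_comp e]
      exact Finset.sum_congr rfl fun i _ => by rw [mul_assoc]
    rw [h2, h]
    have h3 : ((b : ZMod m) = (x : ZMod m)) ↔ x ≡ b [MOD m] := by
      rw [ZMod.natCast_eq_natCast_iff]
      exact ⟨fun h => h.symm, fun h => h.symm⟩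
    by_cases hx : x ≡ b [MOD m]
    · rw [if_pos hx, if_pos (h3.2 hx), inv_mul_cancel₀ hφ]
    · rw [if_neg hx, if_neg (fun h => hx (h3.1 h)), mul_zero]

end Pool.Agent.SplI
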