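import Pool.Agent.Lib_MP_92ef0c_spi.PDefs

/-!
# Piece I-DISC: discretisation of an integral
-/

set_option autoImplicit false

namespace Pool.Agent.SplI

open Finset Pool.Agent.Spl

open Pool.Agent.GaussMR in
theorem disc_sum (T : ℕ) (F : ℝ → ℝ) :
    ∑ k ∈ fr T, F (k : ℝ) = ∑ j ∈ range (2 * T + 1), F ((j : ℝ) - T) := by
  refine Finset.sum_nbij' (fun k : ℤ => (k + T).toNat) (fun j : ℕ => (j : ℤ) - T) ?_ ?_ ?_ ?_ ?_
  · intro k hk
    unfold fr at hk
    rw [Finset.mem_Icc] at hk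
    rw [Finset.mem_range]
    omega
  · intro j hj
    rw [Finset.mem_range] at hj
    unfold fr
    rw [Finset.mem_Icc]
    omega
  · intro k hk
    unfold fr at hk
    rw [Finset.mem_Icc] at hk
    omega
  · intro j hj
    omega
  · intro k hk
    unfold fr at hk
    rw [Finset.mem_Icc] at hk
    have : (((k + T).toNat : ℕ) : ℤ) = k + T := by omega
    have h2 : (((k + T).toNat : ℕ) : ℝ) = (k : ℝ) + T := by
      have h3 := congrArg (fun z : ℤ => (z : ℝ)) this
      push_cast at h3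
      exact h3
    rw [h2]
    congr 1
    ring

open Pool.Agent.GaussMR in
/-- `[-T', T'] ⊆ ⋃_(|k| ≤ T) [k/N, (k+1)/N]` for `T ≥ N T'`; substitute `t = (k + s)/N`. -/
theorem disc (h : ℝ → ℝ) (hc : Continuous h) (h0 : ∀ t, 0 ≤ h t) (N T : ℕ) (hN : 0 < N) (T' : ℝ) (hT' : 0 ≤ T') (hT : N * T' ≤ T) (M : ℝ)
    (hM : ∀ s : ℝ, 0 ≤ s → s ≤ 1 → ∑ k ∈ fr T, h ((k + s) / N) ≤ M) : ∫ t in (-T')..T', h t ≤ M / N := by
  have hN0 : (0 : ℝ) < N := by exact_mod_cast hN
  have hInt : ∀ a b : ℝ, IntervalIntegrable h MeasureTheory.volume a b := fun a b => hc.intervalIntegrable a b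
  let a : ℕ → ℝ := fun j => ((j : ℝ) - T) / N
  have h1 : ∫ t in (-T')..T', h t ≤ ∫ t in (a 0)..(a (2 * T + 1)), h t := by
    refine intervalIntegral.integral_mono_interval ?_ (by linarith) ?_
      (Filter.Eventually.of_forall fun t => h0 t) (hInt _ _)
    · simp only [a]
      rw [div_le_iff₀ hN0]
      push_cast
      nlinarith
    · simp only [a]
      rw [le_div_iff₀ hN0]
      push_cast
      nlinarith
  have h2 : ∑ k ∈ range (2 * T + 1), ∫ x in (a k)..(a (k + 1)), h x = ∫ x in (a 0)..(a (2 * T + 1)), h x :=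
    intervalIntegral.sum_integral_adjacent_intervals (fun k _ => hInt _ _)
  have h3 : ∀ k : ℕ, ∫ x in (a k)..(a (k + 1)), h x = (1 / N) * ∫ s in (0:ℝ)..1, h ((((k : ℝ) - T) + s) / N) := by
    intro k
    have h4 := intervalIntegral.integral_comp_mul_add (a := 0) (b := 1) h (c := 1 / (N : ℝ)) (by positivity) (((k : ℝ) - T) / N)
    have e1 : (fun s : ℝ => h ((((k : ℝ) - T) + s) / N)) = fun s => h (1 / (N : ℝ) * s + ((k : ℝ) - T) / N) := by
      funext s; congr 1; ring
    rw [e1, h4, smul_eq_mul]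
    have e2 : 1 / (N : ℝ) * 0 + ((k : ℝ) - T) / N = a k := by simp only [a]; ring
    have e3 : 1 / (N : ℝ) * 1 + ((k : ℝ) - T) / N = a (k + 1) := by simp only [a]; push_cast; ring
    rw [e2, e3]
    field_simp
  have h5 : ∫ x in (a 0)..(a (2 * T + 1)), h x = (1 / N) * ∫ s in (0:ℝ)..1, ∑ k ∈ range (2 * T + 1), h ((((k : ℝ) - T) + s) / N) := by
    rw [← h2, intervalIntegral.integral_finsetSum (fun k _ => (by
      refine Continuous.intervalIntegrable ?_ _ _
      exact hc.comp (by fun_prop)))]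
    rw [mul_sum]
    exact sum_congr rfl fun k _ => h3 k
  have h6 : ∫ s in (0:ℝ)..1, ∑ k ∈ range (2 * T + 1), h ((((k : ℝ) - T) + s) / N) ≤ M := by
    have h7 : ∫ s in (0:ℝ)..1, ∑ k ∈ range (2 * T + 1), h ((((k : ℝ) - T) + s) / N) ≤ ∫ s in (0:ℝ)..1, M := by
      refine intervalIntegral.integral_mono_on (by norm_num) ?_ (by simp) fun s hs => ?_
      · refine Continuous.intervalIntegrable ?_ _ _
        exact continuous_finsetSum _ fun k _ => hc.comp (by fun_prop)
      · have h8 := hM s hs.1 hs.2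
        rw [disc_sum T (fun x => h ((x + s) / N))] at h8
        exact h8
    simpa using h7
  calc _ ≤ _ := h1
    _ = _ := h5
    _ ≤ (1 / N) * M := by gcongr
    _ = M / N := by ring

/-- `Ps` is a trigonometric polynomial -/
theorem ps_cont (f g : ℕ → ℂ) (C D : ℝ) : Continuous (Ps f g C D) := by
  unfold Ps
  refine continuous_finsetSum _ fun z _ => ?_
  fun_prop

end Pool.Agent.SplI
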