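import Pool.Agent.Lib_MP_92ef0c_spi.PDefs

/-!
# Piece I-MOB: Moebius inversion in a box
-/

set_option autoImplicit false

namespace Pool.Agent.SplI

open Finset Pool.Agent.Spl

private theorem mob_ind (N x y : ℕ) (hx : 1 ≤ x) (hxN : x ≤ N) :
    (if x.Coprime y then (1 : ℂ) else 0) =
      ∑ k ∈ Icc 1 N, if k ∣ x ∧ k ∣ y then ((ArithmeticFunction.moebius k : ℤ) : ℂ) else 0 := by
  have h1 : ∑ d ∈ (Nat.gcd x y).divisors, ArithmeticFunction.moebius d = if Nat.gcd x y = 1 then 1 else 0 := by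
    have h2 := ArithmeticFunction.coe_mul_zeta_apply (f := ArithmeticFunction.moebius) (x := Nat.gcd x y)
    rw [ArithmeticFunction.moebius_mul_coe_zeta, ArithmeticFunction.one_apply] at h2
    exact h2.symm
  have h3 : (Icc 1 N).filter (fun k => k ∣ x ∧ k ∣ y) = (Nat.gcd x y).divisors := by
    ext k
    rw [mem_filter, mem_Icc, Nat.mem_divisors, Nat.dvd_gcd_iff]
    have hg : Nat.gcd x y ≠ 0 := Nat.gcd_ne_zero_left (by omega)
    constructor
    · rintro ⟨-, h⟩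
      exact ⟨h, hg⟩
    · rintro ⟨h, -⟩
      have := Nat.le_of_dvd (by omega) h.1
      have hk : k ≠ 0 := by
        rintro rfl
        have := Nat.eq_zero_of_zero_dvd h.1
        omega
      exact ⟨⟨by omega, by omega⟩, h⟩
  rw [← sum_filter, h3, ← Int.cast_sum, h1]
  by_cases hc : x.Coprime y
  · rw [if_pos hc, if_pos hc]
    simp
  · rw [if_neg hc, if_neg hc]
    simp

private theorem mob_mult (n k : ℕ) (hk : 1 ≤ k) (a : ℕ → ℂ) :
    ∑ x ∈ (Icc 1 n).filter (fun x => k ∣ x), a x = ∑ x ∈ Icc 1 (n / k), a (k * x) := by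
  have h1 : (Icc 1 n).filter (fun x => k ∣ x) = (Icc 1 (n / k)).image (fun x => k * x) := by
    ext x
    rw [mem_filter, mem_Icc, mem_image]
    constructor
    · rintro ⟨⟨h1, h2⟩, c, rfl⟩
      refine ⟨c, ?_, rfl⟩
      rw [mem_Icc]
      refine ⟨?_, ?_⟩
      · rcases Nat.eq_zero_or_pos c with h | h
        · subst h
          simp at h1
        · exact h
      · rw [Nat.le_div_iff_mul_le (by omega)]
        rw [mul_comm]
        exact h2
    · rintro ⟨c, hc, rfl⟩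
      rw [mem_Icc] at hc
      refine ⟨⟨Nat.mul_pos (by omega) (by omega), ?_⟩, Dvd.intro _ rfl⟩
      rw [Nat.le_div_iff_mul_le (by omega)] at hc
      rw [mul_comm]
      exact hc.2
  rw [h1, sum_image]
  intro x _ y _ h
  exact Nat.eq_of_mul_eq_mul_left (by omega) h

/-- `∑_(k ∣ gcd (x, y)) μ(k) = 1` iff coprime; `x = k x'`, `y = k y'`, `f (k x') = f k f x'`, `et t (k x') et (-t) (k y') = et t x' et (-t) y'`; `exp (i t (log y - log x)) = et t x * et (-t) y`. For `k > D` the last sum is empty. -/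
theorem ps_mob (f g : ℕ → ℂ) (hf : CF f) (hg : CF g) (C D t : ℝ) :
    Ps f g C D t = ∑ k ∈ Icc 1 ⌊C⌋₊, ((ArithmeticFunction.moebius k : ℤ) : ℂ) * (f k * g k) *
      ((∑ x ∈ Icc 1 ⌊C / k⌋₊, f x * et t x) * ∑ y ∈ Icc 1 ⌊D / k⌋₊, g y * et (-t) y) := by
  have hF : ∀ z : ℕ × ℕ, f z.1 * g z.2 * Complex.exp (((t * dirn z : ℝ) : ℂ) * Complex.I) =
      (f z.1 * et t z.1) * (g z.2 * et (-t) z.2) := by
    intro z
    have h : Complex.exp (((t * dirn z : ℝ) : ℂ) * Complex.I) = et t z.1 * et (-t) z.2 := by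
      unfold et dirn
      rw [← Complex.exp_add]
      congr 1
      push_cast
      ring
    rw [h]
    ring
  unfold Ps
  rw [sum_congr rfl (fun z _ => hF z)]
  unfold PB
  rw [sum_filter, sum_product]
  have h1 : ∀ x ∈ Icc 1 ⌊C⌋₊, ∀ y ∈ Icc 1 ⌊D⌋₊,
      (if x.Coprime y then (f x * et t x) * (g y * et (-t) y) else 0) =
      ∑ k ∈ Icc 1 ⌊C⌋₊, ((ArithmeticFunction.moebius k : ℤ) : ℂ) *
        ((if k ∣ x then f x * et t x else 0) * (if k ∣ y then g y * et (-t) y else 0)) := by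
    intro x hx y _
    rw [mem_Icc] at hx
    have h2 := mob_ind ⌊C⌋₊ x y hx.1 hx.2
    have h3 : (if x.Coprime y then (f x * et t x) * (g y * et (-t) y) else 0) =
        (if x.Coprime y then (1 : ℂ) else 0) * ((f x * et t x) * (g y * et (-t) y)) := by
      split_ifs <;> ring
    rw [h3, h2, sum_mul]
    refine sum_congr rfl fun k _ => ?_
    by_cases ha : k ∣ x
    · by_cases hb : k ∣ y
      · rw [if_pos ⟨ha, hb⟩, if_pos ha, if_pos hb]
      · rw [if_neg (fun h => hb h.2), if_neg hb]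
        ring
    · rw [if_neg (fun h => ha h.1), if_neg ha]
      ring
  rw [sum_congr rfl (fun x hx => sum_congr rfl (fun y hy => h1 x hx y hy))]
  have h4 : ∀ x ∈ Icc 1 ⌊C⌋₊, ∑ y ∈ Icc 1 ⌊D⌋₊, ∑ k ∈ Icc 1 ⌊C⌋₊, ((ArithmeticFunction.moebius k : ℤ) : ℂ) *
        ((if k ∣ x then f x * et t x else 0) * (if k ∣ y then g y * et (-t) y else 0)) =
      ∑ k ∈ Icc 1 ⌊C⌋₊, ((ArithmeticFunction.moebius k : ℤ) : ℂ) *
        ((if k ∣ x then f x * et t x else 0) * ∑ y ∈ Icc 1 ⌊D⌋₊, (if k ∣ y then g y * et (-t) y else 0)) := by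
    intro x _
    rw [sum_comm]
    refine sum_congr rfl fun k _ => ?_
    rw [mul_sum, mul_sum]
  rw [sum_congr rfl h4, sum_comm]
  refine sum_congr rfl fun k hk => ?_
  rw [mem_Icc] at hk
  rw [← mul_sum, ← sum_mul, ← sum_filter, ← sum_filter, mob_mult _ k hk.1, mob_mult _ k hk.1,
    Nat.floor_div_natCast, Nat.floor_div_natCast]
  have h5 : ∑ x ∈ Icc 1 (⌊C⌋₊ / k), f (k * x) * et t (k * x) =
      (f k * et t k) * ∑ x ∈ Icc 1 (⌊C⌋₊ / k), f x * et t x := by
    rw [mul_sum]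
    refine sum_congr rfl fun x hx => ?_
    rw [mem_Icc] at hx
    rw [hf.mul k x (by omega) (by omega), et_mul t (by omega) (by omega)]
    ring
  have h6 : ∑ x ∈ Icc 1 (⌊D⌋₊ / k), g (k * x) * et (-t) (k * x) =
      (g k * et (-t) k) * ∑ x ∈ Icc 1 (⌊D⌋₊ / k), g x * et (-t) x := by
    rw [mul_sum]
    refine sum_congr rfl fun x hx => ?_
    rw [mem_Icc] at hx
    rw [hg.mul k x (by omega) (by omega), et_mul (-t) (by omega) (by omega)]
    ring
  have h7 : et t k * et (-t) k = 1 := by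
    rw [← et_add]
    unfold et
    simp
  rw [h5, h6]
  have h8 : (f k * et t k * ∑ x ∈ Icc 1 (⌊C⌋₊ / k), f x * et t x) *
      (g k * et (-t) k * ∑ x ∈ Icc 1 (⌊D⌋₊ / k), g x * et (-t) x) =
      (et t k * et (-t) k) * ((f k * g k) * ((∑ x ∈ Icc 1 (⌊C⌋₊ / k), f x * et t x) *
        ∑ x ∈ Icc 1 (⌊D⌋₊ / k), g x * et (-t) x)) := by
    ring
  rw [h8, h7]
  ring

end Pool.Agent.SplI
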