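import Pool.Agent.Lib_MP_92ef0c_spi.ZSum

/-!
# Piece I-ZSUMB: zeta sums, consequences
-/

set_option autoImplicit false

namespace Pool.Agent.SplI

open Finset MeasureTheory

theorem zb_norm (τ x : ℝ) (hx : 0 < x) : ‖(x : ℂ) ^ (1 + (τ : ℂ) * Complex.I)‖ = x := by
  rw [Complex.norm_cpow_eq_rpow_re_of_pos hx]
  simp

theorem zb_den (τ : ℝ) : 1 ≤ ‖(1 + (τ : ℂ) * Complex.I)‖ := by
  have := Complex.abs_re_le_norm (1 + (τ : ℂ) * Complex.I)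
  simpa using this

theorem zb_den2 (τ : ℝ) : |τ| ≤ ‖(1 + (τ : ℂ) * Complex.I)‖ := by
  have := Complex.abs_im_le_norm (1 + (τ : ℂ) * Complex.I)
  simpa using this

/-- blocks -/
theorem zb_blk (A : ℝ) (hA : 1 ≤ A) : ∃ η C : ℝ, 0 < η ∧ η ≤ 1 / 2 ∧ 0 < C ∧ ∀ τ u v : ℝ, 1 ≤ u → u ≤ v → v ≤ 2 * u →
    |τ| ≤ u ^ A → ‖∑ n ∈ Ioc ⌊u⌋₊ ⌊v⌋₊, et (-τ) n - ((v : ℂ) ^ (1 + (τ : ℂ) * Complex.I) - (u : ℂ) ^ (1 + (τ : ℂ) * Complex.I)) / (1 + (τ : ℂ) * Complex.I)‖ ≤ C * u ^ (1 - η) := by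
  obtain ⟨C1, hC1, h1⟩ := zs_small
  obtain ⟨η, C2, hη, hη2, hC2, h2⟩ := zs_large A hA
  refine ⟨η, 2 * C1 + C2 + 3, hη, hη2, by positivity, fun τ u v hu huv hv hτ => ?_⟩
  have hu0 : (0:ℝ) < u := by linarith
  have hhalf : u ^ (1/2 : ℝ) ≤ u ^ (1 - η) := Real.rpow_le_rpow_of_exponent_le hu (by linarith)
  have hpos : 0 < u ^ (1 - η) := Real.rpow_pos_of_pos hu0 _
  have hpos2 : 0 < u ^ (1/2 : ℝ) := Real.rpow_pos_of_pos hu0 _
  rcases le_total (|τ|) (u ^ (1/2 : ℝ)) with h | h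
  · have h0 := h1 τ u v hu huv hv
    have h3 : (1 : ℝ) ≤ u ^ (1/2:ℝ) := Real.one_le_rpow hu (by norm_num)
    calc _ ≤ C1 * (1 + |τ|) := h0
      _ ≤ C1 * (2 * u ^ (1 - η)) := by gcongr; linarith
      _ ≤ _ := by nlinarith
  · have h0 := h2 τ u v hu huv hv h hτ
    have hm : ‖((v : ℂ) ^ (1 + (τ : ℂ) * Complex.I) - (u : ℂ) ^ (1 + (τ : ℂ) * Complex.I)) / (1 + (τ : ℂ) * Complex.I)‖ ≤ 3 * u ^ (1/2:ℝ) := by
      rw [norm_div]
      have hd := (h.trans (zb_den2 τ))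
      rw [div_le_iff₀ (by linarith)]
      have hn : ‖(v : ℂ) ^ (1 + (τ : ℂ) * Complex.I) - (u : ℂ) ^ (1 + (τ : ℂ) * Complex.I)‖ ≤ v + u := by
        refine (norm_sub_le _ _).trans ?_
        rw [zb_norm τ v (by linarith), zb_norm τ u hu0]
      have hsq : u ^ (1/2:ℝ) * u ^ (1/2:ℝ) = u := by
        rw [← Real.rpow_add hu0]; norm_num
      nlinarith
    calc _ ≤ ‖∑ n ∈ Ioc ⌊u⌋₊ ⌊v⌋₊, et (-τ) n‖ + ‖((v : ℂ) ^ (1 + (τ : ℂ) * Complex.I) - (u : ℂ) ^ (1 + (τ : ℂ) * Complex.I)) / (1 + (τ : ℂ) * Complex.I)‖ := norm_sub_le _ _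
      _ ≤ C2 * u ^ (1 - η) + 3 * u ^ (1/2:ℝ) := add_le_add h0 hm
      _ ≤ _ := by nlinarith

theorem zb_abel (τ u v E : ℝ) (hu : 1 ≤ u) (huv : u ≤ v) (hv : v ≤ 2 * u) (hτ : τ ≠ 0)
    (hE : ∀ x, u ≤ x → x ≤ v → ‖∑ n ∈ Ioc ⌊u⌋₊ ⌊x⌋₊, et (-τ) n - ((x : ℂ) ^ (1 + (τ : ℂ) * Complex.I) - (u : ℂ) ^ (1 + (τ : ℂ) * Complex.I)) / (1 + (τ : ℂ) * Complex.I)‖ ≤ E) :
    ‖∑ n ∈ Ioc ⌊u⌋₊ ⌊v⌋₊, et (-τ) n / (n : ℂ) - ((v : ℂ) ^ ((τ : ℂ) * Complex.I) - (u : ℂ) ^ ((τ : ℂ) * Complex.I)) / ((τ : ℂ) * Complex.I)‖ ≤ 2 * E / u := by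
  have hu0 : (0:ℝ) < u := by linarith
  have hv0 : (0:ℝ) < v := by linarith
  have hE0 : 0 ≤ E := (norm_nonneg _).trans (hE u le_rfl huv)
  set s : ℂ := (τ : ℂ) * Complex.I with hs
  have hs0 : s ≠ 0 := mul_ne_zero (by exact_mod_cast hτ) Complex.I_ne_zero
  have hs1 : (1 + s) ≠ 0 := by
    intro h
    have := zb_den τ
    rw [← hs, h, norm_zero] at this
    linarith
  -- coefficients
  let c : ℕ → ℂ := fun n => if n ≤ ⌊u⌋₊ then 0 else et (-τ) n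
  have hc : ∀ x, u ≤ x → ∑ k ∈ Icc 0 ⌊x⌋₊, c k = ∑ n ∈ Ioc ⌊u⌋₊ ⌊x⌋₊, et (-τ) n := by
    intro x hx
    have hfl : ⌊u⌋₊ ≤ ⌊x⌋₊ := Nat.floor_le_floor hx
    symm
    have hsub : Ioc ⌊u⌋₊ ⌊x⌋₊ ⊆ Icc 0 ⌊x⌋₊ := by
      intro k hk
      rw [mem_Ioc] at hk
      rw [mem_Icc]
      omega
    rw [← sum_subset hsub]
    · refine sum_congr rfl fun k hk => ?_
      rw [mem_Ioc] at hk
      simp only [c]
      rw [if_neg (by omega)]
    · intro k hk hk'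
      rw [mem_Ioc] at hk'
      rw [mem_Icc] at hk
      simp only [c]
      rw [if_pos (by omega)]
  let f : ℝ → ℂ := fun x => ((x⁻¹ : ℝ) : ℂ)
  have hf : ∀ t : ℝ, 0 < t → HasDerivAt f (((-(t^2)⁻¹ : ℝ)) : ℂ) t := fun t ht =>
    (hasDerivAt_inv ht.ne').ofReal_comp
  have hderiv : ∀ t : ℝ, 0 < t → deriv f t = (((-(t^2)⁻¹ : ℝ)) : ℂ) := fun t ht => (hf t ht).deriv
  have hcont : ContinuousOn (fun t : ℝ => (((-(t^2)⁻¹ : ℝ)) : ℂ)) (Set.Icc u v) := by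
    refine Complex.continuous_ofReal.comp_continuousOn ?_
    refine ContinuousOn.neg (ContinuousOn.inv₀ (by fun_prop) ?_)
    intro t ht
    have : 0 < t := lt_of_lt_of_le hu0 ht.1
    positivity
  have hint : IntegrableOn (deriv f) (Set.Icc u v) := by
    refine (hcont.integrableOn_Icc).congr_fun ?_ measurableSet_Icc
    intro t ht
    exact (hderiv t (lt_of_lt_of_le hu0 ht.1)).symm
  have habel := sum_mul_eq_sub_sub_integral_mul c hu0.le huv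
    (fun t ht => (hf t (lt_of_lt_of_le hu0 ht.1)).differentiableAt) hint
  have hSint := integrableOn_mul_sum_Icc (m := 0) c hu0.le hint
  -- the main function
  let M : ℝ → ℂ := fun x => ((x : ℂ) ^ (1 + s) - (u : ℂ) ^ (1 + s)) / (1 + s)
  have hM : ∀ x : ℝ, 0 < x → HasDerivAt M ((x : ℂ) ^ s) x := by
    intro x hx
    have h := ((hasDerivAt_ofReal_cpow_const hx.ne' hs1).sub_const ((u : ℂ) ^ (1 + s))).div_const (1 + s)
    refine h.congr_deriv ?_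
    rw [show (1 : ℂ) + s - 1 = s by ring]
    field_simp
  have hMc : ContinuousOn M (Set.Icc u v) := fun t ht =>
    (hM t (lt_of_lt_of_le hu0 ht.1)).continuousAt.continuousWithinAt
  let G : ℝ → ℂ := fun x => ((x : ℂ) ^ s - (u : ℂ) ^ s) / s - f x * M x
  have hG : ∀ x : ℝ, 0 < x → HasDerivAt G (- ((((-(x^2)⁻¹ : ℝ)) : ℂ) * M x)) x := by
    intro x hx
    have h1 := ((hasDerivAt_ofReal_cpow_const hx.ne' hs0).sub_const ((u : ℂ) ^ s)).div_const s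
    have h2 := (hf x hx).mul (hM x hx)
    have h3 := h1.sub h2
    have hx' : (x : ℂ) ≠ 0 := by exact_mod_cast hx.ne'
    refine h3.congr_deriv ?_
    simp only [f]
    rw [Complex.cpow_sub _ _ hx', Complex.cpow_one]
    push_cast
    field_simp
    ring
  have hGint : IntervalIntegrable (fun x => - ((((-(x^2)⁻¹ : ℝ)) : ℂ) * M x)) volume u v := by
    refine ContinuousOn.intervalIntegrable ?_
    rw [Set.uIcc_of_le huv]
    exact (hcont.mul hMc).neg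
  have hFTC := intervalIntegral.integral_eq_sub_of_hasDerivAt (f := G) (a := u) (b := v)
    (fun x hx => hG x (by rw [Set.uIcc_of_le huv] at hx; exact lt_of_lt_of_le hu0 hx.1)) hGint
  have hGu : G u = 0 := by simp [G, M]
  rw [hGu, sub_zero, intervalIntegral.integral_of_le huv] at hFTC
  -- rewrite Abel
  have hsum : ∑ n ∈ Ioc ⌊u⌋₊ ⌊v⌋₊, et (-τ) n / (n : ℂ) = ∑ k ∈ Ioc ⌊u⌋₊ ⌊v⌋₊, f k * c k := by
    refine sum_congr rfl fun k hk => ?_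
    rw [mem_Ioc] at hk
    simp only [c, f]
    rw [if_neg (by omega)]
    push_cast
    rw [div_eq_mul_inv, mul_comm]
  have hSu : ∑ k ∈ Icc 0 ⌊u⌋₊, c k = 0 := by
    rw [hc u le_rfl]
    simp
  rw [hSu, mul_zero, sub_zero, hc v huv] at habel
  have hI1 : ∫ t in Set.Ioc u v, deriv f t * ∑ k ∈ Icc 0 ⌊t⌋₊, c k = ∫ t in Set.Ioc u v, (((-(t^2)⁻¹ : ℝ)) : ℂ) * ∑ n ∈ Ioc ⌊u⌋₊ ⌊t⌋₊, et (-τ) n := by
    refine setIntegral_congr_fun measurableSet_Ioc fun t ht => ?_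
    rw [hderiv t (lt_of_lt_of_le hu0 ht.1.le), hc t ht.1.le]
  have hInt1 : IntegrableOn (fun t : ℝ => (((-(t^2)⁻¹ : ℝ)) : ℂ) * ∑ n ∈ Ioc ⌊u⌋₊ ⌊t⌋₊, et (-τ) n) (Set.Ioc u v) := by
    refine (hSint.mono_set Set.Ioc_subset_Icc_self).congr_fun ?_ measurableSet_Ioc
    intro t ht
    simp only
    rw [hderiv t (lt_of_lt_of_le hu0 ht.1.le), hc t ht.1.le]
  have hInt2 : IntegrableOn (fun t : ℝ => (((-(t^2)⁻¹ : ℝ)) : ℂ) * M t) (Set.Ioc u v) :=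
    (hcont.mul hMc).integrableOn_Icc.mono_set Set.Ioc_subset_Icc_self
  have key : ∑ n ∈ Ioc ⌊u⌋₊ ⌊v⌋₊, et (-τ) n / (n : ℂ) - ((v : ℂ) ^ s - (u : ℂ) ^ s) / s =
      f v * (∑ n ∈ Ioc ⌊u⌋₊ ⌊v⌋₊, et (-τ) n - M v) -
        ∫ t in Set.Ioc u v, (((-(t^2)⁻¹ : ℝ)) : ℂ) * (∑ n ∈ Ioc ⌊u⌋₊ ⌊t⌋₊, et (-τ) n - M t) := by
    have e1 : ∫ t in Set.Ioc u v, (((-(t^2)⁻¹ : ℝ)) : ℂ) * (∑ n ∈ Ioc ⌊u⌋₊ ⌊t⌋₊, et (-τ) n - M t) =
        (∫ t in Set.Ioc u v, (((-(t^2)⁻¹ : ℝ)) : ℂ) * ∑ n ∈ Ioc ⌊u⌋₊ ⌊t⌋₊, et (-τ) n) -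
          ∫ t in Set.Ioc u v, (((-(t^2)⁻¹ : ℝ)) : ℂ) * M t := by
      rw [← integral_sub hInt1 hInt2]
      refine integral_congr_ae (Filter.Eventually.of_forall fun t => ?_)
      simp only
      ring
    have e2 : ((v : ℂ) ^ s - (u : ℂ) ^ s) / s = f v * M v - ∫ t in Set.Ioc u v, (((-(t^2)⁻¹ : ℝ)) : ℂ) * M t := by
      have e3 : ((v : ℂ) ^ s - (u : ℂ) ^ s) / s = G v + f v * M v := by simp only [G]; ring
      rw [e3, ← hFTC, integral_neg]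
      ring
    rw [hsum, habel, hI1, e1, e2]
    ring
  rw [key]
  have hfv : ‖f v‖ ≤ 1 / u := by
    simp only [f, Complex.norm_real, Real.norm_eq_abs]
    rw [abs_of_pos (by positivity), one_div]
    exact inv_anti₀ hu0 huv
  have hb1 : ‖f v * (∑ n ∈ Ioc ⌊u⌋₊ ⌊v⌋₊, et (-τ) n - M v)‖ ≤ E / u := by
    rw [norm_mul]
    calc _ ≤ (1 / u) * E := mul_le_mul hfv (hE v huv le_rfl) (norm_nonneg _) (by positivity)
      _ = _ := by ring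
  have hb2 : ‖∫ t in Set.Ioc u v, (((-(t^2)⁻¹ : ℝ)) : ℂ) * (∑ n ∈ Ioc ⌊u⌋₊ ⌊t⌋₊, et (-τ) n - M t)‖ ≤ E / u := by
    have h := norm_setIntegral_le_of_norm_le_const (μ := volume) (s := Set.Ioc u v) (C := E / u ^ 2)
      (f := fun t : ℝ => (((-(t^2)⁻¹ : ℝ)) : ℂ) * (∑ n ∈ Ioc ⌊u⌋₊ ⌊t⌋₊, et (-τ) n - M t))
      (by simp) (fun t ht => by
        have ht0 : 0 < t := lt_of_lt_of_le hu0 ht.1.le
        rw [norm_mul, Complex.norm_real, Real.norm_eq_abs, abs_neg, abs_of_pos (by positivity)]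
        have : (t ^ 2)⁻¹ ≤ (u ^ 2)⁻¹ := inv_anti₀ (by positivity) (by nlinarith [ht.1])
        calc _ ≤ (u ^ 2)⁻¹ * E := mul_le_mul this (hE t ht.1.le ht.2) (norm_nonneg _) (by positivity)
          _ = _ := by ring)
    refine h.trans ?_
    rw [Real.volume_real_Ioc_of_le huv]
    calc E / u ^ 2 * (v - u) ≤ E / u ^ 2 * u := by gcongr; linarith
      _ = E / u := by field_simp
  calc _ ≤ E / u + E / u := (norm_sub_le _ _).trans (add_le_add hb1 hb2)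
    _ = _ := by ring

/-- Dyadic blocks `(2^j u, 2^(j+1) u]`: Abel summation with `1/n` inside a block from `zs_small` (`|τ| ≤ u'^(1/2)`) or `zs_large` (`|τ| ≥ u'^(1/2)`; the main term `(v^(iτ) - u^(iτ))/(iτ)` is then `O(u'^(-1/2))` per block); the errors `C (2^j u)^(-η)` are summable. -/
theorem zs_log (A : ℝ) (hA : 1 ≤ A) : ∃ η C : ℝ, 0 < η ∧ η ≤ 1 / 2 ∧ 0 < C ∧ ∀ τ u v : ℝ, 1 ≤ u → u ≤ v → 1 ≤ |τ| → |τ| ≤ u ^ A →
    ‖∑ n ∈ Ioc ⌊u⌋₊ ⌊v⌋₊, et (-τ) n / (n : ℂ) - ((v : ℂ) ^ ((τ : ℂ) * Complex.I) - (u : ℂ) ^ ((τ : ℂ) * Complex.I)) / ((τ : ℂ) * Complex.I)‖ ≤ C * u ^ (-η) := by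
  obtain ⟨η, C, hη, hη2, hC, h⟩ := zb_blk A hA
  have hq : (2:ℝ) ^ (-η) < 1 := by
    have := Real.rpow_lt_rpow_of_exponent_lt (x := 2) (by norm_num) (show -η < 0 by linarith)
    rwa [Real.rpow_zero] at this
  set K : ℝ := 2 * C / (1 - 2 ^ (-η)) with hK
  have hK0 : 0 < K := div_pos (by positivity) (by linarith)
  have hKq : 2 * C + K * 2 ^ (-η) = K := by
    have : K * (1 - 2 ^ (-η)) = 2 * C := by
      rw [hK]; exact div_mul_cancel₀ _ (by linarith)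
    linarith
  refine ⟨η, K, hη, hη2, hK0, ?_⟩
  have hblk : ∀ τ u v : ℝ, 1 ≤ u → u ≤ v → v ≤ 2 * u → 1 ≤ |τ| → |τ| ≤ u ^ A →
      ‖∑ n ∈ Ioc ⌊u⌋₊ ⌊v⌋₊, et (-τ) n / (n : ℂ) - ((v : ℂ) ^ ((τ : ℂ) * Complex.I) - (u : ℂ) ^ ((τ : ℂ) * Complex.I)) / ((τ : ℂ) * Complex.I)‖ ≤ 2 * C * u ^ (-η) := by
    intro τ u v hu huv hv hτ1 hτ
    have hu0 : (0:ℝ) < u := by linarith
    have h0 := zb_abel τ u v (C * u ^ (1 - η)) hu huv hv (by rintro rfl; simp at hτ1; linarith)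
      (fun x hx hxv => h τ u x hu hx (by linarith) hτ)
    refine h0.trans (le_of_eq ?_)
    rw [show (1 : ℝ) - η = 1 + (-η) by ring, Real.rpow_add hu0, Real.rpow_one]
    field_simp
  have main : ∀ k : ℕ, ∀ τ u v : ℝ, 1 ≤ u → u ≤ v → v ≤ 2 ^ k * u → 1 ≤ |τ| → |τ| ≤ u ^ A →
      ‖∑ n ∈ Ioc ⌊u⌋₊ ⌊v⌋₊, et (-τ) n / (n : ℂ) - ((v : ℂ) ^ ((τ : ℂ) * Complex.I) - (u : ℂ) ^ ((τ : ℂ) * Complex.I)) / ((τ : ℂ) * Complex.I)‖ ≤ K * u ^ (-η) := by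
    intro k
    induction k with
    | zero =>
      intro τ u v hu huv hv hτ1 hτ
      have : v = u := by rw [pow_zero, one_mul] at hv; exact le_antisymm hv huv
      subst this
      simp only [Ioc_self, sum_empty, sub_self, zero_div, norm_zero]
      positivity
    | succ k ih =>
      intro τ u v hu huv hv hτ1 hτ
      have hu0 : (0:ℝ) < u := by linarith
      rcases le_total v (2 * u) with h2 | h2
      · refine (hblk τ u v hu huv h2 hτ1 hτ).trans ?_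
        have hp : 0 < u ^ (-η) := Real.rpow_pos_of_pos hu0 _
        have hp2 : 0 < (2:ℝ) ^ (-η) := by positivity
        nlinarith [mul_pos hK0 hp2, mul_pos (mul_pos hK0 hp2) hp]
      · have a1 := hblk τ u (2 * u) hu (by linarith) le_rfl hτ1 hτ
        have a2 := ih τ (2 * u) v (by linarith) h2 (by rw [pow_succ] at hv; linarith) hτ1
          (hτ.trans (Real.rpow_le_rpow hu0.le (by linarith) (by linarith)))
        have hsplit : ∑ n ∈ Ioc ⌊u⌋₊ ⌊v⌋₊, et (-τ) n / (n : ℂ) =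
            ∑ n ∈ Ioc ⌊u⌋₊ ⌊2 * u⌋₊, et (-τ) n / (n : ℂ) + ∑ n ∈ Ioc ⌊2 * u⌋₊ ⌊v⌋₊, et (-τ) n / (n : ℂ) := by
          rw [Finset.sum_Ioc_consecutive _ (Nat.floor_le_floor (by linarith)) (Nat.floor_le_floor h2)]
        rw [hsplit]
        have hw : ((v : ℂ) ^ ((τ : ℂ) * Complex.I) - (u : ℂ) ^ ((τ : ℂ) * Complex.I)) / ((τ : ℂ) * Complex.I) =
            (((2 * u : ℝ) : ℂ) ^ ((τ : ℂ) * Complex.I) - (u : ℂ) ^ ((τ : ℂ) * Complex.I)) / ((τ : ℂ) * Complex.I) +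
            ((v : ℂ) ^ ((τ : ℂ) * Complex.I) - ((2 * u : ℝ) : ℂ) ^ ((τ : ℂ) * Complex.I)) / ((τ : ℂ) * Complex.I) := by ring
        rw [hw]
        calc _ ≤ 2 * C * u ^ (-η) + K * (2 * u) ^ (-η) := by
              rw [add_sub_add_comm]
              exact (norm_add_le _ _).trans (add_le_add a1 a2)
          _ = (2 * C + K * 2 ^ (-η)) * u ^ (-η) := by
              rw [Real.mul_rpow (by norm_num) hu0.le]; ring
          _ = _ := by rw [hKq]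
  intro τ u v hu huv hτ1 hτ
  obtain ⟨k, hk⟩ := pow_unbounded_of_one_lt (v / u) (show (1:ℝ) < 2 by norm_num)
  have hu0 : (0:ℝ) < u := by linarith
  exact main k τ u v hu huv (by rw [div_lt_iff₀ hu0] at hk; exact hk.le) hτ1 hτ

/-- Dyadic blocks down to `N^(1/2)` (`zs_small`, `zs_large` with `2 A`), the rest trivially. -/
theorem zs_full (A : ℝ) (hA : 1 ≤ A) : ∃ η C : ℝ, 0 < η ∧ η ≤ 1 / 2 ∧ 0 < C ∧ ∀ τ N : ℝ, 1 ≤ N → 1 ≤ |τ| → |τ| ≤ N ^ A →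
    ‖∑ n ∈ Icc 1 ⌊N⌋₊, et (-τ) n - (N : ℂ) ^ (1 + (τ : ℂ) * Complex.I) / (1 + (τ : ℂ) * Complex.I)‖ ≤ C * N ^ (1 - η) := by
  obtain ⟨η, C, hη, hη2, hC, h⟩ := zb_blk (2 * A) (by linarith)
  refine ⟨η, 4 * C + 4, hη, hη2, by positivity, fun τ N hN hτ1 hτ => ?_⟩
  have hN0 : (0:ℝ) < N := by linarith
  have hh1 : (1 : ℝ) ≤ N ^ (1/2:ℝ) := Real.one_le_rpow hN (by norm_num)
  have hsq : N ^ (1/2:ℝ) * N ^ (1/2:ℝ) = N := by
    rw [← Real.rpow_add hN0]; norm_num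
  have htriv : ∀ x : ℝ, 0 < x → ‖∑ n ∈ Icc 1 ⌊x⌋₊, et (-τ) n - (x : ℂ) ^ (1 + (τ : ℂ) * Complex.I) / (1 + (τ : ℂ) * Complex.I)‖ ≤ 2 * x := by
    intro x hx
    have a1 : ‖∑ n ∈ Icc 1 ⌊x⌋₊, et (-τ) n‖ ≤ x := by
      refine (norm_sum_le _ _).trans ?_
      simp only [norm_et, sum_const, Nat.card_Icc, nsmul_eq_mul, mul_one]
      rw [Nat.add_sub_cancel]
      exact Nat.floor_le hx.le
    have a2 : ‖(x : ℂ) ^ (1 + (τ : ℂ) * Complex.I) / (1 + (τ : ℂ) * Complex.I)‖ ≤ x := by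
      rw [norm_div, zb_norm τ x hx]
      exact div_le_self hx.le (zb_den τ)
    calc _ ≤ x + x := (norm_sub_le _ _).trans (add_le_add a1 a2)
      _ = _ := by ring
  have main : ∀ k : ℕ, ∀ x : ℝ, 0 < x → x ≤ 2 ^ k * (2 * N ^ (1/2:ℝ)) →
      ‖∑ n ∈ Icc 1 ⌊x⌋₊, et (-τ) n - (x : ℂ) ^ (1 + (τ : ℂ) * Complex.I) / (1 + (τ : ℂ) * Complex.I)‖ ≤ 4 * C * x ^ (1 - η) + 4 * N ^ (1/2:ℝ) := by
    intro k
    induction k with
    | zero =>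
      intro x hx hxN
      refine (htriv x hx).trans ?_
      have : 0 < x ^ (1 - η) := Real.rpow_pos_of_pos hx _
      rw [pow_zero, one_mul] at hxN
      nlinarith
    | succ k ih =>
      intro x hx hxN
      rcases le_total x (2 * N ^ (1/2:ℝ)) with h2 | h2
      · refine (htriv x hx).trans ?_
        have : 0 < x ^ (1 - η) := Real.rpow_pos_of_pos hx _
        nlinarith
      · have hx2 : N ^ (1/2:ℝ) ≤ x / 2 := by linarith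
        have a1 := ih (x / 2) (by linarith) (by rw [pow_succ] at hxN; linarith)
        have a2 := h τ (x / 2) x (by linarith) (by linarith) (by linarith) (by
          refine hτ.trans ?_
          calc N ^ A = (N ^ (1/2:ℝ)) ^ (2 * A) := by
                rw [← Real.rpow_mul hN0.le]; congr 1; ring
            _ ≤ (x / 2) ^ (2 * A) := Real.rpow_le_rpow (by positivity) hx2 (by linarith))
        have hsplit : ∑ n ∈ Icc 1 ⌊x⌋₊, et (-τ) n = ∑ n ∈ Icc 1 ⌊x / 2⌋₊, et (-τ) n + ∑ n ∈ Ioc ⌊x / 2⌋₊ ⌊x⌋₊, et (-τ) n := by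
          rw [show Icc 1 ⌊x⌋₊ = Ioc 0 ⌊x⌋₊ from rfl, show Icc 1 ⌊x / 2⌋₊ = Ioc 0 ⌊x / 2⌋₊ from rfl,
            Finset.sum_Ioc_consecutive _ (Nat.zero_le _) (Nat.floor_le_floor (by linarith))]
        rw [hsplit]
        have hw : (x : ℂ) ^ (1 + (τ : ℂ) * Complex.I) / (1 + (τ : ℂ) * Complex.I) =
            ((x / 2 : ℝ) : ℂ) ^ (1 + (τ : ℂ) * Complex.I) / (1 + (τ : ℂ) * Complex.I) +
            ((x : ℂ) ^ (1 + (τ : ℂ) * Complex.I) - ((x / 2 : ℝ) : ℂ) ^ (1 + (τ : ℂ) * Complex.I)) / (1 + (τ : ℂ) * Complex.I) := by ring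
        rw [hw]
        have hhalf : (x / 2) ^ (1 - η) ≤ (3 / 4) * x ^ (1 - η) := by
          rw [div_eq_mul_inv, Real.mul_rpow hx.le (by norm_num)]
          have : ((2:ℝ)⁻¹) ^ (1 - η) ≤ 3 / 4 := by
            calc ((2:ℝ)⁻¹) ^ (1 - η) ≤ ((2:ℝ)⁻¹) ^ (1 / 2 : ℝ) :=
                  Real.rpow_le_rpow_of_exponent_ge (by norm_num) (by norm_num) (by linarith)
              _ ≤ 3 / 4 := by
                  rw [← Real.sqrt_eq_rpow, Real.sqrt_le_left (by norm_num)]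
                  norm_num
          have hp : 0 < x ^ (1 - η) := Real.rpow_pos_of_pos hx _
          nlinarith
        calc _ ≤ (4 * C * (x / 2) ^ (1 - η) + 4 * N ^ (1/2:ℝ)) + C * (x / 2) ^ (1 - η) := by
              rw [add_sub_add_comm]
              exact (norm_add_le _ _).trans (add_le_add a1 a2)
          _ ≤ _ := by nlinarith [Real.rpow_pos_of_pos hx (1 - η)]
  obtain ⟨k, hk⟩ := pow_unbounded_of_one_lt N (show (1:ℝ) < 2 by norm_num)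
  have h0 := main k N hN0 (by nlinarith [show (0:ℝ) < 2 ^ k by positivity])
  refine h0.trans ?_
  have hhalf : N ^ (1/2 : ℝ) ≤ N ^ (1 - η) := Real.rpow_le_rpow_of_exponent_le hN (by linarith)
  nlinarith

end Pool.Agent.SplI
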