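import Pool.Agent.Lib_MP_92ef0c_spi.Disc
import Pool.Agent.Lib_MP_92ef0c_spm.MainS
import Pool.Agent.Lib_MP_92ef0c_spm.ArcS

/-!
# Block M split: interface of the chain and of the line Parseval (helper30)
-/

set_option autoImplicit false

namespace Pool.Agent.SplI

open Finset Pool.Agent.Spl

private theorem cs_small {K X : ℝ} (hK : 1 ≤ K) (hX : K ^ 20 ≤ X) : 1 ≤ X ∧ K ≤ X ^ (1 / 20 : ℝ) := by
  have h1 : 1 ≤ K ^ 20 := one_le_pow₀ hK
  have hX1 : 1 ≤ X := h1.trans hX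
  refine ⟨hX1, ?_⟩
  have h2 : K = (K ^ 20) ^ (1 / 20 : ℝ) := by
    rw [← Real.rpow_natCast, ← Real.rpow_mul (by linarith)]
    norm_num
  rw [h2]
  exact Real.rpow_le_rpow (by positivity) hX (by norm_num)

open Pool.Agent.GaussMR in
/-- chain of Matomaki-Radziwill for pairs, primes extracted from the first coordinate (helper30) -/
theorem chainS_st (ε δ K : ℝ) (hε : 0 < ε) (hδ : 0 < δ) (hK : 1 ≤ K) : ∃ Q0 X0 : ℝ, 1 ≤ Q0 ∧ 1 < X0 ∧ ∀ X : ℝ, X0 ≤ X →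
    ∀ f g : ℕ → ℂ, (∀ m n, f (m * n) = f m * f n) → (∀ n, ‖f n‖ ≤ 1) → (∀ n, ‖g n‖ ≤ 1) →
    ∀ C D : ℝ, Real.sqrt X / K ≤ C → C ≤ K * Real.sqrt X → Real.sqrt X / K ≤ D → D ≤ K * Real.sqrt X →
    ∀ N : ℕ, Real.log X ≤ N → (N : ℝ) ≤ 2 * Real.log X → ∀ T : ℕ, (T : ℝ) ≤ N * X / Q0 →
    ∃ S : Finset ℤ, S ⊆ fr T ∧ (S.card : ℝ) ≤ X ^ δ ∧ ∑ k ∈ fr T \ S, ‖Ps f g C D (k / N)‖ ^ 2 ≤ ε * N * X ^ 2 := by
  have hK0 : 0 < K := by linarith
  obtain ⟨Q0, X0, hQ0, h⟩ := SplM.chainS (ε / K ^ 4) (δ / 2) (by positivity) (by positivity)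
  refine ⟨Q0, max X0 (max 2 (K ^ 20)), hQ0, lt_max_of_lt_right (lt_max_of_lt_left (by norm_num)), ?_⟩
  intro X hX f g hfm hfb hgb C D hC1 hC2 hD1 hD2 N hN1 hN2 T hT
  have hX0 : X0 ≤ X := (le_max_left _ _).trans hX
  have hX2 : 2 ≤ X := ((le_max_left _ _).trans (le_max_right _ _)).trans hX
  have hXK : K ^ 20 ≤ X := ((le_max_right _ _).trans (le_max_right _ _)).trans hX
  obtain ⟨hX1, hKX⟩ := cs_small hK hXK
  have hXpos : 0 < X := by linarith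
  have hK2 : 1 ≤ K ^ 2 := one_le_pow₀ hK
  have hX' : X ≤ K ^ 2 * X := by nlinarith
  have hlogX : 0 < Real.log X := Real.log_pos (by linarith)
  have hK2X : K ^ 2 * X ≤ X ^ (11 / 10 : ℝ) := by
    have h1 : K ^ 2 ≤ (X ^ (1 / 20 : ℝ)) ^ 2 := pow_le_pow_left₀ (by linarith) hKX 2
    have h2 : (X ^ (1 / 20 : ℝ)) ^ 2 * X = X ^ (11 / 10 : ℝ) := by
      have h3 : (X ^ (1 / 20 : ℝ)) ^ 2 = X ^ (1 / 10 : ℝ) := by
        rw [← Real.rpow_natCast, ← Real.rpow_mul hXpos.le]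
        norm_num
      rw [h3]
      nth_rewrite 2 [← Real.rpow_one X]
      rw [← Real.rpow_add hXpos]
      norm_num
    calc K ^ 2 * X ≤ (X ^ (1 / 20 : ℝ)) ^ 2 * X := by gcongr
      _ = _ := h2
  have hsq : X ^ (9 / 20 : ℝ) ≤ Real.sqrt X / K := by
    rw [le_div_iff₀ hK0, Real.sqrt_eq_rpow]
    calc X ^ (9 / 20 : ℝ) * K ≤ X ^ (9 / 20 : ℝ) * X ^ (1 / 20 : ℝ) := by gcongr
      _ = X ^ (1 / 2 : ℝ) := by
        rw [← Real.rpow_add hXpos]
        norm_num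
  have h1X : 1 ≤ X ^ (9 / 20 : ℝ) := Real.one_le_rpow hX1 (by norm_num)
  have hCD : C * D ≤ K ^ 2 * X := by
    have h2 : 0 ≤ D := (zero_le_one.trans h1X).trans (hsq.trans hD1)
    calc C * D ≤ (K * Real.sqrt X) * (K * Real.sqrt X) := mul_le_mul hC2 hD2 h2 (by positivity)
      _ = K ^ 2 * (Real.sqrt X * Real.sqrt X) := by ring
      _ = K ^ 2 * X := by rw [Real.mul_self_sqrt hXpos.le]
  have hCl : (K ^ 2 * X) ^ (2 / 5 : ℝ) ≤ C := by
    calc (K ^ 2 * X) ^ (2 / 5 : ℝ) ≤ (X ^ (11 / 10 : ℝ)) ^ (2 / 5 : ℝ) :=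
          Real.rpow_le_rpow (by positivity) hK2X (by norm_num)
      _ = X ^ (11 / 25 : ℝ) := by
          rw [← Real.rpow_mul hXpos.le]
          norm_num
      _ ≤ X ^ (9 / 20 : ℝ) := Real.rpow_le_rpow_of_exponent_le hX1 (by norm_num)
      _ ≤ C := hsq.trans hC1
  have hlog : Real.log (K ^ 2 * X) ≤ 11 / 10 * Real.log X := by
    rw [← Real.log_rpow hXpos]
    exact Real.log_le_log (by positivity) hK2X
  have hlog' : Real.log X ≤ Real.log (K ^ 2 * X) := Real.log_le_log hXpos hX'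
  obtain ⟨S, hS, hSc, hSs⟩ := h (K ^ 2 * X) (hX0.trans hX') C D hCl (h1X.trans (hsq.trans hD1)) hCD N (by linarith)
    (by linarith) f g ⟨hfm, hfb⟩ hgb T (hT.trans (by gcongr))
  refine ⟨S, hS, hSc.trans ?_, ?_⟩
  · calc (K ^ 2 * X) ^ (δ / 2) ≤ (X ^ (11 / 10 : ℝ)) ^ (δ / 2) :=
          Real.rpow_le_rpow (by positivity) hK2X (by positivity)
      _ = X ^ (11 / 10 * (δ / 2)) := by rw [← Real.rpow_mul hXpos.le]
      _ ≤ X ^ δ := Real.rpow_le_rpow_of_exponent_le hX1 (by linarith)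
  · calc ∑ k ∈ fr T \ S, ‖Ps f g C D (k / N)‖ ^ 2 ≤ ε / K ^ 4 * N * (K ^ 2 * X) ^ 2 := hSs
      _ = ε * N * X ^ 2 := by field_simp

open Pool.Agent.GaussMR in
/-- the sum over the shifts is an integral (cf. `disc`) -/
private theorem cs_disc (h : ℝ → ℝ) (hc : Continuous h) (N T : ℕ) (hN : 0 < N) :
    ∫ s in (0 : ℝ)..1, ∑ k ∈ fr T, h ((k + s) / N) = N * ∫ x in (-(T : ℝ) / N)..((T + 1) / N), h x := by
  have hN0 : (0 : ℝ) < N := by exact_mod_cast hN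
  have hInt : ∀ a b : ℝ, IntervalIntegrable h MeasureTheory.volume a b := fun a b => hc.intervalIntegrable a b
  let a : ℕ → ℝ := fun j => ((j : ℝ) - T) / N
  have h2 : ∑ k ∈ range (2 * T + 1), ∫ x in (a k)..(a (k + 1)), h x = ∫ x in (a 0)..(a (2 * T + 1)), h x :=
    intervalIntegral.sum_integral_adjacent_intervals (fun k _ => hInt _ _)
  have h3 : ∀ k : ℕ, ∫ x in (a k)..(a (k + 1)), h x = (1 / N) * ∫ s in (0:ℝ)..1, h ((((k : ℝ) - T) + s) / N) := by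
    intro k
    have h4 := intervalIntegral.integral_comp_mul_add (a := 0) (b := 1) h (c := 1 / (N : ℝ)) (by positivity) (((k : ℝ) - T) / N)
    have e1 : (fun s : ℝ => h ((((k : ℝ) - T) + s) / N)) = fun s => h (1 / (N : ℝ) * s + ((k : ℝ) - T) / N) := by
      funext s; congr 1; ring
    rw [e1, h4, smul_eq_mul]
    have e2 : 1 / (N : ℝ) * 0 + ((k : ℝ) - T) / N = a k := by simp only [a]; ring
    have e3 : 1 / (N : ℝ) * 1 + ((k : ℝ) - T) / N = a (k + 1) := by simp only [a]; push_cast; ring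
    rw [e2, e3]
    field_simp
  have h5 : ∫ x in (a 0)..(a (2 * T + 1)), h x = (1 / N) * ∫ s in (0:ℝ)..1, ∑ k ∈ range (2 * T + 1), h ((((k : ℝ) - T) + s) / N) := by
    rw [← h2, intervalIntegral.integral_finsetSum (fun k _ => (by
      refine Continuous.intervalIntegrable ?_ _ _
      exact hc.comp (by fun_prop)))]
    rw [mul_sum]
    exact sum_congr rfl fun k _ => h3 k
  have e0 : a 0 = -(T : ℝ) / N := by simp [a]
  have e1 : a (2 * T + 1) = ((T : ℝ) + 1) / N := by simp only [a]; push_cast; ring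
  rw [e0, e1] at h5
  have h6 : ∀ s : ℝ, ∑ k ∈ fr T, h ((k + s) / N) = ∑ k ∈ range (2 * T + 1), h ((((k : ℝ) - T) + s) / N) :=
    fun s => disc_sum T (fun x => h ((x + s) / N))
  simp_rw [h6]
  rw [h5]
  field_simp

open Pool.Agent.GaussMR in
/-- Parseval on the line and the mean value theorem (helper30) -/
theorem line_st (K : ℝ) (hK : 1 ≤ K) : ∃ C0 : ℝ, 0 < C0 ∧ ∀ X : ℝ, 1 ≤ X → ∀ f g : ℕ → ℂ, (∀ n, ‖f n‖ ≤ 1) → (∀ n, ‖g n‖ ≤ 1) →
    ∀ C D : ℝ, 1 ≤ C → C ≤ K * Real.sqrt X → 1 ≤ D → D ≤ K * Real.sqrt X → ∀ w T : ℝ, 0 < w → 1 ≤ T → T ≤ X →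
    ∫ τ, ‖Sg f g C D w τ‖ ^ 2 ≤ w ^ 2 * (∫ t in (-T)..T, ‖Ps f g C D t‖ ^ 2) + C0 * (X / T) ^ 2 := by
  obtain ⟨A, hA, h⟩ := SplM.arcS
  refine ⟨A * (9 * K ^ 4), by positivity, ?_⟩
  intro X hX f g hf hg C D hC1 hC2 hD1 hD2 w T hw hT1 hTX
  have hK0 : 0 < K := by linarith
  have hX0 : 0 < X := by linarith
  have hK2 : 1 ≤ K ^ 2 := one_le_pow₀ hK
  have hX' : X ≤ K ^ 2 * X := by nlinarith
  have hCD : C * D ≤ K ^ 2 * X := by
    calc C * D ≤ (K * Real.sqrt X) * (K * Real.sqrt X) := mul_le_mul hC2 hD2 (by linarith) (by positivity)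
      _ = K ^ 2 * (Real.sqrt X * Real.sqrt X) := by ring
      _ = K ^ 2 * X := by rw [Real.mul_self_sqrt hX0.le]
  set N : ℕ := ⌈Real.log (K ^ 2 * X) + w⌉₊ + 3 with hN
  have hN1 : Real.log (K ^ 2 * X) + w ≤ N := by
    rw [hN]
    push_cast
    have := Nat.le_ceil (Real.log (K ^ 2 * X) + w)
    linarith
  have hN3 : (3 : ℝ) ≤ N := by
    rw [hN]
    push_cast
    have : (0 : ℝ) ≤ (⌈Real.log (K ^ 2 * X) + w⌉₊ : ℝ) := Nat.cast_nonneg _
    linarith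
  have hN0 : (0 : ℝ) < N := by linarith
  have hNpos : 0 < N := by exact_mod_cast hN0
  have hTN : 3 ≤ T * N := by nlinarith
  set T' : ℕ := ⌊T * N⌋₊ - 1 with hT'
  have hfl3 : 3 ≤ ⌊T * N⌋₊ := Nat.le_floor (by exact_mod_cast hTN)
  have hT'1 : 1 ≤ T' := by omega
  have hT'e : (T' : ℝ) + 1 = ⌊T * N⌋₊ := by
    have : T' + 1 = ⌊T * N⌋₊ := by omega
    exact_mod_cast this
  have hfl := Nat.floor_le (show 0 ≤ T * N by positivity)
  have hfl2 := Nat.lt_floor_add_one (T * N)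
  have hT'u : (T' : ℝ) + 1 ≤ T * N := by rw [hT'e]; exact hfl
  have hT'l : T * N / 3 ≤ T' := by linarith
  have hT'0 : (0 : ℝ) < T' := by exact_mod_cast hT'1
  set I : ℝ := ∫ τ, ‖Sg f g C D w τ‖ ^ 2 with hI
  set B : ℝ := A * (9 * K ^ 4) * (X / T) ^ 2 with hB
  have hmain : ∀ s : ℝ, 0 ≤ s → s ≤ 1 → I ≤ w ^ 2 / N * ∑ k ∈ fr T', ‖Ps f g C D ((k + s) / N)‖ ^ 2 + B := by
    intro s hs0 hs1
    have h1 := h (fun z => f z.1 * g z.2) (fun z => by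
      rw [norm_mul]
      exact mul_le_one₀ (hf _) (norm_nonneg _) (hg _)) C D (K ^ 2 * X) w s N T' (hX.trans hX') (by linarith) (by linarith)
      hCD (by linarith) hNpos hw (by rw [abs_le]; constructor <;> linarith) hT'1 (by nlinarith)
    refine h1.trans (add_le_add le_rfl ?_)
    rw [hB, mul_assoc A]
    refine mul_le_mul_of_nonneg_left ?_ hA.le
    have h2 : N * (K ^ 2 * X) / T' ≤ 3 * K ^ 2 * (X / T) := by
      rw [div_le_iff₀ hT'0]
      have h3 : 3 * K ^ 2 * (X / T) * (T * N / 3) = N * (K ^ 2 * X) := by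
        field_simp
      rw [← h3]
      gcongr
    calc (N * (K ^ 2 * X) / T') ^ 2 ≤ (3 * K ^ 2 * (X / T)) ^ 2 := by gcongr
      _ = 9 * K ^ 4 * (X / T) ^ 2 := by ring
  have hc : Continuous (fun t => ‖Ps f g C D t‖ ^ 2) := (ps_cont f g C D).norm.pow 2
  have h4 : I ≤ ∫ s in (0 : ℝ)..1, (w ^ 2 / N * ∑ k ∈ fr T', ‖Ps f g C D ((k + s) / N)‖ ^ 2 + B) := by
    have h5 : ∫ s in (0 : ℝ)..1, I = I := by simp
    rw [← h5]
    refine intervalIntegral.integral_mono_on (by norm_num) (by simp) ?_ fun s hs => hmain s hs.1 hs.2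
    refine Continuous.intervalIntegrable ?_ _ _
    refine Continuous.add (Continuous.mul continuous_const (continuous_finsetSum _ fun k _ => ?_)) continuous_const
    exact hc.comp (by fun_prop)
  have h6 : ∫ s in (0 : ℝ)..1, (w ^ 2 / N * ∑ k ∈ fr T', ‖Ps f g C D ((k + s) / N)‖ ^ 2 + B) =
      w ^ 2 / N * (∫ s in (0 : ℝ)..1, ∑ k ∈ fr T', ‖Ps f g C D ((k + s) / N)‖ ^ 2) + B := by
    rw [intervalIntegral.integral_add]
    · rw [intervalIntegral.integral_const_mul]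
      simp
    · refine Continuous.intervalIntegrable ?_ _ _
      refine Continuous.mul continuous_const (continuous_finsetSum _ fun k _ => ?_)
      exact hc.comp (by fun_prop)
    · simp
  have h7 := cs_disc (fun t => ‖Ps f g C D t‖ ^ 2) hc N T' hNpos
  have h8 : ∫ x in (-(T' : ℝ) / N)..((T' + 1) / N), ‖Ps f g C D x‖ ^ 2 ≤ ∫ t in (-T)..T, ‖Ps f g C D t‖ ^ 2 := by
    refine intervalIntegral.integral_mono_interval ?_ ?_ ?_
      (Filter.Eventually.of_forall fun t => by positivity) (hc.intervalIntegrable _ _)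
    · rw [le_div_iff₀ hN0]
      linarith
    · rw [div_le_div_iff_of_pos_right hN0]
      linarith
    · rw [div_le_iff₀ hN0]
      exact hT'u
  calc I ≤ w ^ 2 / N * (∫ s in (0 : ℝ)..1, ∑ k ∈ fr T', ‖Ps f g C D ((k + s) / N)‖ ^ 2) + B := by
        rw [← h6]; exact h4
    _ = w ^ 2 * (∫ x in (-(T' : ℝ) / N)..((T' + 1) / N), ‖Ps f g C D x‖ ^ 2) + B := by
        rw [h7]
        field_simp
    _ ≤ w ^ 2 * (∫ t in (-T)..T, ‖Ps f g C D t‖ ^ 2) + B := by gcongr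

end Pool.Agent.SplI
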