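import Pool.Agent.Lib_MP_92ef0c_spi.ZSumB

/-!
# Piece I-HM: large values without logarithm
-/

set_option autoImplicit false

namespace Pool.Agent.SplI

open Finset

/-- Abel summation with the weights `M + 1 - n` -/
private theorem hm_abel (a : ℕ → ℂ) (M : ℕ) :
    ∑ n ∈ Icc 1 M, ((M + 1 - n : ℝ) : ℂ) * a n = ∑ m ∈ Icc 1 M, ∑ n ∈ Icc 1 m, a n := by
  induction M with
  | zero => simp
  | succ M ih =>
    rw [Finset.sum_Icc_succ_top (by omega), Finset.sum_Icc_succ_top (by omega), ← ih,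
      Finset.sum_Icc_succ_top (f := a) (by omega)]
    rw [show ∑ n ∈ Icc 1 M, ((((M + 1 : ℕ) : ℝ) + 1 - n : ℝ) : ℂ) * a n =
      ∑ n ∈ Icc 1 M, (((M + 1 - n : ℝ) : ℂ) * a n + a n) from
        Finset.sum_congr rfl fun n _ => by push_cast; ring]
    rw [Finset.sum_add_distrib]
    push_cast
    ring

/-- `m ^ (1 + iu)` and the increment of the primitive -/
private theorem hm_step (u : ℝ) (hu : 1 ≤ |u|) (m : ℕ) :
    ‖((m + 1 : ℕ) : ℂ) ^ (1 + (u : ℂ) * Complex.I) - (((m + 1 : ℕ) : ℂ) ^ (2 + (u : ℂ) * Complex.I) -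
      (m : ℂ) ^ (2 + (u : ℂ) * Complex.I)) / (2 + (u : ℂ) * Complex.I)‖ ≤
        2 * ‖1 + (u : ℂ) * Complex.I‖ := by
  have hn1 : 1 ≤ ‖1 + (u : ℂ) * Complex.I‖ := by
    have h := Complex.abs_im_le_norm (1 + (u : ℂ) * Complex.I)
    simp at h
    linarith
  have hn2 : 1 ≤ ‖2 + (u : ℂ) * Complex.I‖ := by
    have h := Complex.abs_im_le_norm (2 + (u : ℂ) * Complex.I)
    simp at h
    linarith
  have h2ne : (2 + (u : ℂ) * Complex.I) ≠ 0 := by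
    intro h
    rw [h, norm_zero] at hn2
    linarith
  rcases Nat.eq_zero_or_pos m with rfl | hm
  · simp only [Nat.cast_zero, zero_add, Nat.cast_one, Complex.one_cpow, Complex.zero_cpow h2ne, sub_zero]
    calc ‖(1 : ℂ) - 1 / (2 + (u : ℂ) * Complex.I)‖ ≤ ‖(1 : ℂ)‖ + ‖1 / (2 + (u : ℂ) * Complex.I)‖ := norm_sub_le _ _
      _ ≤ 1 + 1 := by
        rw [norm_one, norm_div, norm_one]
        gcongr
        rw [div_le_one (by linarith)]
        exact hn2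
      _ ≤ 2 * ‖1 + (u : ℂ) * Complex.I‖ := by linarith
  · have hm0 : (0 : ℝ) < m := by exact_mod_cast hm
    set s : ℂ := 1 + (u : ℂ) * Complex.I with hs
    have hs1 : s ≠ -1 := by
      intro h
      apply h2ne
      have : (2 + (u : ℂ) * Complex.I) = s + 1 := by rw [hs]; ring
      rw [this, h]
      ring
    have hs2 : (2 + (u : ℂ) * Complex.I) = s + 1 := by rw [hs]; ring
    have hs0 : (u : ℂ) * Complex.I ≠ -1 := by
      intro h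
      have h1 : s = 0 := by rw [hs, h]; ring
      rw [h1, norm_zero] at hn1
      linarith
    have hsne : s ≠ 0 := by
      intro h
      rw [h, norm_zero] at hn1
      linarith
    -- the derivative of x ^ s
    have hd1 : ∀ x : ℝ, 0 < x → HasDerivAt (fun y : ℝ => (y : ℂ) ^ s) (s * (x : ℂ) ^ ((u : ℂ) * Complex.I)) x := by
      intro x hx
      have h := hasDerivAt_ofReal_cpow_const (x := x) hx.ne' hsne
      have h3 : s - 1 = (u : ℂ) * Complex.I := by rw [hs]; ring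
      rw [h3] at h
      exact h
    have hlip : ∀ x : ℝ, (m : ℝ) ≤ x → x ≤ m + 1 → ‖(x : ℂ) ^ s - (((m : ℝ) + 1 : ℝ) : ℂ) ^ s‖ ≤ ‖s‖ := by
      intro x hx1 hx2
      have h := (convex_Icc (m : ℝ) (m + 1)).norm_image_sub_le_of_norm_hasDerivWithin_le
        (f := fun y : ℝ => (y : ℂ) ^ s) (f' := fun x => s * (x : ℂ) ^ ((u : ℂ) * Complex.I)) (C := ‖s‖)
        (x := (m : ℝ) + 1) (y := x)
        (fun y hy => (hd1 y (by linarith [hy.1])).hasDerivWithinAt)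
        (fun y hy => by
          rw [norm_mul, Complex.norm_cpow_eq_rpow_re_of_pos (by linarith [hy.1])]
          simp)
        ⟨by linarith, le_rfl⟩ ⟨hx1, hx2⟩
      refine h.trans ?_
      have h5 : ‖x - ((m : ℝ) + 1)‖ ≤ 1 := by
        rw [Real.norm_eq_abs, abs_le]
        constructor <;> linarith
      calc ‖s‖ * ‖x - ((m : ℝ) + 1)‖ ≤ ‖s‖ * 1 := by gcongr
        _ = ‖s‖ := mul_one _
    have hs1' : s + 1 ≠ 0 := by rw [← hs2]; exact h2ne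
    have hd2 : ∀ x : ℝ, 0 < x → HasDerivAt (fun y : ℝ => (y : ℂ) ^ (s + 1) / (s + 1) - (y : ℂ) * (((m : ℝ) + 1 : ℝ) : ℂ) ^ s)
        ((x : ℂ) ^ s - (((m : ℝ) + 1 : ℝ) : ℂ) ^ s) x := by
      intro x hx
      have h := (hasDerivAt_ofReal_cpow_const (x := x) hx.ne' hs1').div_const (s + 1)
      have h4 : (s + 1) * (x : ℂ) ^ (s + 1 - 1) / (s + 1) = (x : ℂ) ^ s := by
        rw [add_sub_cancel_right]
        field_simp
      rw [h4] at h
      have h5 : HasDerivAt (fun y : ℝ => (y : ℂ) * (((m : ℝ) + 1 : ℝ) : ℂ) ^ s) (1 * (((m : ℝ) + 1 : ℝ) : ℂ) ^ s) x :=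
        (Complex.ofRealCLM.hasDerivAt (x := x)).mul_const _
      rw [one_mul] at h5
      exact h.sub h5
    have hmain := (convex_Icc (m : ℝ) (m + 1)).norm_image_sub_le_of_norm_hasDerivWithin_le
        (f := fun y : ℝ => (y : ℂ) ^ (s + 1) / (s + 1) - (y : ℂ) * (((m : ℝ) + 1 : ℝ) : ℂ) ^ s)
        (f' := fun x => (x : ℂ) ^ s - (((m : ℝ) + 1 : ℝ) : ℂ) ^ s) (C := ‖s‖)
        (x := (m : ℝ)) (y := (m : ℝ) + 1)
        (fun y hy => (hd2 y (by linarith [hy.1])).hasDerivWithinAt)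
        (fun y hy => hlip y hy.1 hy.2)
        ⟨le_rfl, by linarith⟩ ⟨by linarith, le_rfl⟩
    rw [hs2]
    have h6 : ‖(m : ℝ) + 1 - (m : ℝ)‖ = 1 := by
      rw [add_sub_cancel_left, norm_one]
    rw [h6, mul_one] at hmain
    rw [← norm_neg] at hmain
    have h7 : -((fun y : ℝ => (y : ℂ) ^ (s + 1) / (s + 1) - (y : ℂ) * (((m : ℝ) + 1 : ℝ) : ℂ) ^ s) ((m : ℝ) + 1) -
        (fun y : ℝ => (y : ℂ) ^ (s + 1) / (s + 1) - (y : ℂ) * (((m : ℝ) + 1 : ℝ) : ℂ) ^ s) (m : ℝ)) =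
        ((m + 1 : ℕ) : ℂ) ^ s - (((m + 1 : ℕ) : ℂ) ^ (s + 1) - (m : ℂ) ^ (s + 1)) / (s + 1) := by
      simp only
      push_cast
      ring
    rw [h7] at hmain
    linarith [norm_nonneg s]

private theorem hm_main (u : ℝ) (hu : 1 ≤ |u|) (M : ℕ) :
    ‖∑ m ∈ Icc 1 M, (m : ℂ) ^ (1 + (u : ℂ) * Complex.I) -
      (M : ℂ) ^ (2 + (u : ℂ) * Complex.I) / (2 + (u : ℂ) * Complex.I)‖ ≤
        2 * ‖1 + (u : ℂ) * Complex.I‖ * M := by
  have hn2 : 1 ≤ ‖2 + (u : ℂ) * Complex.I‖ := by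
    have h := Complex.abs_im_le_norm (2 + (u : ℂ) * Complex.I)
    simp at h
    linarith
  have h2ne : (2 + (u : ℂ) * Complex.I) ≠ 0 := by
    intro h
    rw [h, norm_zero] at hn2
    linarith
  induction M with
  | zero => simp [Complex.zero_cpow h2ne]
  | succ M ih =>
    rw [Finset.sum_Icc_succ_top (by omega)]
    have h1 : ∑ m ∈ Icc 1 M, (m : ℂ) ^ (1 + (u : ℂ) * Complex.I) + ((M + 1 : ℕ) : ℂ) ^ (1 + (u : ℂ) * Complex.I) -
        ((M + 1 : ℕ) : ℂ) ^ (2 + (u : ℂ) * Complex.I) / (2 + (u : ℂ) * Complex.I) =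
        (∑ m ∈ Icc 1 M, (m : ℂ) ^ (1 + (u : ℂ) * Complex.I) -
          (M : ℂ) ^ (2 + (u : ℂ) * Complex.I) / (2 + (u : ℂ) * Complex.I)) +
        (((M + 1 : ℕ) : ℂ) ^ (1 + (u : ℂ) * Complex.I) - (((M + 1 : ℕ) : ℂ) ^ (2 + (u : ℂ) * Complex.I) -
          (M : ℂ) ^ (2 + (u : ℂ) * Complex.I)) / (2 + (u : ℂ) * Complex.I)) := by
      ring
    rw [h1]
    refine (norm_add_le _ _).trans ?_
    have h2 := hm_step u hu M
    push_cast at ih h2 ⊢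
    nlinarith

/-- The smooth zeta sum: `∑_(n ≤ 2N) (1 - n/(2N)) n^(iu) = (1/(2N)) ∫_0^(2N) (∑_(n ≤ x) n^(iu)) dx` and `zs_full`: main term `(2N)^(1+iu) / ((1+iu)(2+iu))`. -/
theorem smooth_zs (A : ℝ) (hA : 1 ≤ A) : ∃ η C : ℝ, 0 < η ∧ 0 < C ∧ ∀ u N : ℝ, 1 ≤ N → 1 ≤ |u| → |u| ≤ N ^ A →
    ‖∑ n ∈ Icc 1 ⌊2 * N⌋₊, (((1 - n / (2 * N) : ℝ)) : ℂ) * et (-u) n‖ ≤ C * (N / u ^ 2 + N ^ (1 - η)) := by
  obtain ⟨η, C, hη, hη2, hC, hz⟩ := zs_full (2 * A) (by linarith)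
  refine ⟨η, 2 * C + 10, hη, by linarith, fun u N hN hu huN => ?_⟩
  have hN0 : 0 < N := by linarith
  set M := ⌊2 * N⌋₊ with hM
  have hM1 : (M : ℝ) ≤ 2 * N := Nat.floor_le (by linarith)
  have hM2 : 2 * N < M + 1 := Nat.lt_floor_add_one _
  have hM0 : (0 : ℝ) ≤ M := Nat.cast_nonneg _
  have hMpos : 0 < M := by
    rw [hM]
    exact Nat.floor_pos.2 (by linarith)
  set s : ℂ := 1 + (u : ℂ) * Complex.I with hs
  have hsu : |u| ≤ ‖s‖ := by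
    have h := Complex.abs_im_le_norm s
    rw [hs] at h
    simpa using h
  have hsu2 : |u| ≤ ‖2 + (u : ℂ) * Complex.I‖ := by
    have h := Complex.abs_im_le_norm (2 + (u : ℂ) * Complex.I)
    simpa using h
  have hs1 : 1 ≤ ‖s‖ := hu.trans hsu
  have hsne : s ≠ 0 := by
    intro h
    rw [h, norm_zero] at hs1
    linarith
  have hnorm : ∀ m : ℕ, 1 ≤ m → ‖(m : ℂ) ^ s‖ = m := by
    intro m hm
    rw [Complex.norm_natCast_cpow_of_pos hm]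
    have : s.re = 1 := by rw [hs]; simp
    rw [this, Real.rpow_one]
  have hNη : 1 ≤ N ^ (1 - η) := Real.one_le_rpow hN (by linarith)
  have hS : ∀ m : ℕ, ‖∑ n ∈ Icc 1 m, et (-u) n‖ ≤ m := by
    intro m
    calc ‖∑ n ∈ Icc 1 m, et (-u) n‖ ≤ ∑ n ∈ Icc 1 m, ‖et (-u) n‖ := norm_sum_le _ _
      _ = m := by simp [norm_et]
  -- pointwise error
  have hE : ∀ m ∈ Icc 1 M, ‖∑ n ∈ Icc 1 m, et (-u) n - (m : ℂ) ^ s / s‖ ≤ (2 * C + 2) * N ^ (1 - η) := by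
    intro m hm
    obtain ⟨hm1, hm2⟩ := Finset.mem_Icc.1 hm
    have hm1' : (1 : ℝ) ≤ m := by exact_mod_cast hm1
    have hm2' : (m : ℝ) ≤ M := by exact_mod_cast hm2
    by_cases hcase : |u| ≤ (m : ℝ) ^ (2 * A)
    · have h := hz u m hm1' hu hcase
      rw [Nat.floor_natCast, Complex.ofReal_natCast] at h
      refine h.trans ?_
      have h1 : (m : ℝ) ^ (1 - η) ≤ 2 * N ^ (1 - η) := by
        calc (m : ℝ) ^ (1 - η) ≤ (2 * N) ^ (1 - η) :=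
              Real.rpow_le_rpow (by linarith) (by linarith) (by linarith)
          _ = 2 ^ (1 - η) * N ^ (1 - η) := Real.mul_rpow (by norm_num) hN0.le
          _ ≤ 2 ^ (1 : ℝ) * N ^ (1 - η) := by
              gcongr
              · norm_num
              · linarith
          _ = 2 * N ^ (1 - η) := by rw [Real.rpow_one]
      nlinarith
    · rw [not_le] at hcase
      have h1 : (m : ℝ) ^ 2 < N := by
        by_contra hcon
        rw [not_lt] at hcon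
        have h2 : N ^ A ≤ ((m : ℝ) ^ 2) ^ A := Real.rpow_le_rpow hN0.le hcon (by linarith)
        have h3 : ((m : ℝ) ^ 2) ^ A = (m : ℝ) ^ (2 * A) := by
          rw [Real.rpow_mul (by linarith), Real.rpow_two]
        rw [h3] at h2
        linarith
      have h2 : (m : ℝ) ≤ N ^ (1 - η) := by
        have h3 : (m : ℝ) ≤ N ^ (1 / 2 : ℝ) := by
          rw [← Real.sqrt_eq_rpow]
          exact Real.le_sqrt_of_sq_le h1.le
        exact h3.trans (Real.rpow_le_rpow_of_exponent_le hN (by linarith))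
      have h4 : ‖(m : ℂ) ^ s / s‖ ≤ m := by
        rw [norm_div, hnorm m hm1]
        exact div_le_self (by linarith) hs1
      refine (norm_sub_le _ _).trans ?_
      have h5 := hS m
      nlinarith
  -- the identity
  have hid : ∑ n ∈ Icc 1 M, (((1 - n / (2 * N) : ℝ)) : ℂ) * et (-u) n =
      (((2 * N : ℝ)) : ℂ)⁻¹ * ((∑ m ∈ Icc 1 M, (m : ℂ) ^ s) / s +
        ∑ m ∈ Icc 1 M, (∑ n ∈ Icc 1 m, et (-u) n - (m : ℂ) ^ s / s) +
        ((2 * N - M - 1 : ℝ) : ℂ) * ∑ n ∈ Icc 1 M, et (-u) n) := by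
    rw [Finset.sum_sub_distrib, ← Finset.sum_div, ← hm_abel]
    have hNc : ((2 * N : ℝ) : ℂ) ≠ 0 := by
      rw [Complex.ofReal_ne_zero]
      positivity
    rw [show (∑ m ∈ Icc 1 M, (m : ℂ) ^ s) / s + (∑ n ∈ Icc 1 M, ((M + 1 - n : ℝ) : ℂ) * et (-u) n -
        (∑ m ∈ Icc 1 M, (m : ℂ) ^ s) / s) + ((2 * N - M - 1 : ℝ) : ℂ) * ∑ n ∈ Icc 1 M, et (-u) n =
        ∑ n ∈ Icc 1 M, ((M + 1 - n : ℝ) : ℂ) * et (-u) n + ((2 * N - M - 1 : ℝ) : ℂ) * ∑ n ∈ Icc 1 M, et (-u) n by ring,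
      Finset.mul_sum (Icc 1 M) (fun n => et (-u) n), ← Finset.sum_add_distrib, Finset.mul_sum]
    refine Finset.sum_congr rfl fun n _ => ?_
    have h1 : (((1 - n / (2 * N) : ℝ)) : ℂ) = (((2 * N : ℝ)) : ℂ)⁻¹ * (((M + 1 - n : ℝ) : ℂ) + ((2 * N - M - 1 : ℝ) : ℂ)) := by
      rw [← Complex.ofReal_add, ← Complex.ofReal_inv, ← Complex.ofReal_mul]
      congr 1
      field_simp
      ring
    rw [h1]
    ring
  rw [hid, norm_mul, norm_inv, Complex.norm_real, Real.norm_of_nonneg (by linarith : 0 ≤ 2 * N)]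
  -- main term
  have hmain : ‖(∑ m ∈ Icc 1 M, (m : ℂ) ^ s) / s‖ ≤ 4 * N ^ 2 / u ^ 2 + 4 * N := by
    rw [norm_div]
    have h1 := hm_main u hu M
    rw [← hs] at h1
    have h2 : ‖(M : ℂ) ^ (2 + (u : ℂ) * Complex.I) / (2 + (u : ℂ) * Complex.I)‖ ≤ 4 * N ^ 2 / |u| := by
      rw [norm_div, Complex.norm_natCast_cpow_of_pos hMpos]
      have h3 : (2 + (u : ℂ) * Complex.I).re = 2 := by simp
      rw [h3, Real.rpow_two]
      have h4 : (M : ℝ) ^ 2 ≤ 4 * N ^ 2 := by nlinarith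
      gcongr
    have h5 : ‖∑ m ∈ Icc 1 M, (m : ℂ) ^ s‖ ≤ 4 * N ^ 2 / |u| + 2 * ‖s‖ * M := by
      have h6 : ∑ m ∈ Icc 1 M, (m : ℂ) ^ s = (M : ℂ) ^ (2 + (u : ℂ) * Complex.I) / (2 + (u : ℂ) * Complex.I) +
          (∑ m ∈ Icc 1 M, (m : ℂ) ^ s - (M : ℂ) ^ (2 + (u : ℂ) * Complex.I) / (2 + (u : ℂ) * Complex.I)) := by ring
      rw [h6]
      exact (norm_add_le _ _).trans (add_le_add h2 h1)
    have hu0 : 0 < |u| := by linarith
    calc ‖∑ m ∈ Icc 1 M, (m : ℂ) ^ s‖ / ‖s‖ ≤ (4 * N ^ 2 / |u| + 2 * ‖s‖ * M) / ‖s‖ := by gcongr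
      _ = 4 * N ^ 2 / |u| / ‖s‖ + 2 * M := by
          rw [add_div]
          congr 1
          field_simp
      _ ≤ 4 * N ^ 2 / |u| / |u| + 4 * N := by
          refine add_le_add ?_ (by linarith)
          gcongr
      _ = 4 * N ^ 2 / u ^ 2 + 4 * N := by
          rw [div_div, ← sq, sq_abs]
  have herr : ‖∑ m ∈ Icc 1 M, (∑ n ∈ Icc 1 m, et (-u) n - (m : ℂ) ^ s / s)‖ ≤ 2 * N * ((2 * C + 2) * N ^ (1 - η)) := by
    refine (norm_sum_le _ _).trans ?_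
    calc ∑ m ∈ Icc 1 M, ‖∑ n ∈ Icc 1 m, et (-u) n - (m : ℂ) ^ s / s‖ ≤ ∑ m ∈ Icc 1 M, (2 * C + 2) * N ^ (1 - η) :=
          Finset.sum_le_sum hE
      _ = M * ((2 * C + 2) * N ^ (1 - η)) := by simp
      _ ≤ 2 * N * ((2 * C + 2) * N ^ (1 - η)) := by gcongr
  have hlast : ‖((2 * N - M - 1 : ℝ) : ℂ) * ∑ n ∈ Icc 1 M, et (-u) n‖ ≤ 2 * N := by
    rw [norm_mul, Complex.norm_real]
    have h1 : ‖2 * N - M - 1‖ ≤ 1 := by
      rw [Real.norm_eq_abs, abs_le]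
      constructor <;> linarith
    have h2 := hS M
    calc ‖2 * N - M - 1‖ * ‖∑ n ∈ Icc 1 M, et (-u) n‖ ≤ 1 * (2 * N) := by
          gcongr
          linarith
      _ = 2 * N := one_mul _
  have htot : ‖(∑ m ∈ Icc 1 M, (m : ℂ) ^ s) / s +
        ∑ m ∈ Icc 1 M, (∑ n ∈ Icc 1 m, et (-u) n - (m : ℂ) ^ s / s) +
        ((2 * N - M - 1 : ℝ) : ℂ) * ∑ n ∈ Icc 1 M, et (-u) n‖ ≤
      (4 * N ^ 2 / u ^ 2 + 4 * N) + 2 * N * ((2 * C + 2) * N ^ (1 - η)) + 2 * N :=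
    (norm_add_le _ _).trans (add_le_add ((norm_add_le _ _).trans (add_le_add hmain herr)) hlast)
  calc (2 * N)⁻¹ * _ ≤ (2 * N)⁻¹ * ((4 * N ^ 2 / u ^ 2 + 4 * N) + 2 * N * ((2 * C + 2) * N ^ (1 - η)) + 2 * N) := by
        gcongr
    _ = 2 * (N / u ^ 2) + 3 + (2 * C + 2) * N ^ (1 - η) := by
        field_simp
        ring
    _ ≤ (2 * C + 10) * (N / u ^ 2 + N ^ (1 - η)) := by
        have h1 : 0 ≤ N / u ^ 2 := by positivity
        nlinarith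

/-- one-sided spaced sum -/
private theorem hm_sp (S : Finset ℝ) (f : ℝ → ℝ) (h1 : ∀ x ∈ S, 1 ≤ f x)
    (h2 : ∀ x ∈ S, ∀ y ∈ S, x ≠ y → 1 ≤ |f x - f y|) : ∑ x ∈ S, 1 / (f x) ^ 2 ≤ 2 := by
  have hinj : Set.InjOn (fun x => ⌊f x⌋₊) (S : Set ℝ) := by
    intro x hx y hy hxy
    by_contra hne
    have h := h2 x hx y hy hne
    have a1 := Nat.floor_le (show 0 ≤ f x by linarith [h1 x hx])
    have a2 := Nat.lt_floor_add_one (f x)
    have a3 := Nat.floor_le (show 0 ≤ f y by linarith [h1 y hy])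
    have a4 := Nat.lt_floor_add_one (f y)
    simp only at hxy
    rw [hxy] at a1 a2
    rcases abs_cases (f x - f y) with ⟨h5, _⟩ | ⟨h5, _⟩ <;> linarith
  calc ∑ x ∈ S, 1 / (f x) ^ 2 ≤ ∑ x ∈ S, ((⌊f x⌋₊ : ℝ) ^ 2)⁻¹ := by
        refine Finset.sum_le_sum fun x hx => ?_
        have hf := h1 x hx
        have h3 : 1 ≤ ⌊f x⌋₊ := Nat.le_floor (by simpa using hf)
        have h3' : (1 : ℝ) ≤ (⌊f x⌋₊ : ℝ) := by exact_mod_cast h3
        rw [one_div]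
        have h4 := Nat.floor_le (show 0 ≤ f x by linarith)
        exact inv_anti₀ (by positivity) (by gcongr)
    _ = ∑ k ∈ S.image (fun x => ⌊f x⌋₊), ((k : ℝ) ^ 2)⁻¹ := by
        rw [Finset.sum_image]
        exact hinj
    _ ≤ ∑ k ∈ Ioo 0 ((S.image (fun x => ⌊f x⌋₊)).sup id + 1), ((k : ℝ) ^ 2)⁻¹ := by
        apply Finset.sum_le_sum_of_subset_of_nonneg
        · intro k hk
          have hk2 := Finset.le_sup (f := id) hk
          obtain ⟨x, hx, rfl⟩ := Finset.mem_image.1 hk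
          have h3 : 1 ≤ ⌊f x⌋₊ := Nat.le_floor (by simpa using h1 x hx)
          rw [Finset.mem_Ioo]
          simp only [id] at hk2
          omega
        · intros; positivity
    _ ≤ 2 := by
        have := sum_Ioo_inv_sq_le (α := ℝ) 0 ((S.image (fun x => ⌊f x⌋₊)).sup id + 1)
        simpa using this

/-- the spaced sum -/
private theorem hm_sp2 (S : Finset ℝ) (hS : ∀ t ∈ S, ∀ t' ∈ S, t ≠ t' → 1 ≤ |t - t'|) (t : ℝ) (ht : t ∈ S) :
    ∑ t' ∈ S.erase t, 1 / (t' - t) ^ 2 ≤ 4 := by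
  have h0 : ∑ t' ∈ S.erase t, 1 / (t' - t) ^ 2 =
      ∑ t' ∈ (S.erase t).filter (fun t' => t < t'), 1 / (t' - t) ^ 2 +
      ∑ t' ∈ (S.erase t).filter (fun t' => ¬ t < t'), 1 / (t - t') ^ 2 := by
    rw [← Finset.sum_filter_add_sum_filter_not (S.erase t) (fun t' => t < t')]
    congr 1
    refine Finset.sum_congr rfl fun t' _ => ?_
    rw [← neg_sub t t', neg_sq]
  rw [h0]
  have h1 := hm_sp ((S.erase t).filter (fun t' => t < t')) (fun t' => t' - t)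
    (fun x hx => by
      obtain ⟨hx1, hx2⟩ := Finset.mem_filter.1 hx
      obtain ⟨hx3, hx4⟩ := Finset.mem_erase.1 hx1
      have h := hS x hx4 t ht hx3
      rw [abs_of_pos (by linarith)] at h
      exact h)
    (fun x hx y hy hxy => by
      have h := hS x (Finset.mem_of_mem_erase (Finset.mem_filter.1 hx).1) y
        (Finset.mem_of_mem_erase (Finset.mem_filter.1 hy).1) hxy
      simpa using h)
  have h2 := hm_sp ((S.erase t).filter (fun t' => ¬ t < t')) (fun t' => t - t')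
    (fun x hx => by
      obtain ⟨hx1, hx2⟩ := Finset.mem_filter.1 hx
      obtain ⟨hx3, hx4⟩ := Finset.mem_erase.1 hx1
      have h := hS t ht x hx4 (Ne.symm hx3)
      rw [abs_of_nonneg (by linarith)] at h
      exact h)
    (fun x hx y hy hxy => by
      have h := hS x (Finset.mem_of_mem_erase (Finset.mem_filter.1 hx).1) y
        (Finset.mem_of_mem_erase (Finset.mem_filter.1 hy).1) hxy
      rw [abs_sub_comm] at h
      simpa using h)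
  linarith

/-- duality -/
private theorem hm_dual (S : Finset ℝ) (T : Finset ℕ) {Δ : ℝ} (hΔ : 0 ≤ Δ)
    (h : ∀ b : ℝ → ℂ, ∑ n ∈ T, ‖∑ t ∈ S, b t * et t n‖ ^ 2 ≤ Δ * ∑ t ∈ S, ‖b t‖ ^ 2) (a : ℕ → ℂ) :
    ∑ t ∈ S, ‖∑ n ∈ T, a n * et t n‖ ^ 2 ≤ Δ * ∑ n ∈ T, ‖a n‖ ^ 2 := by
  set X := ∑ t ∈ S, ‖∑ n ∈ T, a n * et t n‖ ^ 2 with hX
  set U := ∑ n ∈ T, ‖a n‖ ^ 2 with hU
  have hX0 : 0 ≤ X := Finset.sum_nonneg fun k _ => by positivity
  have hU0 : 0 ≤ U := Finset.sum_nonneg fun k _ => by positivity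
  set b : ℝ → ℂ := fun t => (starRingEnd ℂ) (∑ n ∈ T, a n * et t n) with hb
  have h1 : (X : ℂ) = ∑ n ∈ T, a n * ∑ t ∈ S, b t * et t n := by
    rw [hX, Complex.ofReal_sum]
    simp_rw [Finset.mul_sum]
    rw [Finset.sum_comm]
    refine Finset.sum_congr rfl fun k _ => ?_
    rw [← Complex.normSq_eq_norm_sq, ← Complex.mul_conj, Finset.sum_mul]
    refine Finset.sum_congr rfl fun z _ => ?_
    ring
  have h2 : X ≤ ∑ n ∈ T, ‖a n‖ * ‖∑ t ∈ S, b t * et t n‖ := by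
    have h3 : X = ‖(X : ℂ)‖ := by rw [Complex.norm_real, Real.norm_of_nonneg hX0]
    rw [h3, h1]
    refine (norm_sum_le _ _).trans (Finset.sum_le_sum fun z _ => ?_)
    rw [norm_mul]
  have h3 : (∑ n ∈ T, ‖a n‖ * ‖∑ t ∈ S, b t * et t n‖) ^ 2 ≤
      U * ∑ n ∈ T, ‖∑ t ∈ S, b t * et t n‖ ^ 2 := Finset.sum_mul_sq_le_sq_mul_sq _ _ _
  have h4 : ∑ t ∈ S, ‖b t‖ ^ 2 = X := by
    rw [hX]
    refine Finset.sum_congr rfl fun k _ => ?_
    rw [hb]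
    simp only
    rw [Complex.norm_conj]
  have h5 := h b
  rw [h4] at h5
  have h6 : X ^ 2 ≤ U * (Δ * X) :=
    (pow_le_pow_left₀ hX0 h2 2).trans (h3.trans (mul_le_mul_of_nonneg_left h5 hU0))
  rcases hX0.eq_or_lt with h7 | h7
  · rw [← h7]; positivity
  · have h8 : X * X ≤ (Δ * U) * X := by nlinarith
    exact le_of_mul_le_mul_right h8 h7

private theorem hm_conj_et (t : ℝ) (n : ℕ) : (starRingEnd ℂ) (et t n) = et (-t) n := by
  unfold et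
  rw [← Complex.exp_conj]
  congr 1
  rw [map_mul, map_neg, Complex.conj_ofReal, Complex.conj_I, neg_mul t, Complex.ofReal_neg]
  ring

/-- expanding the weighted square -/
private theorem hm_expand (T : Finset ℕ) (w : ℕ → ℝ) (S : Finset ℝ) (b : ℝ → ℂ) :
    ((∑ n ∈ T, w n * ‖∑ t ∈ S, b t * et t n‖ ^ 2 : ℝ) : ℂ) =
      ∑ t ∈ S, ∑ t' ∈ S, b t * (starRingEnd ℂ) (b t') * ∑ n ∈ T, (w n : ℂ) * et (-(t' - t)) n := by
  have h1 : ∀ n ∈ T, ((w n * ‖∑ t ∈ S, b t * et t n‖ ^ 2 : ℝ) : ℂ) =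
      ∑ t ∈ S, ∑ t' ∈ S, b t * (starRingEnd ℂ) (b t') * ((w n : ℂ) * et (-(t' - t)) n) := by
    intro n _
    rw [Complex.ofReal_mul, ← Complex.normSq_eq_norm_sq, ← Complex.mul_conj, map_sum, Finset.sum_mul_sum,
      Finset.mul_sum]
    refine Finset.sum_congr rfl fun t _ => ?_
    rw [Finset.mul_sum]
    refine Finset.sum_congr rfl fun t' _ => ?_
    rw [map_mul, hm_conj_et, neg_sub, sub_eq_add_neg, et_add]
    ring
  rw [Complex.ofReal_sum, Finset.sum_congr rfl h1, Finset.sum_comm]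
  refine Finset.sum_congr rfl fun k _ => ?_
  rw [Finset.sum_comm]
  refine Finset.sum_congr rfl fun l _ => ?_
  rw [Finset.mul_sum]

/-- Duality (`Σ_t |Σ_n a n et t n|² ≤ Δ Σ |a n|²` follows from `Σ_(n ≤ N) |Σ_t b t et t n|² ≤ Δ Σ |b t|²`; see `dual` in Lib_MP_f1a94e_mr or Lib_MP_f1a94e_ecm/Orth.lean). `Σ_(n ≤ N) |..|² ≤ 2 Σ_(n ≤ 2N) (1 - n/(2N)) |Σ_t b t et t n|²`, expand: diagonal `≤ 2 N`, off-diagonal `smooth_zs` with `u = ±(t - t')`, `1 ≤ |u| ≤ 2 X ≤ N^9`;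
`Σ_(t') 1/|t - t'|² ≤ 4` (spacing one), `#S N^(-η) ≤ 1` for `δ = η/4`. -/
theorem hm_large : ∃ δ C X0 : ℝ, 0 < δ ∧ 0 < C ∧ 1 < X0 ∧ ∀ X N : ℝ, X0 ≤ X → X ^ (1 / 4 : ℝ) ≤ N → ∀ S : Finset ℝ, (∀ t ∈ S, |t| ≤ X) →
    (∀ t ∈ S, ∀ t' ∈ S, t ≠ t' → 1 ≤ |t - t'|) → (S.card : ℝ) ≤ X ^ δ → ∀ a : ℕ → ℂ,
    ∑ t ∈ S, ‖∑ n ∈ Icc 1 ⌊N⌋₊, a n * et t n‖ ^ 2 ≤ C * N * ∑ n ∈ Icc 1 ⌊N⌋₊, ‖a n‖ ^ 2 := by
  obtain ⟨η, C, hη, hC, hz⟩ := smooth_zs 9 (by norm_num)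
  refine ⟨η / 4, 2 * (2 + 5 * C), 16, by positivity, by positivity, by norm_num, ?_⟩
  intro X N hX hXN S hSX hSsp hcard a
  have hX0 : 0 < X := by linarith
  have hX1 : 1 ≤ X := by linarith
  have hN2 : 2 ≤ N := by
    refine le_trans ?_ hXN
    have h1 : (2 : ℝ) = (16 : ℝ) ^ (1 / 4 : ℝ) := by
      rw [show (16 : ℝ) = (2 : ℝ) ^ (4 : ℝ) by norm_num, ← Real.rpow_mul (by norm_num)]
      norm_num
    rw [h1]
    exact Real.rpow_le_rpow (by norm_num) hX (by norm_num)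
  have hN0 : 0 < N := by linarith
  have hN1 : 1 ≤ N := by linarith
  have hXN4 : X ≤ N ^ 4 := by
    have h1 : (X ^ (1 / 4 : ℝ)) ^ 4 = X := by
      rw [← Real.rpow_natCast, ← Real.rpow_mul hX0.le]
      norm_num
    calc X = (X ^ (1 / 4 : ℝ)) ^ 4 := h1.symm
      _ ≤ N ^ 4 := by gcongr
  have h2X : 2 * X ≤ N ^ (9 : ℝ) := by
    rw [show (9 : ℝ) = ((9 : ℕ) : ℝ) by norm_num, Real.rpow_natCast]
    have h1 : N ^ 4 * 2 ≤ N ^ 4 * N ^ 5 := by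
      have h2 : (2 : ℝ) ≤ N ^ 5 := by
        calc (2 : ℝ) ≤ N := hN2
          _ = N ^ 1 := (pow_one N).symm
          _ ≤ N ^ 5 := pow_le_pow_right₀ hN1 (by norm_num)
      gcongr
    calc 2 * X ≤ N ^ 4 * 2 := by linarith
      _ ≤ N ^ 4 * N ^ 5 := h1
      _ = N ^ 9 := by ring
  have hcardN : N ^ (1 - η) * S.card ≤ N := by
    have h1 : X ^ (η / 4) ≤ N ^ η := by
      calc X ^ (η / 4) = (X ^ (1 / 4 : ℝ)) ^ η := by
            rw [← Real.rpow_mul hX0.le]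
            congr 1
            ring
        _ ≤ N ^ η := Real.rpow_le_rpow (by positivity) hXN hη.le
    calc N ^ (1 - η) * S.card ≤ N ^ (1 - η) * N ^ η := by
          gcongr
          exact hcard.trans h1
      _ = N := by
          rw [← Real.rpow_add hN0]
          simp
  refine hm_dual S _ (by positivity) (fun b => ?_) a
  -- pass to the smooth weight
  have hw0 : ∀ n ∈ Icc 1 ⌊2 * N⌋₊, 0 ≤ 1 - (n : ℝ) / (2 * N) := by
    intro n hn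
    have h1 : (n : ℝ) ≤ 2 * N := (Nat.le_floor_iff (by linarith)).1 (Finset.mem_Icc.1 hn).2
    rw [sub_nonneg, div_le_one (by linarith)]
    exact h1
  have hstep1 : ∑ n ∈ Icc 1 ⌊N⌋₊, ‖∑ t ∈ S, b t * et t n‖ ^ 2 ≤
      2 * ∑ n ∈ Icc 1 ⌊2 * N⌋₊, (1 - (n : ℝ) / (2 * N)) * ‖∑ t ∈ S, b t * et t n‖ ^ 2 := by
    rw [Finset.mul_sum]
    calc ∑ n ∈ Icc 1 ⌊N⌋₊, ‖∑ t ∈ S, b t * et t n‖ ^ 2 ≤
          ∑ n ∈ Icc 1 ⌊N⌋₊, 2 * ((1 - (n : ℝ) / (2 * N)) * ‖∑ t ∈ S, b t * et t n‖ ^ 2) := by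
          refine Finset.sum_le_sum fun n hn => ?_
          have h1 : (n : ℝ) ≤ N := (Nat.le_floor_iff (by linarith)).1 (Finset.mem_Icc.1 hn).2
          have h2 : (1 : ℝ) / 2 ≤ 1 - (n : ℝ) / (2 * N) := by
            have h3 : (n : ℝ) / (2 * N) ≤ 1 / 2 := by
              rw [div_le_div_iff₀ (by linarith) (by norm_num)]
              linarith
            linarith
          have h4 : 0 ≤ ‖∑ t ∈ S, b t * et t n‖ ^ 2 := by positivity
          nlinarith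
      _ ≤ _ := by
          apply Finset.sum_le_sum_of_subset_of_nonneg
          · apply Finset.Icc_subset_Icc_right
            exact Nat.floor_mono (by linarith)
          · intro n hn _
            have := hw0 n hn
            positivity
  refine hstep1.trans ?_
  have hstep2 : ∑ n ∈ Icc 1 ⌊2 * N⌋₊, (1 - (n : ℝ) / (2 * N)) * ‖∑ t ∈ S, b t * et t n‖ ^ 2 ≤
      ∑ t ∈ S, ∑ t' ∈ S, ‖b t‖ * ‖b t'‖ * ‖∑ n ∈ Icc 1 ⌊2 * N⌋₊, (((1 - n / (2 * N) : ℝ)) : ℂ) * et (-(t' - t)) n‖ := by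
    have h0 : 0 ≤ ∑ n ∈ Icc 1 ⌊2 * N⌋₊, (1 - (n : ℝ) / (2 * N)) * ‖∑ t ∈ S, b t * et t n‖ ^ 2 :=
      Finset.sum_nonneg fun n hn => mul_nonneg (hw0 n hn) (by positivity)
    have h1 := hm_expand (Icc 1 ⌊2 * N⌋₊) (fun n => 1 - (n : ℝ) / (2 * N)) S b
    rw [← Real.norm_of_nonneg h0, ← Complex.norm_real, h1]
    refine (norm_sum_le _ _).trans (Finset.sum_le_sum fun t _ => (norm_sum_le _ _).trans (Finset.sum_le_sum fun t' _ => ?_))
    rw [norm_mul, norm_mul, Complex.norm_conj]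
  -- the kernel
  set K : ℝ → ℝ → ℝ := fun t t' => ‖∑ n ∈ Icc 1 ⌊2 * N⌋₊, (((1 - n / (2 * N) : ℝ)) : ℂ) * et (-(t' - t)) n‖ with hK
  have hKd : ∀ t, K t t ≤ 2 * N := by
    intro t
    rw [hK]
    simp only
    refine (norm_sum_le _ _).trans ?_
    calc ∑ n ∈ Icc 1 ⌊2 * N⌋₊, ‖(((1 - n / (2 * N) : ℝ)) : ℂ) * et (-(t - t)) n‖ ≤ ∑ n ∈ Icc 1 ⌊2 * N⌋₊, (1 : ℝ) := by
          refine Finset.sum_le_sum fun n hn => ?_
          rw [norm_mul, norm_et, mul_one, Complex.norm_real, Real.norm_of_nonneg (hw0 n hn)]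
          have : 0 ≤ (n : ℝ) / (2 * N) := by positivity
          linarith
      _ = ⌊2 * N⌋₊ := by simp
      _ ≤ 2 * N := Nat.floor_le (by linarith)
  have hKo : ∀ t ∈ S, ∀ t' ∈ S, t ≠ t' → K t t' ≤ C * (N * (1 / (t' - t) ^ 2) + N ^ (1 - η)) := by
    intro t ht t' ht' hne
    have h1 := hSsp t' ht' t ht (Ne.symm hne)
    have h2 : |t' - t| ≤ N ^ (9 : ℝ) := by
      refine (abs_sub _ _).trans ?_
      have := hSX t ht
      have := hSX t' ht'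
      linarith
    have h3 := hz (t' - t) N hN1 h1 h2
    rw [hK]
    simp only
    rw [mul_one_div]
    exact h3
  have hKsum : ∀ t ∈ S, ∑ t' ∈ S, K t t' ≤ (2 + 5 * C) * N := by
    intro t ht
    rw [← Finset.add_sum_erase S (K t) ht]
    have h1 : ∑ t' ∈ S.erase t, K t t' ≤ ∑ t' ∈ S.erase t, C * (N * (1 / (t' - t) ^ 2) + N ^ (1 - η)) := by
      refine Finset.sum_le_sum fun t' ht' => ?_
      obtain ⟨h2, h3⟩ := Finset.mem_erase.1 ht'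
      exact hKo t ht t' h3 (Ne.symm h2)
    have h2 : ∑ t' ∈ S.erase t, C * (N * (1 / (t' - t) ^ 2) + N ^ (1 - η)) =
        C * (N * ∑ t' ∈ S.erase t, 1 / (t' - t) ^ 2 + (S.erase t).card * N ^ (1 - η)) := by
      rw [← Finset.mul_sum, Finset.sum_add_distrib, ← Finset.mul_sum, Finset.sum_const, nsmul_eq_mul]
    have h3 := hm_sp2 S hSsp t ht
    have h4 : ((S.erase t).card : ℝ) ≤ S.card := by
      exact_mod_cast Finset.card_le_card (Finset.erase_subset _ _)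
    have h5 : ((S.erase t).card : ℝ) * N ^ (1 - η) ≤ N := by
      calc ((S.erase t).card : ℝ) * N ^ (1 - η) ≤ S.card * N ^ (1 - η) := by gcongr
        _ = N ^ (1 - η) * S.card := mul_comm _ _
        _ ≤ N := hcardN
    have h6 : C * (N * ∑ t' ∈ S.erase t, 1 / (t' - t) ^ 2 + (S.erase t).card * N ^ (1 - η)) ≤ C * (N * 4 + N) := by
      gcongr
    have h7 := hKd t
    linarith
  have hKsymm : ∀ t t', K t t' = K t' t := by
    intro t t'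
    rw [hK]
    simp only
    rw [← Complex.norm_conj (∑ n ∈ Icc 1 ⌊2 * N⌋₊, (((1 - n / (2 * N) : ℝ)) : ℂ) * et (-(t' - t)) n), map_sum]
    congr 1
    refine Finset.sum_congr rfl fun n _ => ?_
    rw [map_mul, Complex.conj_ofReal, hm_conj_et]
    congr 2
    ring
  have hK0 : ∀ t t', 0 ≤ K t t' := fun t t' => norm_nonneg _
  have hstep3 : ∑ t ∈ S, ∑ t' ∈ S, ‖b t‖ * ‖b t'‖ * K t t' ≤ ∑ t ∈ S, ‖b t‖ ^ 2 * ∑ t' ∈ S, K t t' := by
    have h1 : ∀ t ∈ S, ∀ t' ∈ S, ‖b t‖ * ‖b t'‖ * K t t' ≤ (1 / 2) * (‖b t‖ ^ 2 * K t t') + (1 / 2) * (‖b t'‖ ^ 2 * K t' t) := by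
      intro t _ t' _
      rw [hKsymm t' t]
      have := hK0 t t'
      nlinarith [sq_nonneg (‖b t‖ - ‖b t'‖), mul_nonneg this (sq_nonneg (‖b t‖ - ‖b t'‖))]
    calc ∑ t ∈ S, ∑ t' ∈ S, ‖b t‖ * ‖b t'‖ * K t t' ≤
          ∑ t ∈ S, ∑ t' ∈ S, ((1 / 2) * (‖b t‖ ^ 2 * K t t') + (1 / 2) * (‖b t'‖ ^ 2 * K t' t)) :=
          Finset.sum_le_sum fun t ht => Finset.sum_le_sum fun t' ht' => h1 t ht t' ht'
      _ = (1 / 2) * ∑ t ∈ S, ‖b t‖ ^ 2 * ∑ t' ∈ S, K t t' + (1 / 2) * ∑ t' ∈ S, ‖b t'‖ ^ 2 * ∑ t ∈ S, K t' t := by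
          simp_rw [Finset.sum_add_distrib, ← Finset.mul_sum]
          congr 2
          rw [Finset.sum_comm]
          refine Finset.sum_congr rfl fun t' _ => ?_
          rw [Finset.mul_sum]
      _ = ∑ t ∈ S, ‖b t‖ ^ 2 * ∑ t' ∈ S, K t t' := by ring
  calc 2 * ∑ n ∈ Icc 1 ⌊2 * N⌋₊, (1 - (n : ℝ) / (2 * N)) * ‖∑ t ∈ S, b t * et t n‖ ^ 2 ≤
        2 * ∑ t ∈ S, ‖b t‖ ^ 2 * ∑ t' ∈ S, K t t' := by
        have := hstep2.trans hstep3
        linarith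
    _ ≤ 2 * ∑ t ∈ S, ‖b t‖ ^ 2 * ((2 + 5 * C) * N) := by
        gcongr with t ht
        exact hKsum t ht
    _ = 2 * (2 + 5 * C) * N * ∑ t ∈ S, ‖b t‖ ^ 2 := by
        rw [← Finset.sum_mul]
        ring

end Pool.Agent.SplI
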