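import Pool.Agent.Lib_MP_92ef0c_spi.IDefs
import Pool.Agent.Lib_MP_92ef0c_sp.SDefs0

/-!
# Split twin, block M: polynomials of boxes
-/

set_option autoImplicit false

namespace Pool.Agent.SplI

open Finset Pool.Agent.Spl

/-- the polynomial of a box of coprime pairs -/
noncomputable def Ps (f g : ℕ → ℂ) (C D t : ℝ) : ℂ :=
  ∑ z ∈ PB C D, f z.1 * g z.2 * Complex.exp (((t * dirn z : ℝ) : ℂ) * Complex.I)

/-- the sum over an arc -/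
noncomputable def Sg (f g : ℕ → ℂ) (C D δ τ : ℝ) : ℂ :=
  ∑ z ∈ (PB C D).filter (fun z => τ ≤ dirn z ∧ dirn z < τ + δ), f z.1 * g z.2

/-- small partial sums at height up to `N ^ 3` -/
def PtwS (g : ℕ → ℂ) : Prop := ∀ ε : ℝ, 0 < ε → ∃ N0 : ℝ, 1 < N0 ∧ ∀ N : ℝ, N0 ≤ N → ∀ t : ℝ, |t| ≤ N ^ 3 →
  ‖∑ n ∈ Icc 1 ⌊N⌋₊, g n * et t n‖ ≤ ε * N

end Pool.Agent.SplI
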