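import Pool.Agent.Lib_MP_92ef0c_spi.IDefs
import Pool.Agent.Lib_MP_f1a94e_mr.Basic
import Pool.Agent.Lib_MP_f1a94e_mr.MertensA

/-!
# Piece I-MERT: Mertens theorem
-/

set_option autoImplicit false

namespace Pool.Agent.SplI

open Finset

private theorem mertAll_log : ∃ C : ℝ, ∀ x : ℝ, 2 ≤ x →
    |∑ p ∈ (Finset.Icc 1 ⌊x⌋₊).filter (fun p => p.Prime), Real.log p / p - Real.log x| ≤ C := by
  obtain ⟨C1, h1⟩ := Pool.Agent.GaussMR.mert_one
  obtain ⟨C3, h3⟩ := Pool.Agent.GaussMR.mertensA_powers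
  refine ⟨C1 + C3 + Real.log 2, fun x hx => ?_⟩
  set N := ⌊x⌋₊ with hN
  have hN1 : 1 ≤ N := by
    rw [hN, Nat.one_le_floor_iff]
    linarith
  have hNpos : (0 : ℝ) < N := by exact_mod_cast hN1
  have k1 := h1 N hN1
  have k3 := h3 N
  set S1 := ∑ n ∈ Finset.Icc 1 N, ArithmeticFunction.vonMangoldt n / (n : ℝ) with hS1
  set T := ∑ n ∈ Finset.Icc 1 N,
    (if n.Prime then 0 else ArithmeticFunction.vonMangoldt n) / (n : ℝ) with hT
  set A := ∑ p ∈ (Finset.Icc 1 N).filter (fun p => p.Prime), Real.log p / p with hA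
  have hlog : |Real.log N - Real.log x| ≤ Real.log 2 := by
    have a1 : (N : ℝ) ≤ x := Nat.floor_le (by linarith)
    have a2 : x ≤ 2 * N := by
      have := Nat.lt_floor_add_one x
      rw [← hN] at this
      have : (1 : ℝ) ≤ N := by exact_mod_cast hN1
      linarith
    have b1 := Real.log_le_log hNpos a1
    have b2 := Real.log_le_log (by linarith) a2
    rw [Real.log_mul (by norm_num) hNpos.ne'] at b2
    rw [abs_le]
    constructor <;> linarith [Real.log_nonneg (by norm_num : (1 : ℝ) ≤ 2)]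
  have hT0 : 0 ≤ T := by
    rw [hT]
    refine Finset.sum_nonneg fun n _ => ?_
    split_ifs
    · simp
    · exact div_nonneg ArithmeticFunction.vonMangoldt_nonneg n.cast_nonneg
  have hS : S1 = A + T := by
    rw [hS1, hA, hT, Finset.sum_filter, ← Finset.sum_add_distrib]
    refine Finset.sum_congr rfl fun n _ => ?_
    by_cases hp : n.Prime
    · rw [if_pos hp, if_pos hp, zero_div, add_zero, ArithmeticFunction.vonMangoldt_apply_prime hp]
    · rw [if_neg hp, if_neg hp, zero_add]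
  rw [abs_le] at k1 hlog ⊢
  constructor <;> linarith [k1.1, k1.2, hlog.1, hlog.2]

open MeasureTheory in
/-- partial summation from `mertAll_log` -/
private theorem mertAll : ∃ C : ℝ, ∀ x : ℝ, 2 ≤ x →
    |∑ p ∈ (Finset.Icc 1 ⌊x⌋₊).filter (fun p => p.Prime), (1 : ℝ) / p -
      Real.log (Real.log x)| ≤ C := by
  classical
  obtain ⟨C, hC⟩ := mertAll_log
  have hC0 : 0 ≤ C := (abs_nonneg _).trans (hC 2 le_rfl)
  have hl2 : 0 < Real.log 2 := Real.log_pos one_lt_two
  let c : ℕ → ℝ := fun n => if n.Prime then Real.log n / n else 0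
  have hc0 : c 0 = 0 := by simp [c]
  have hc1 : c 1 = 0 := by simp [c, Nat.not_prime_one]
  have hA : ∀ t : ℝ, ∑ k ∈ Finset.Icc 0 ⌊t⌋₊, c k =
      ∑ p ∈ (Finset.Icc 1 ⌊t⌋₊).filter (fun p => p.Prime), Real.log p / p := by
    intro t
    rw [Finset.sum_filter]
    symm
    refine Finset.sum_subset ?_ ?_
    · intro k hk
      rw [Finset.mem_Icc] at hk ⊢
      exact ⟨Nat.zero_le _, hk.2⟩
    · intro k hk hk'
      have h0 : k = 0 := by
        rw [Finset.mem_Icc] at hk hk'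
        omega
      subst h0
      simp
  let f : ℝ → ℝ := fun t => (Real.log t)⁻¹
  have hlogpos : ∀ t : ℝ, 2 ≤ t → 0 < Real.log t := fun t ht => Real.log_pos (by linarith)
  have hderiv : ∀ t : ℝ, 2 ≤ t → HasDerivAt f (-(t⁻¹) / (Real.log t) ^ 2) t := by
    intro t ht
    exact (Real.hasDerivAt_log (by linarith : t ≠ 0)).inv (hlogpos t ht).ne'
  have hfd : ∀ t : ℝ, 2 ≤ t → deriv f t = -(t⁻¹) / (Real.log t) ^ 2 := fun t ht =>
    (hderiv t ht).deriv
  have hcont : ∀ b : ℝ, ContinuousOn (fun t : ℝ => -(t⁻¹) / (Real.log t) ^ 2) (Set.Icc 2 b) := by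
    intro b
    refine ContinuousOn.div (ContinuousOn.neg (ContinuousOn.inv₀ continuousOn_id ?_)) ?_ ?_
    · intro t ht; have := ht.1; exact (by linarith : t ≠ 0)
    · refine ContinuousOn.pow (ContinuousOn.log continuousOn_id ?_) 2
      intro t ht; have := ht.1; exact (by linarith : t ≠ 0)
    · intro t ht; exact pow_ne_zero 2 (hlogpos t ht.1).ne'
  have hint : ∀ b : ℝ, IntegrableOn (deriv f) (Set.Icc 2 b) := by
    intro b
    refine IntegrableOn.congr_fun ((hcont b).integrableOn_Icc) ?_ measurableSet_Icc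
    intro t ht
    exact (hfd t ht.1).symm
  refine ⟨1 + C / Real.log 2 + C / Real.log 2 + |Real.log (Real.log 2)|, ?_⟩
  intro x hx
  have hlx := hlogpos x hx
  have hAbel := sum_mul_eq_sub_integral_mul₁ c (f := f) hc0 hc1 x
    (fun t ht => (hderiv t ht.1).differentiableAt) (hint x)
  have hL : ∑ k ∈ Finset.Icc 0 ⌊x⌋₊, f k * c k =
      ∑ p ∈ (Finset.Icc 1 ⌊x⌋₊).filter (fun p => p.Prime), (1 : ℝ) / p := by
    rw [Finset.sum_filter]
    symm
    refine Finset.sum_subset_zero_on_sdiff (f := fun a : ℕ => if a.Prime then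
      (1 : ℝ) / a else 0) (g := fun k : ℕ => f k * c k) ?_ ?_ ?_
    · intro k hk
      rw [Finset.mem_Icc] at hk ⊢
      exact ⟨Nat.zero_le _, hk.2⟩
    · intro k hk
      rw [Finset.mem_sdiff, Finset.mem_Icc, Finset.mem_Icc] at hk
      have h0 : k = 0 := by omega
      subst h0
      simp [c]
    · intro k hk
      rw [Finset.mem_Icc] at hk
      simp only [c, f]
      split_ifs with hp
      · have h2 : (2 : ℝ) ≤ k := by exact_mod_cast hp.two_le
        have h3 := (hlogpos k h2).ne'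
        field_simp
      · simp
  have hAint : IntegrableOn (fun t => deriv f t * ∑ k ∈ Finset.Icc 0 ⌊t⌋₊, c k) (Set.Ioc 2 x) :=
    (integrableOn_mul_sum_Icc c (by norm_num : (0 : ℝ) ≤ 2) (hint x)).mono_set
      Set.Ioc_subset_Icc_self
  have hfint : IntegrableOn (deriv f) (Set.Ioc 2 x) := (hint x).mono_set Set.Ioc_subset_Icc_self
  have hgcont : ContinuousOn (fun t : ℝ => (t⁻¹) / Real.log t) (Set.Icc 2 x) := by
    refine ContinuousOn.div (ContinuousOn.inv₀ continuousOn_id ?_) ?_ ?_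
    · intro t ht; have := ht.1; exact (by linarith : t ≠ 0)
    · refine ContinuousOn.log continuousOn_id ?_
      intro t ht; have := ht.1; exact (by linarith : t ≠ 0)
    · intro t ht; exact (hlogpos t ht.1).ne'
  have hgint : IntegrableOn (fun t : ℝ => (t⁻¹) / Real.log t) (Set.Ioc 2 x) :=
    hgcont.integrableOn_Icc.mono_set Set.Ioc_subset_Icc_self
  have hgval : ∫ t in Set.Ioc 2 x, (t⁻¹) / Real.log t =
      Real.log (Real.log x) - Real.log (Real.log 2) := by
    rw [← intervalIntegral.integral_of_le hx]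
    refine intervalIntegral.integral_eq_sub_of_hasDerivAt_of_le
      (f := fun t => Real.log (Real.log t)) (f' := fun t : ℝ => (t⁻¹) / Real.log t) hx ?_ ?_ ?_
    · refine ContinuousOn.log (ContinuousOn.log continuousOn_id ?_) ?_
      · intro t ht; have := ht.1; exact (by linarith : t ≠ 0)
      · intro t ht; exact (hlogpos t ht.1).ne'
    · intro t ht
      exact (Real.hasDerivAt_log (by have := ht.1; linarith : t ≠ 0)).log
        (hlogpos t ht.1.le).ne'
    · rw [intervalIntegrable_iff_integrableOn_Icc_of_le hx]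
      exact hgcont.integrableOn_Icc
  have hfval : ∫ t in Set.Ioc 2 x, deriv f t = (Real.log x)⁻¹ - (Real.log 2)⁻¹ := by
    rw [← intervalIntegral.integral_of_le hx]
    refine intervalIntegral.integral_eq_sub_of_hasDerivAt_of_le
      (f := f) (f' := deriv f) hx ?_ ?_ ?_
    · intro t ht
      exact (hderiv t ht.1).continuousAt.continuousWithinAt
    · intro t ht
      have := hderiv t ht.1.le
      rw [hfd t ht.1.le]
      exact this
    · rw [intervalIntegrable_iff_integrableOn_Icc_of_le hx]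
      exact hint x
  have hpt : ∀ t ∈ Set.Ioc (2 : ℝ) x,
      |deriv f t * ∑ k ∈ Finset.Icc 0 ⌊t⌋₊, c k - (-1 * ((t⁻¹) / Real.log t))| ≤
        -(C * deriv f t) := by
    intro t ht
    have ht2 : 2 ≤ t := ht.1.le
    have hlt := hlogpos t ht2
    have htp : 0 < t := by linarith
    have h1 := hC t ht2
    rw [← hA t] at h1
    have h2 : deriv f t ≤ 0 := by
      rw [hfd t ht2]
      exact div_nonpos_of_nonpos_of_nonneg (by have := inv_pos.mpr htp; linarith) (by positivity)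
    have h3 : (-1 * ((t⁻¹) / Real.log t)) = deriv f t * (Real.log t) := by
      rw [hfd t ht2]
      field_simp
    rw [h3, ← mul_sub, abs_mul, abs_of_nonpos h2]
    calc -deriv f t * |∑ k ∈ Finset.Icc 0 ⌊t⌋₊, c k - Real.log t|
        ≤ -deriv f t * C := mul_le_mul_of_nonneg_left h1 (by linarith)
      _ = -(C * deriv f t) := by ring
  have hI : |(∫ t in Set.Ioc 2 x, deriv f t * ∑ k ∈ Finset.Icc 0 ⌊t⌋₊, c k) -
      (-1 * (Real.log (Real.log x) - Real.log (Real.log 2)))| ≤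
      C * ((Real.log 2)⁻¹ - (Real.log x)⁻¹) := by
    rw [← hgval, ← integral_const_mul, ← integral_sub hAint (hgint.const_mul _)]
    calc |∫ t in Set.Ioc 2 x, (deriv f t * ∑ k ∈ Finset.Icc 0 ⌊t⌋₊, c k -
          -1 * ((t⁻¹) / Real.log t))|
        ≤ ∫ t in Set.Ioc 2 x, |deriv f t * ∑ k ∈ Finset.Icc 0 ⌊t⌋₊, c k -
          -1 * ((t⁻¹) / Real.log t)| := abs_integral_le_integral_abs
      _ ≤ ∫ t in Set.Ioc 2 x, -(C * deriv f t) := by
          refine setIntegral_mono_on ?_ ?_ measurableSet_Ioc hpt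
          · exact (hAint.sub (hgint.const_mul _)).abs
          · exact (hfint.const_mul C).neg
      _ = C * ((Real.log 2)⁻¹ - (Real.log x)⁻¹) := by
          rw [integral_neg, integral_const_mul, hfval]; ring
  have hE := hC x hx
  rw [← hA x] at hE
  rw [← hL, hAbel]
  have hfx : f x = (Real.log x)⁻¹ := rfl
  have h4 : |f x * ∑ k ∈ Finset.Icc 0 ⌊x⌋₊, c k - 1| ≤ C / Real.log 2 := by
    have h5 : f x * ∑ k ∈ Finset.Icc 0 ⌊x⌋₊, c k - 1 =
        f x * (∑ k ∈ Finset.Icc 0 ⌊x⌋₊, c k - Real.log x) := by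
      rw [hfx]; field_simp
    rw [h5, abs_mul, hfx, abs_of_pos (inv_pos.mpr hlx)]
    calc (Real.log x)⁻¹ * |∑ k ∈ Finset.Icc 0 ⌊x⌋₊, c k - Real.log x|
        ≤ (Real.log 2)⁻¹ * C := by
          refine mul_le_mul ?_ hE (abs_nonneg _) (inv_pos.mpr hl2).le
          exact inv_anti₀ hl2 (Real.log_le_log (by norm_num) hx)
      _ = C / Real.log 2 := by rw [div_eq_mul_inv]; ring
  have h6 : C * ((Real.log 2)⁻¹ - (Real.log x)⁻¹) ≤ C / Real.log 2 := by
    rw [div_eq_mul_inv]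
    refine mul_le_mul_of_nonneg_left ?_ hC0
    have := inv_pos.mpr hlx
    linarith
  have h7 := hI.trans h6
  have h8 := le_abs_self (Real.log (Real.log 2))
  have h9 := neg_abs_le (Real.log (Real.log 2))
  rw [abs_le] at h4 h7 ⊢
  constructor <;> linarith [h4.1, h4.2, h7.1, h7.2]

/-- `mert_one` (Lib_MP_f1a94e_mr/MertensA.lean: `∑_(n ≤ N) Λ(n)/n = log N + O(1)`), prime powers `O(1)` (`mertensA_powers`), then partial summation exactly as `mertens`, `Ls_bounds` in MertensB.lean. -/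
theorem Lr_bounds : ∃ C : ℝ, 0 < C ∧ ∀ P Q : ℝ, 2 ≤ P → P ≤ Q →
    |Lr P Q - (Real.log (Real.log Q) - Real.log (Real.log P))| ≤ C := by
  classical
  obtain ⟨C, hC⟩ := mertAll
  have hC0 : 0 ≤ C := (abs_nonneg _).trans (hC 2 le_rfl)
  refine ⟨2 * C + 1, by linarith, ?_⟩
  intro P Q hP hPQ
  have hsplit : ∑ p ∈ (Finset.Icc 1 ⌊Q⌋₊).filter (fun p => p.Prime), (1 : ℝ) / p =
      ∑ p ∈ (Finset.Icc 1 ⌊P⌋₊).filter (fun p => p.Prime), (1 : ℝ) / p + Lr P Q := by
    unfold Lr
    rw [← Finset.sum_union]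
    · refine Finset.sum_congr ?_ fun _ _ => rfl
      have hfl : ⌊P⌋₊ ≤ ⌊Q⌋₊ := Nat.floor_le_floor hPQ
      ext p
      simp only [PrI, Finset.mem_filter, Finset.mem_Icc, Finset.mem_union]
      constructor
      · rintro ⟨⟨h1, h2⟩, h3⟩
        by_cases h5 : p ≤ ⌊P⌋₊
        · exact Or.inl ⟨⟨h1, h5⟩, h3⟩
        · refine Or.inr ⟨⟨h1, h2⟩, h3, ?_⟩
          exact (Nat.floor_lt (by linarith)).1 (by omega)
      · rintro (⟨⟨h1, h2⟩, h3⟩ | ⟨⟨h1, h2⟩, h3, h5⟩)
        · exact ⟨⟨h1, by omega⟩, h3⟩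
        · exact ⟨⟨h1, h2⟩, h3⟩
    · rw [Finset.disjoint_left]
      intro p hp hp'
      simp only [PrI, Finset.mem_filter, Finset.mem_Icc] at hp hp'
      have h1 := (Nat.floor_lt (by linarith : (0 : ℝ) ≤ P)).2 hp'.2.2
      omega
  have h1 := hC P hP
  have h2 := hC Q (hP.trans hPQ)
  rw [hsplit] at h2
  rw [abs_le] at h1 h2 ⊢
  constructor <;> linarith [h1.1, h1.2, h2.1, h2.2]

/-- `∑_(p ≤ x) log p / p ≤ log x + C` -/
theorem mert_up : ∃ C : ℝ, 0 < C ∧ ∀ x : ℝ, 2 ≤ x → ∑ p ∈ PrI 1 x, Real.log p / (p : ℝ) ≤ Real.log x + C := by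
  classical
  obtain ⟨C, hC⟩ := mertAll_log
  have hC0 : 0 ≤ C := (abs_nonneg _).trans (hC 2 le_rfl)
  refine ⟨C + 1, by linarith, fun x hx => ?_⟩
  have h1 := (abs_le.1 (hC x hx)).2
  have h2 : ∑ p ∈ PrI 1 x, Real.log p / (p : ℝ) ≤
      ∑ p ∈ (Finset.Icc 1 ⌊x⌋₊).filter (fun p => p.Prime), Real.log p / p := by
    refine Finset.sum_le_sum_of_subset_of_nonneg ?_ fun p hp _ => ?_
    · intro p hp
      simp only [PrI, Finset.mem_filter] at hp ⊢
      exact ⟨hp.1, hp.2.1⟩
    · rw [Finset.mem_filter] at hp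
      exact div_nonneg (Real.log_nonneg (by exact_mod_cast hp.2.one_lt.le)) p.cast_nonneg
  linarith

end Pool.Agent.SplI
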