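import Pool.Agent.Lib_MP_92ef0c_spi.AiConv
import Pool.Agent.Lib_MP_92ef0c_spi.Mert

/-!
# Piece I-HALPT: from the mean square to the endpoint
-/

set_option autoImplicit false

namespace Pool.Agent.SplI

open Finset

/-- Every window of length one above `u` has mass at most `C / u`: `∑_(exp u < p ≤ exp (u+1)) 1/p ≤ (1/(u exp u)) ∑_(p ≤ exp (u+1)) log p` (`Chebyshev.theta_le_log4_mul_x`; see win_mass in Lib_MP_f1a94e_ecm/WinMass.lean). -/
theorem win_i : ∃ C : ℝ, 0 < C ∧ ∀ u : ℝ, 1 ≤ u → Lr (Real.exp u) (Real.exp (u + 1)) ≤ C / u := by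
  have hl4 : 0 < Real.log 4 := Real.log_pos (by norm_num)
  refine ⟨Real.log 4 * Real.exp 1, mul_pos hl4 (Real.exp_pos _), ?_⟩
  intro u hu
  have hu0 : 0 < u := by linarith
  have hE : 0 < Real.exp u := Real.exp_pos u
  unfold Lr
  have h2 : ∑ p ∈ PrI (Real.exp u) (Real.exp (u + 1)), (1 : ℝ) / p ≤
      ∑ p ∈ PrI (Real.exp u) (Real.exp (u + 1)), Real.log p / (u * Real.exp u) := by
    refine Finset.sum_le_sum fun p hp => ?_
    obtain ⟨-, h4, -⟩ := mem_PrI.1 hp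
    have h5 : u ≤ Real.log p := by
      rw [Real.le_log_iff_exp_le (hE.trans h4)]
      exact h4.le
    rw [div_le_div_iff₀ (hE.trans h4) (by positivity), one_mul]
    exact mul_le_mul h5 h4.le hE.le (hu0.le.trans h5)
  have h3 : ∑ p ∈ PrI (Real.exp u) (Real.exp (u + 1)), Real.log p ≤
      Chebyshev.theta (Real.exp (u + 1)) := by
    unfold Chebyshev.theta
    refine Finset.sum_le_sum_of_subset_of_nonneg ?_ ?_
    · intro p hp
      obtain ⟨h4, h5, h6⟩ := mem_PrI.1 hp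
      rw [Finset.mem_filter, Finset.mem_Ioc]
      exact ⟨⟨h4.pos, Nat.le_floor h6⟩, h4⟩
    · intro p hp _
      have h5 := (Finset.mem_filter.mp hp).2
      exact Real.log_nonneg (by exact_mod_cast h5.one_lt.le)
  have h4 := Chebyshev.theta_le_log4_mul_x (Real.exp_pos (u + 1)).le
  refine h2.trans ?_
  rw [← Finset.sum_div, div_le_div_iff₀ (by positivity) hu0]
  have h6 : Real.exp (u + 1) = Real.exp u * Real.exp 1 := Real.exp_add u 1
  have h5 := h3.trans (h4.trans_eq (by rw [h6]))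
  calc (∑ p ∈ PrI (Real.exp u) (Real.exp (u + 1)), Real.log p) * u ≤
      (Real.log 4 * (Real.exp u * Real.exp 1)) * u := mul_le_mul_of_nonneg_right h5 hu0.le
    _ = Real.log 4 * Real.exp 1 * (u * Real.exp u) := by ring

/-- the mass of the primes with a given value of `⌈(s - log p) / h⌉` -/
private theorem ip_mass {C4 : ℝ} (hC4 : 0 < C4)
    (hwin : ∀ u : ℝ, 1 ≤ u → Lr (Real.exp u) (Real.exp (u + 1)) ≤ C4 / u)
    {a s h Q : ℝ} (ha : 1 ≤ a) (hh : 0 < h) (hh1 : h ≤ 1 / 2) (hQ : Q ≤ Real.exp s) (n : ℕ) :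
    ∑ p ∈ (PrI (Real.exp a) Q).filter (fun p : ℕ => ⌈(s - Real.log (p : ℝ)) / h⌉₊ = n), 1 / (p : ℝ) ≤
      C4 / a := by
  obtain ⟨u, hu⟩ : ∃ u : ℝ, u = max a (s - n * h + h - 1) := ⟨_, rfl⟩
  have hau : a ≤ u := by rw [hu]; exact le_max_left _ _
  have hsu : s - n * h + h - 1 ≤ u := by rw [hu]; exact le_max_right _ _
  have h1 : ∑ p ∈ (PrI (Real.exp a) Q).filter (fun p : ℕ => ⌈(s - Real.log (p : ℝ)) / h⌉₊ = n),
      1 / (p : ℝ) ≤ Lr (Real.exp u) (Real.exp (u + 1)) := by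
    unfold Lr
    refine sum_le_sum_of_subset_of_nonneg (fun p hp => ?_) fun p _ _ => by positivity
    obtain ⟨hp1, hp2⟩ := mem_filter.1 hp
    obtain ⟨g1, g2, g3⟩ := mem_PrI.1 hp1
    have hpos : (0 : ℝ) < p := lt_trans (Real.exp_pos _) g2
    have hlog : Real.log p ≤ s := by
      rw [Real.log_le_iff_le_exp hpos]
      exact g3.trans hQ
    have hn0 : 0 ≤ (s - Real.log p) / h := div_nonneg (by linarith) hh.le
    have k1 := Nat.le_ceil ((s - Real.log p) / h)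
    have k2 := Nat.ceil_lt_add_one hn0
    rw [hp2] at k1 k2
    rw [div_le_iff₀ hh] at k1
    have k2' : (n : ℝ) * h < s - Real.log p + h := by
      have := mul_lt_mul_of_pos_right k2 hh
      rw [add_mul, div_mul_cancel₀ _ hh.ne', one_mul] at this
      exact this
    have k3 : a < Real.log p := (Real.lt_log_iff_exp_lt hpos).2 g2
    refine mem_PrI.2 ⟨g1, ?_, ?_⟩
    · rw [← Real.lt_log_iff_exp_lt hpos, hu]
      exact max_lt k3 (by linarith)
    · rw [← Real.log_le_iff_le_exp hpos]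
      linarith
  refine h1.trans ((hwin u (ha.trans hau)).trans ?_)
  exact div_le_div_of_nonneg_left hC4.le (by linarith) hau

/-- the sum over the primes grouped by grid points -/
private theorem ip_group {C4 : ℝ} (hC4 : 0 < C4)
    (hwin : ∀ u : ℝ, 1 ≤ u → Lr (Real.exp u) (Real.exp (u + 1)) ≤ C4 / u)
    {a s h : ℝ} (ha : 1 ≤ a) (hh : 0 < h) (hh1 : h ≤ 1 / 2) (hs : 0 < s) (F : ℝ → ℝ) (hF : ∀ x, 0 ≤ F x) :
    ∑ p ∈ PrI (Real.exp a) (Real.exp (s / 2)), 1 / (p : ℝ) * F ((⌈(s - Real.log (p : ℝ)) / h⌉₊ : ℕ) * h) ≤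
      C4 / a * ∑ n ∈ (range (⌊s / h⌋₊ + 1)).filter (fun n : ℕ => s / 2 ≤ (n : ℝ) * h), F (n * h) := by
  have hmaps : ∀ p ∈ PrI (Real.exp a) (Real.exp (s / 2)), ⌈(s - Real.log (p : ℝ)) / h⌉₊ ∈
      (range (⌊s / h⌋₊ + 1)).filter (fun n : ℕ => s / 2 ≤ (n : ℝ) * h) := by
    intro p hp
    obtain ⟨g1, g2, g3⟩ := mem_PrI.1 hp
    have hpos : (0 : ℝ) < p := lt_trans (Real.exp_pos _) g2
    have hlog : Real.log p ≤ s / 2 := by
      rw [Real.log_le_iff_le_exp hpos]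
      exact g3
    have hn0 : 0 ≤ (s - Real.log p) / h := div_nonneg (by linarith) hh.le
    have k1 := Nat.le_ceil ((s - Real.log p) / h)
    have k2 := Nat.ceil_lt_add_one hn0
    have k3 : a < Real.log p := (Real.lt_log_iff_exp_lt hpos).2 g2
    rw [div_le_iff₀ hh] at k1
    have k2' : (⌈(s - Real.log (p : ℝ)) / h⌉₊ : ℝ) * h < s - Real.log p + h := by
      have := mul_lt_mul_of_pos_right k2 hh
      rw [add_mul, div_mul_cancel₀ _ hh.ne', one_mul] at this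
      exact this
    rw [mem_filter, mem_range, Nat.lt_succ_iff]
    refine ⟨Nat.le_floor ?_, ?_⟩
    · rw [le_div_iff₀ hh]
      linarith
    · linarith
  rw [← sum_fiberwise_of_maps_to hmaps, mul_sum]
  refine sum_le_sum fun n _ => ?_
  have h1 : ∑ p ∈ (PrI (Real.exp a) (Real.exp (s / 2))).filter
      (fun p : ℕ => ⌈(s - Real.log (p : ℝ)) / h⌉₊ = n),
      1 / (p : ℝ) * F ((⌈(s - Real.log (p : ℝ)) / h⌉₊ : ℕ) * h) =
      (∑ p ∈ (PrI (Real.exp a) (Real.exp (s / 2))).filter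
        (fun p : ℕ => ⌈(s - Real.log (p : ℝ)) / h⌉₊ = n), 1 / (p : ℝ)) * F (n * h) := by
    rw [sum_mul]
    refine sum_congr rfl fun p hp => ?_
    rw [(mem_filter.1 hp).2]
  rw [h1]
  refine mul_le_mul_of_nonneg_right ?_ (hF _)
  exact ip_mass hC4 hwin ha hh hh1 (Real.exp_le_exp.2 (by linarith)) n

/-- As `point` (Lib_MP_f1a94e_ecm/Point.lean). `P = exp (e' S)`, `Q = exp (S/2)`, `s = S` in `ai_conv` (`Q² = exp S`), `e'` so small that `C / sqrt (Lr P Q) ≤ ε/4` (`Lr_bounds`: `Lr P Q ≥ log (1/(2 e')) - C`). `‖Ai f S‖ ≤ ε/4 + (1/L) ∑_p (1/p) ‖Ai f (S - log p)‖`, all `S - log p ∈ [S/2, S]`;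
`‖Ai f (S - log p)‖ ≤ ‖Ai f (n h)‖ + 4 (h + exp (-S/2))`, `n = ⌈(S - log p)/h⌉` or the grid point just above (stay in `[S/2, S]`; near the right end `log p ≥ e' S > h`), `h ≤ ε / 64`; the `p` of one grid point have total mass `≤ 2 C / (e' S)` (`win_i`). So `‖Ai f S‖ ≤ ε/2 + (2 C/(e' S)) ∑_n ‖Ai f (n h)‖ ≤ ε/2 + (2 C/(e' S)) (S/h + 1)^(1/2) (ε1 S)^(1/2)`
(`L ≥ 1`). Choose `h`, `e'`, then `ε1`. -/
theorem hal_point (ε : ℝ) (hε : 0 < ε) : ∃ h ε1 S0 : ℝ, 0 < h ∧ h ≤ 1 ∧ 0 < ε1 ∧ 0 < S0 ∧ ∀ S : ℝ, S0 ≤ S → ∀ f : ℕ → ℂ, CF f →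
    ∑ n ∈ (range (⌊S / h⌋₊ + 1)).filter (fun n : ℕ => S / 2 ≤ (n : ℝ) * h), ‖Ai f (n * h)‖ ^ 2 ≤ ε1 * S → ‖Ai f S‖ ≤ ε := by
  obtain ⟨C1, hC1, hconv⟩ := ai_conv
  obtain ⟨C4, hC4, hwin⟩ := win_i
  obtain ⟨C5, hC5, hLs⟩ := Lr_bounds
  -- constants
  obtain ⟨K, hK⟩ : ∃ K : ℝ, K = max 1 ((4 * C1 / ε) ^ 2) := ⟨_, rfl⟩
  have hK1 : 1 ≤ K := by rw [hK]; exact le_max_left _ _
  have hK2 : (4 * C1 / ε) ^ 2 ≤ K := by rw [hK]; exact le_max_right _ _
  obtain ⟨e', he'⟩ : ∃ e' : ℝ, e' = 1 / 2 * Real.exp (-(K + C5)) := ⟨_, rfl⟩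
  have he0 : 0 < e' := by rw [he']; positivity
  have he1 : e' ≤ 1 / 2 := by
    rw [he']
    have : Real.exp (-(K + C5)) ≤ 1 := by
      rw [Real.exp_le_one_iff]
      linarith
    linarith
  obtain ⟨h, hh⟩ : ∃ h : ℝ, h = min (1 / 2) (ε / 32) := ⟨_, rfl⟩
  have hh0 : 0 < h := by rw [hh]; positivity
  have hh1 : h ≤ 1 / 2 := by rw [hh]; exact min_le_left _ _
  have hh2 : 4 * h ≤ ε / 8 := by
    have : h ≤ ε / 32 := by rw [hh]; exact min_le_right _ _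
    linarith
  obtain ⟨δ, hδ⟩ : ∃ δ : ℝ, δ = ε * e' / (4 * C4) := ⟨_, rfl⟩
  have hδ0 : 0 < δ := by rw [hδ]; positivity
  refine ⟨h, δ ^ 2 * h / 2, max (1 / e') (-2 * Real.log (ε / 32)), hh0, by linarith, by positivity,
    lt_of_lt_of_le (by positivity) (le_max_left _ _), fun s hs f hf hsq => ?_⟩
  have s1 : 1 / e' ≤ s := (le_max_left _ _).trans hs
  have s3 : -2 * Real.log (ε / 32) ≤ s := (le_max_right _ _).trans hs
  have s2 : 2 ≤ s := by
    refine le_trans ?_ s1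
    rw [le_div_iff₀ he0]
    linarith
  have hs0 : 0 < s := by linarith
  have hes : 1 ≤ e' * s := by
    rw [div_le_iff₀ he0] at s1
    linarith
  have hexp : 4 * Real.exp (-(s / 2)) ≤ ε / 8 := by
    have h1 : Real.exp (-(s / 2)) ≤ ε / 32 := by
      have h2 : -(s / 2) ≤ Real.log (ε / 32) := by linarith
      calc Real.exp (-(s / 2)) ≤ Real.exp (Real.log (ε / 32)) := Real.exp_le_exp.2 h2
        _ = ε / 32 := Real.exp_log (by positivity)
    linarith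
  obtain ⟨P, hP⟩ : ∃ P : ℝ, P = Real.exp (e' * s) := ⟨_, rfl⟩
  obtain ⟨Q, hQ⟩ : ∃ Q : ℝ, Q = Real.exp (s / 2) := ⟨_, rfl⟩
  have hP2 : 2 ≤ P := by
    rw [hP]
    have := Real.add_one_le_exp (e' * s)
    linarith
  have hPQ : P ≤ Q := by
    rw [hP, hQ, Real.exp_le_exp]
    nlinarith
  have hQ2 : Q ^ 2 ≤ Real.exp s := by
    rw [hQ, ← Real.exp_nat_mul]
    apply le_of_eq
    congr 1
    push_cast
    ring
  have hLK : K ≤ Lr P Q := by
    have h1 := hLs P Q hP2 hPQ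
    rw [hP, hQ, Real.log_exp, Real.log_exp, ← hP, ← hQ] at h1
    have h2 : Real.log (s / 2) - Real.log (e' * s) = K + C5 := by
      rw [← Real.log_div (by positivity) (by positivity)]
      have h3 : s / 2 / (e' * s) = Real.exp (K + C5) := by
        rw [he', Real.exp_neg]
        field_simp
      rw [h3, Real.log_exp]
    rw [h2] at h1
    have h4 := (abs_le.1 h1).1
    linarith
  have hL1 : 1 ≤ Lr P Q := hK1.trans hLK
  have hL0 : 0 < Lr P Q := by linarith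
  have hc := hconv P Q s hP2 hPQ hQ2 hL1 f hf
  have hc1 : C1 / Real.sqrt (Lr P Q) ≤ ε / 4 := by
    have h1 : 4 * C1 / ε ≤ Real.sqrt (Lr P Q) := by
      apply Real.le_sqrt_of_sq_le
      exact hK2.trans hLK
    rw [div_le_iff₀ (Real.sqrt_pos.2 hL0)]
    rw [div_le_iff₀ hε] at h1
    linarith
  -- the sum
  have hterm : ∀ p ∈ PrI P Q, ‖f p / (p : ℂ) * Ai f (s - Real.log p)‖ ≤
      1 / (p : ℝ) * ‖Ai f ((⌈(s - Real.log (p : ℝ)) / h⌉₊ : ℕ) * h)‖ + 1 / (p : ℝ) * (ε / 4) := by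
    intro p hp
    obtain ⟨g1, g2, g3⟩ := mem_PrI.1 hp
    have hpos : (0 : ℝ) < p := by linarith
    have hlog : Real.log p ≤ s / 2 := by
      rw [Real.log_le_iff_le_exp hpos, ← hQ]
      exact g3
    set t := s - Real.log p with ht
    have ht1 : s / 2 ≤ t := by rw [ht]; linarith
    set n := ⌈t / h⌉₊ with hn
    have hn0 : 0 ≤ t / h := div_nonneg (by linarith) hh0.le
    have k1 := Nat.le_ceil (t / h)
    have k2 := Nat.ceil_lt_add_one hn0
    rw [← hn] at k1 k2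
    rw [div_le_iff₀ hh0] at k1
    have k2' : (n : ℝ) * h < t + h := by
      have := mul_lt_mul_of_pos_right k2 hh0
      rw [add_mul, div_mul_cancel₀ _ hh0.ne', one_mul] at this
      exact this
    have hl := ai_lip f hf t (n * h - t) (by linarith) (by linarith) (by linarith)
    rw [add_sub_cancel] at hl
    have hl2 : 4 * (n * h - t + Real.exp (-t)) ≤ ε / 4 := by
      have h2 : Real.exp (-t) ≤ Real.exp (-(s / 2)) := Real.exp_le_exp.2 (by linarith)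
      linarith
    have hA : ‖Ai f t‖ ≤ ‖Ai f (n * h)‖ + ε / 4 := by
      have := norm_le_norm_add_norm_sub (Ai f (n * h)) (Ai f t)
      linarith
    rw [norm_mul, norm_div, Complex.norm_natCast]
    calc ‖f p‖ / (p : ℝ) * ‖Ai f t‖ ≤ 1 / (p : ℝ) * (‖Ai f (n * h)‖ + ε / 4) := by
          refine mul_le_mul (div_le_div_of_nonneg_right (hf.le p) hpos.le) hA (norm_nonneg _) (by positivity)
      _ = _ := by ring
  have hLsum : ∑ p ∈ PrI P Q, 1 / (p : ℝ) * (ε / 4) = Lr P Q * (ε / 4) := by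
    rw [← sum_mul]
    rfl
  have hgrp : ∑ p ∈ PrI P Q, 1 / (p : ℝ) * ‖Ai f ((⌈(s - Real.log (p : ℝ)) / h⌉₊ : ℕ) * h)‖ ≤
      C4 / (e' * s) * ∑ n ∈ (range (⌊s / h⌋₊ + 1)).filter (fun n : ℕ => s / 2 ≤ (n : ℝ) * h), ‖Ai f (n * h)‖ := by
    rw [hP, hQ]
    exact ip_group hC4 hwin hes hh0 hh1 hs0 (fun x => ‖Ai f x‖) (fun x => norm_nonneg _)
  obtain ⟨T, hT⟩ : ∃ T : Finset ℕ, T = (range (⌊s / h⌋₊ + 1)).filter (fun n : ℕ => s / 2 ≤ (n : ℝ) * h) := ⟨_, rfl⟩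
  rw [← hT] at hsq hgrp
  have hTc : (T.card : ℝ) ≤ 2 * s / h := by
    have h0 : T.card ≤ ⌊s / h⌋₊ + 1 := by
      rw [hT]
      exact (card_filter_le _ _).trans_eq (card_range _)
    have h1 := Nat.floor_le (div_nonneg hs0.le hh0.le)
    have h2 : 1 ≤ s / h := by
      rw [one_le_div hh0]
      linarith
    have h3 : 2 * s / h = s / h + s / h := by ring
    have h4 : (T.card : ℝ) ≤ (⌊s / h⌋₊ : ℝ) + 1 := by exact_mod_cast h0
    linarith
  have hcs : ∑ n ∈ T, ‖Ai f (n * h)‖ ≤ δ * s := by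
    have h1 : (∑ n ∈ T, ‖Ai f (n * h)‖) ^ 2 ≤ (T.card : ℝ) * ∑ n ∈ T, ‖Ai f (n * h)‖ ^ 2 :=
      sq_sum_le_card_mul_sum_sq
    have h3 : (∑ n ∈ T, ‖Ai f (n * h)‖) ^ 2 ≤ (δ * s) ^ 2 := by
      refine h1.trans ?_
      calc (T.card : ℝ) * ∑ n ∈ T, ‖Ai f (n * h)‖ ^ 2 ≤ (2 * s / h) * (δ ^ 2 * h / 2 * s) :=
            mul_le_mul hTc hsq (sum_nonneg fun _ _ => by positivity) (by positivity)
        _ = (δ * s) ^ 2 := by
            field_simp
    exact le_of_sq_le_sq h3 (by positivity)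
  have hfin : C4 / (e' * s) * ∑ n ∈ T, ‖Ai f (n * h)‖ ≤ ε / 4 := by
    calc C4 / (e' * s) * ∑ n ∈ T, ‖Ai f (n * h)‖ ≤ C4 / (e' * s) * (δ * s) :=
          mul_le_mul_of_nonneg_left hcs (by positivity)
      _ = ε / 4 := by
          rw [hδ]
          field_simp
  have hsum : ‖∑ p ∈ PrI P Q, f p / (p : ℂ) * Ai f (s - Real.log p)‖ ≤
      ε / 4 + Lr P Q * (ε / 4) := by
    refine (norm_sum_le _ _).trans ((sum_le_sum hterm).trans ?_)
    rw [sum_add_distrib, hLsum]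
    linarith
  have hlast : ‖((1 / Lr P Q : ℝ) : ℂ) * ∑ p ∈ PrI P Q, f p / (p : ℂ) * Ai f (s - Real.log p)‖ ≤ ε / 2 := by
    rw [norm_mul, Complex.norm_real, Real.norm_eq_abs, abs_of_nonneg (by positivity)]
    calc 1 / Lr P Q * ‖∑ p ∈ PrI P Q, f p / (p : ℂ) * Ai f (s - Real.log p)‖ ≤
          1 / Lr P Q * (ε / 4 + Lr P Q * (ε / 4)) :=
          mul_le_mul_of_nonneg_left hsum (by positivity)
      _ = ε / 4 / Lr P Q + ε / 4 := by
          field_simp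
      _ ≤ ε / 4 + ε / 4 := by
          have : ε / 4 / Lr P Q ≤ ε / 4 := div_le_self (by positivity) hL1
          linarith
      _ = ε / 2 := by ring
  have := norm_le_norm_add_norm_sub' (Ai f s) (((1 / Lr P Q : ℝ) : ℂ) * ∑ p ∈ PrI P Q,
    f p / (p : ℂ) * Ai f (s - Real.log p))
  linarith

end Pool.Agent.SplI
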