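import Pool.Agent.Lib_MP_92ef0c_spi.HalAvg
import Pool.Agent.Lib_MP_92ef0c_spi.HalPt

/-!
# Piece I-HAL: Halasz theorem in a qualitative form (assembly)
-/

set_option autoImplicit false

namespace Pool.Agent.SplI

open Finset

/-- the convolution family has total mass one -/
private theorem hal_mass {P Q : ℝ} (hL : 0 < Lr P Q) :
    ∑ p ∈ PrI P Q, 1 / ((p : ℝ) * Lr P Q) = 1 := by
  have h1 : ∑ p ∈ PrI P Q, 1 / ((p : ℝ) * Lr P Q) = Lr P Q * (Lr P Q)⁻¹ := by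
    conv_rhs => rw [Lr, sum_mul]
    refine sum_congr rfl fun p _ => ?_
    rw [one_div, mul_inv, one_div]
    rfl
  rw [h1, mul_inv_cancel₀ hL.ne']

/-- `hal_point ε` gives `h, ε1`; `hal_avg c0 ε1 h` gives `T0, δ, κ`; `e = κ` (so `e ≤ 1/4`), `e'` so small that `C / sqrt (Lr (exp (e' S)) (exp (e S))) ≤ δ` (`ai_conv`, `Lr_bounds`) and `L0 ≤ log (e / e')`. Family: `I = PrI (exp (e' S)) (exp (e S))`, `c p = f p / (p Lr)`, `lam p = log p ≤ e S`; for `S/2 ≤ s`: `Q² = exp (2 e S) ≤ exp (S/2) ≤ exp s`. -/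
theorem halasz_i (c0 ε L0 : ℝ) (hc0 : 0 < c0) (hε : 0 < ε) : ∃ T0 e e' S0 : ℝ, 0 < T0 ∧ 0 < e' ∧ e' < e ∧ e ≤ 1 / 4 ∧ L0 ≤ Real.log (e / e') ∧ 0 < S0 ∧
    ∀ S : ℝ, S0 ≤ S → ∀ f : ℕ → ℂ, CF f →
    (∀ y : ℝ, |y| ≤ T0 → c0 * Lr (Real.exp (e' * S)) (Real.exp (e * S)) ≤
      ∑ p ∈ PrI (Real.exp (e' * S)) (Real.exp (e * S)), (1 - (f p * et y p).re) / (p : ℝ)) →
    ‖Ai f S‖ ≤ ε := by
  obtain ⟨h, ε1, S1, hh, hh1, hε1, hS1, hpt⟩ := hal_point ε hε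
  obtain ⟨T0, δ, κ, S2, hT0, hδ, hκ, hκ4, hS2, havg⟩ := hal_avg c0 ε1 h hc0 hε1 hh hh1
  obtain ⟨C1, hC1, hLr⟩ := Lr_bounds
  obtain ⟨C2, hC2, hconv⟩ := ai_conv
  set X : ℝ := max L0 (C1 + max 1 ((C2 / δ) ^ 2)) with hX
  have hXL : L0 ≤ X := le_max_left _ _
  have hX1 : C1 + max 1 ((C2 / δ) ^ 2) ≤ X := le_max_right _ _
  have hm1 : (1 : ℝ) ≤ max 1 ((C2 / δ) ^ 2) := le_max_left _ _
  have hm2 : (C2 / δ) ^ 2 ≤ max 1 ((C2 / δ) ^ 2) := le_max_right _ _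
  have hX0 : 0 < X := by linarith
  set e' : ℝ := κ * Real.exp (-X) with he'
  have he'0 : 0 < e' := mul_pos hκ (Real.exp_pos _)
  have he'κ : e' < κ := by
    have : Real.exp (-X) < 1 := by rw [Real.exp_lt_one_iff]; linarith
    calc e' = κ * Real.exp (-X) := rfl
      _ < κ * 1 := mul_lt_mul_of_pos_left this hκ
      _ = κ := mul_one _
  have hlog : Real.log (κ / e') = X := by
    rw [Real.log_div hκ.ne' he'0.ne', he', Real.log_mul hκ.ne' (Real.exp_pos _).ne', Real.log_exp]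
    ring
  refine ⟨T0, κ, e', max (max S1 S2) (1 / e'), hT0, he'0, he'κ, hκ4, by rw [hlog]; exact hXL,
    lt_of_lt_of_le hS1 ((le_max_left _ _).trans (le_max_left _ _)), fun S hS f hf hnp => ?_⟩
  have hSS1 : S1 ≤ S := ((le_max_left _ _).trans (le_max_left _ _)).trans hS
  have hSS2 : S2 ≤ S := ((le_max_right _ _).trans (le_max_left _ _)).trans hS
  have hSe : 1 / e' ≤ S := (le_max_right _ _).trans hS
  have hS0 : 0 < S := lt_of_lt_of_le hS1 hSS1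
  have heS : 1 ≤ e' * S := by
    rw [div_le_iff₀ he'0] at hSe
    linarith
  set P : ℝ := Real.exp (e' * S) with hP
  set Q : ℝ := Real.exp (κ * S) with hQ
  have hP2 : 2 ≤ P := by
    have := Real.add_one_le_exp (e' * S)
    rw [hP]
    linarith
  have hPQ : P ≤ Q := Real.exp_le_exp.2 (mul_le_mul_of_nonneg_right he'κ.le hS0.le)
  have hL : X - C1 ≤ Lr P Q := by
    have h1 := hLr P Q hP2 hPQ
    rw [hP, hQ, Real.log_exp, Real.log_exp, ← hP, ← hQ,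
      ← Real.log_div (mul_pos hκ hS0).ne' (mul_pos he'0 hS0).ne', mul_div_mul_right _ _ hS0.ne', hlog] at h1
    have := (abs_le.1 h1).1
    linarith
  have hL1 : 1 ≤ Lr P Q := by linarith
  have hL0 : 0 < Lr P Q := by linarith
  have hL2 : (C2 / δ) ^ 2 ≤ Lr P Q := by linarith
  have hCδ : C2 / Real.sqrt (Lr P Q) ≤ δ := by
    have h1 : C2 / δ ≤ Real.sqrt (Lr P Q) := Real.le_sqrt_of_sq_le hL2
    have h2 : 0 < Real.sqrt (Lr P Q) := Real.sqrt_pos.2 hL0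
    rw [div_le_iff₀ h2]
    rw [div_le_iff₀ hδ] at h1
    linarith
  refine hpt S hSS1 f hf ?_
  refine havg S hSS2 (Ai f) (fun s hs => ai_bd f hf s hs) (fun s h' hs h1 h2 => ai_lip f hf s h' hs h1 h2)
    (PrI P Q) (fun p => f p / ((p : ℂ) * (Lr P Q : ℂ))) (fun p => Real.log p) ?_ ?_ ?_ ?_
  · intro p hp
    obtain ⟨h1, h2, h3⟩ := mem_PrI.1 hp
    have hp0 : (0 : ℝ) < p := by exact_mod_cast h1.pos
    refine ⟨Real.log_natCast_nonneg p, ?_⟩
    rw [hQ] at h3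
    exact (Real.log_le_iff_le_exp hp0).2 h3
  · refine (sum_le_sum fun p hp => ?_).trans (le_of_eq (hal_mass hL0))
    obtain ⟨h1, h2, h3⟩ := mem_PrI.1 hp
    have hp0 : (0 : ℝ) < p := by exact_mod_cast h1.pos
    rw [norm_div, norm_mul, Complex.norm_natCast, Complex.norm_real, Real.norm_eq_abs, abs_of_pos hL0]
    exact div_le_div_of_nonneg_right (hf.le p) (mul_pos hp0 hL0).le
  · intro s hs1 hs2
    have hQ2 : Q ^ 2 ≤ Real.exp s := by
      rw [hQ, ← Real.exp_nat_mul]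
      refine Real.exp_le_exp.2 ?_
      push_cast
      nlinarith
    have h1 := hconv P Q s hP2 hPQ hQ2 hL1 f hf
    have h2 : ∑ p ∈ PrI P Q, f p / ((p : ℂ) * (Lr P Q : ℂ)) * Ai f (s - Real.log p) =
        ((1 / Lr P Q : ℝ) : ℂ) * ∑ p ∈ PrI P Q, f p / (p : ℂ) * Ai f (s - Real.log p) := by
      rw [mul_sum]
      refine sum_congr rfl fun p _ => ?_
      push_cast
      rw [div_mul_eq_div_div]
      ring
    show ‖Ai f s - ∑ p ∈ PrI P Q, f p / ((p : ℂ) * (Lr P Q : ℂ)) * Ai f (s - Real.log p)‖ ≤ δ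
    rw [h2]
    exact h1.trans hCδ
  · intro y hy
    have h1 := hnp y hy
    show (∑ p ∈ PrI P Q, f p / ((p : ℂ) * (Lr P Q : ℂ)) *
      Complex.exp (-((y * Real.log p : ℝ) : ℂ) * Complex.I)).re ≤ 1 - c0
    rw [Complex.re_sum]
    have h2 : ∀ p ∈ PrI P Q, (f p / ((p : ℂ) * (Lr P Q : ℂ)) *
        Complex.exp (-((y * Real.log p : ℝ) : ℂ) * Complex.I)).re =
        1 / ((p : ℝ) * Lr P Q) - (1 - (f p * et y p).re) / (p : ℝ) * (Lr P Q)⁻¹ := by
      intro p hp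
      obtain ⟨h1, -, -⟩ := mem_PrI.1 hp
      have hp0 : (p : ℝ) ≠ 0 := by exact_mod_cast h1.ne_zero
      have h3 : f p / ((p : ℂ) * (Lr P Q : ℂ)) * Complex.exp (-((y * Real.log p : ℝ) : ℂ) * Complex.I) =
          (((p : ℝ) * Lr P Q)⁻¹ : ℝ) * (f p * et y p) := by
        unfold et
        push_cast
        rw [div_eq_mul_inv]
        ring
      rw [h3, Complex.re_ofReal_mul, one_div, mul_inv]
      field_simp
      ring
    rw [sum_congr rfl h2, sum_sub_distrib, hal_mass hL0, ← sum_mul]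
    have h4 : c0 ≤ (∑ p ∈ PrI P Q, (1 - (f p * et y p).re) / (p : ℝ)) * (Lr P Q)⁻¹ := by
      rw [← div_eq_mul_inv, le_div_iff₀ hL0]
      exact h1
    linarith

end Pool.Agent.SplI
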