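import Pool.Agent.Lib_MP_92ef0c_spi.Mert

/-!
# Piece I-ROUGH: rough numbers
-/

set_option autoImplicit false

namespace Pool.Agent.SplI

open Finset

private theorem rough_list {y : ℝ} (hy : 0 ≤ y) {n : ℕ} (hn : n ≠ 0) (hr : RoughN y n) :
    y ^ n.primeFactorsList.length ≤ (n : ℝ) := by
  have hp : ∀ p ∈ n.primeFactorsList, y ≤ (p : ℝ) := by
    intro p hp
    exact hr p (Nat.prime_of_mem_primeFactorsList hp) (Nat.dvd_of_mem_primeFactorsList hp)
  have hgen : ∀ l : List ℕ, (∀ p ∈ l, y ≤ (p : ℝ)) → y ^ l.length ≤ ((l.prod : ℕ) : ℝ) := by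
    intro l
    induction l with
    | nil => intro _; simp
    | cons q l ih =>
      intro hq
      rw [List.length_cons, List.prod_cons, pow_succ, Nat.cast_mul, mul_comm]
      exact mul_le_mul (hq q (by simp)) (ih fun p hp => hq p (by simp [hp])) (by positivity) (by positivity)
  have h := hgen _ hp
  rwa [Nat.prod_primeFactorsList hn] at h

/-- A `Y^a`-rough `n ≤ Y` is a product of `r ≤ 1/a` primes of `[Y^a, Y]` (`Nat.primeFactorsList`), so the sum is at most `∑_(r ≤ 1/a) lam^r`, `lam = ∑_(Y^a ≤ p ≤ Y) 1/p ≤ log (1/a) + C` (`Lr_bounds`). -/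
theorem rough_i (a : ℝ) (ha : 0 < a) (ha1 : a ≤ 1) : ∃ C : ℝ, 0 < C ∧ ∀ Y : ℝ, (4 : ℝ) ^ (2 / a) ≤ Y →
    open Classical in ∑ n ∈ (Icc 1 ⌊Y⌋₊).filter (RoughN (Y ^ a)), 1 / (n : ℝ) ≤ C := by
  classical
  obtain ⟨C0, hC0, hCP⟩ := Lr_bounds
  set Lam : ℝ := |Real.log (2 / a)| + C0 with hLam
  have hLam0 : 0 ≤ Lam := by positivity
  set R : ℕ := ⌊1 / a⌋₊ with hR
  refine ⟨∑ r ∈ range (R + 1), Lam ^ r + 1, by positivity, fun Y hY => ?_⟩
  have hY16 : (16 : ℝ) ≤ Y := by
    refine le_trans ?_ hY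
    have : (4 : ℝ) ^ (2 : ℝ) ≤ (4 : ℝ) ^ (2 / a) := by
      apply Real.rpow_le_rpow_of_exponent_le (by norm_num)
      rw [le_div_iff₀ ha]
      nlinarith
    have h2 : (4 : ℝ) ^ (2 : ℝ) = 16 := by norm_num
    linarith
  have hY0 : 0 < Y := by linarith
  have hY1 : 1 < Y := by linarith
  have hYa2 : (4 : ℝ) ≤ Y ^ (a / 2) := by
    have h1 : ((4 : ℝ) ^ (2 / a)) ^ (a / 2) ≤ Y ^ (a / 2) :=
      Real.rpow_le_rpow (by positivity) hY (by positivity)
    rw [← Real.rpow_mul (by norm_num)] at h1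
    have h2 : 2 / a * (a / 2) = 1 := by field_simp
    rw [h2, Real.rpow_one] at h1
    exact h1
  have hYsq : Y ^ a = Y ^ (a / 2) * Y ^ (a / 2) := by
    rw [← Real.rpow_add hY0]
    congr 1
    ring
  have hYa4 : (16 : ℝ) ≤ Y ^ a := by rw [hYsq]; nlinarith
  set S : Finset ℕ := PrI (Y ^ a / 2) Y with hS
  set lam : ℝ := ∑ w ∈ S, 1 / (w : ℝ) with hlam
  have hlam0 : 0 ≤ lam := Finset.sum_nonneg fun w _ => by positivity
  have hlamL : lam ≤ Lam := by
    have h1 := hCP (Y ^ a / 2) Y (by linarith) (by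
      have : Y ^ a ≤ Y ^ (1 : ℝ) := Real.rpow_le_rpow_of_exponent_le hY1.le ha1
      rw [Real.rpow_one] at this
      linarith)
    have h1' := (abs_le.1 h1).2
    have h1'' : lam = Lr (Y ^ a / 2) Y := rfl
    have hlogY : 0 < Real.log Y := Real.log_pos hY1
    have h2 : a / 2 * Real.log Y ≤ Real.log (Y ^ a / 2) := by
      rw [← Real.log_rpow hY0]
      apply Real.log_le_log (by positivity)
      rw [hYsq, le_div_iff₀ (by norm_num)]
      nlinarith
    have h3 : Real.log (a / 2 * Real.log Y) ≤ Real.log (Real.log (Y ^ a / 2)) :=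
      Real.log_le_log (by positivity) h2
    rw [Real.log_mul (by positivity) hlogY.ne'] at h3
    have h4 : Real.log (2 / a) = - Real.log (a / 2) := by
      rw [← Real.log_inv, inv_div]
    have h5 := le_abs_self (Real.log (2 / a))
    rw [hLam]
    linarith
  -- the index set
  let T : Finset (Σ r : ℕ, (Fin r → ℕ)) :=
    (range (R + 1)).sigma (fun r => Fintype.piFinset (fun _ : Fin r => S))
  let g : (Σ r : ℕ, (Fin r → ℕ)) → ℕ := fun t => ∏ i, t.2 i
  have hsec : ∀ u ∈ (Icc 1 ⌊Y⌋₊).filter (RoughN (Y ^ a)), ∃ t ∈ T, g t = u := by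
    intro u hu
    rw [mem_filter, mem_Icc] at hu
    obtain ⟨⟨hu1, huf⟩, hu2⟩ := hu
    have hu0 : u ≠ 0 := by omega
    have huY : (u : ℝ) ≤ Y := (Nat.le_floor_iff' hu0).1 huf
    have hl3 := rough_list (by linarith) hu0 hu2
    refine ⟨⟨u.primeFactorsList.length, fun i => u.primeFactorsList.get i⟩, ?_, ?_⟩
    · simp only [T, mem_sigma, Fintype.mem_piFinset, mem_range]
      refine ⟨?_, ?_⟩
      · have h1 : (Y ^ a) ^ u.primeFactorsList.length ≤ Y := hl3.trans huY
        rw [← Real.rpow_natCast, ← Real.rpow_mul hY0.le] at h1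
        have h2 : a * (u.primeFactorsList.length : ℝ) ≤ 1 := by
          by_contra hcon
          push Not at hcon
          have : Y ^ (1 : ℝ) < Y ^ (a * (u.primeFactorsList.length : ℝ)) :=
            Real.rpow_lt_rpow_of_exponent_lt hY1 hcon
          rw [Real.rpow_one] at this
          linarith
        have h3 : (u.primeFactorsList.length : ℝ) ≤ 1 / a := by
          rw [le_div_iff₀ ha]; linarith
        have h4 : u.primeFactorsList.length ≤ R := Nat.le_floor h3
        omega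
      · intro i
        have hmem := List.get_mem u.primeFactorsList i
        have hpr := Nat.prime_of_mem_primeFactorsList hmem
        have hdv := Nat.dvd_of_mem_primeFactorsList hmem
        have h5 := hu2 _ hpr hdv
        have h6 : ((u.primeFactorsList.get i : ℕ) : ℝ) ≤ u := by
          exact_mod_cast Nat.le_of_dvd (by omega) hdv
        rw [hS, mem_PrI]
        exact ⟨hpr, by linarith, by linarith⟩
    · simp only [g]
      rw [← List.prod_ofFn]
      have : List.ofFn (fun i => u.primeFactorsList.get i) = u.primeFactorsList := by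
        simp
      rw [this]
      exact Nat.prod_primeFactorsList hu0
  choose! sec hsecT hsecg using hsec
  have hF0 : ∀ z : ℕ, 0 ≤ 1 / (z : ℝ) := fun z => by positivity
  have hinj : Set.InjOn sec ((Icc 1 ⌊Y⌋₊).filter (RoughN (Y ^ a)) : Finset ℕ) := by
    intro u hu v hv h
    rw [← hsecg u hu, ← hsecg v hv, h]
  calc ∑ u ∈ (Icc 1 ⌊Y⌋₊).filter (RoughN (Y ^ a)), 1 / (u : ℝ)
      = ∑ u ∈ (Icc 1 ⌊Y⌋₊).filter (RoughN (Y ^ a)), 1 / (g (sec u) : ℝ) := by
        refine Finset.sum_congr rfl fun u hu => ?_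
        rw [hsecg u hu]
    _ = ∑ t ∈ ((Icc 1 ⌊Y⌋₊).filter (RoughN (Y ^ a))).image sec, 1 / (g t : ℝ) := by
        rw [Finset.sum_image hinj]
    _ ≤ ∑ t ∈ T, 1 / (g t : ℝ) := by
        refine Finset.sum_le_sum_of_subset_of_nonneg ?_ fun t _ _ => hF0 _
        intro t ht
        rw [mem_image] at ht
        obtain ⟨u, hu, rfl⟩ := ht
        exact hsecT u hu
    _ = ∑ t ∈ T, ∏ i, 1 / (t.2 i : ℝ) := by
        refine Finset.sum_congr rfl fun t ht => ?_
        simp only [g]
        rw [Finset.prod_div_distrib, Finset.prod_const_one]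
        push_cast
        rfl
    _ = ∑ r ∈ range (R + 1), lam ^ r := by
        rw [Finset.sum_sigma]
        refine Finset.sum_congr rfl fun r _ => ?_
        have h1 := Finset.prod_univ_sum (fun _ : Fin r => S) (fun _ w => 1 / (w : ℝ))
        rw [Finset.prod_const, Finset.card_univ, Fintype.card_fin] at h1
        exact h1.symm
    _ ≤ ∑ r ∈ range (R + 1), Lam ^ r := by
        refine Finset.sum_le_sum fun r _ => pow_le_pow_left₀ hlam0 hlamL r
    _ ≤ _ := by linarith

end Pool.Agent.SplI
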