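import Pool.Agent.Lib_MP_92ef0c_spi.SieveI
import Pool.Agent.Lib_MP_92ef0c_spi.RoughI
import Pool.Agent.Lib_MP_f1a94e_ecm.ChiN

/-!
# Piece I-DEF: the deficit on primes
-/

set_option autoImplicit false

namespace Pool.Agent.SplI

open Finset

private theorem defi_re_neg (τ : ℝ) (n : ℕ) : (et (-τ) n).re = (et τ n).re := by
  unfold et
  rw [show -((-τ * Real.log n : ℝ) : ℂ) * Complex.I = ((τ * Real.log n : ℝ) : ℂ) * Complex.I by
      push_cast; ring,
    show -((τ * Real.log n : ℝ) : ℂ) * Complex.I = ((-(τ * Real.log n) : ℝ) : ℂ) * Complex.I by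
      push_cast; ring,
    Complex.exp_ofReal_mul_I_re, Complex.exp_ofReal_mul_I_re, Real.cos_neg]

private theorem defi_one (τ : ℝ) : et τ 1 = 1 := by simp [et]

private theorem defi_nonneg (τ : ℝ) (n : ℕ) : 0 ≤ 1 - (et τ n).re := by
  have h1 := Complex.re_le_norm (et τ n)
  rw [norm_et] at h1
  linarith

private theorem defi_list (τ : ℝ) (l : List ℕ) (hl : ∀ p ∈ l, p ≠ 0) :
    et τ l.prod = (l.map (et τ)).prod := by
  induction l with
  | nil => simp [defi_one]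
  | cons a l ih =>
    have h1 : ∀ p ∈ l, p ≠ 0 := fun p hp => hl p (List.mem_cons_of_mem _ hp)
    have h2 : l.prod ≠ 0 := by
      intro h
      rw [List.prod_eq_zero_iff] at h
      exact h1 0 h rfl
    rw [List.prod_cons, et_mul τ (hl a List.mem_cons_self) h2, ih h1, List.map_cons, List.prod_cons]

private theorem defi_len {y : ℝ} (hy : 0 ≤ y) (l : List ℕ) (hl : ∀ p ∈ l, y ≤ (p : ℝ)) :
    y ^ l.length ≤ ((l.prod : ℕ) : ℝ) := by
  induction l with
  | nil => simp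
  | cons a l ih =>
    rw [List.length_cons, List.prod_cons, pow_succ, Nat.cast_mul, mul_comm]
    have h1 := ih fun p hp => hl p (List.mem_cons_of_mem _ hp)
    have h2 := hl a List.mem_cons_self
    exact mul_le_mul h2 h1 (pow_nonneg hy _) (Nat.cast_nonneg _)

open Classical in
/-- pointwise bound -/
private theorem defi_point (τ : ℝ) {a Y : ℝ} (ha : 0 < a) (hY : 1 < Y) {n : ℕ} (hn : n ≠ 0)
    (hnY : (n : ℝ) ≤ Y) (hr : RoughN (Y ^ a) n) :
    1 - (et τ n).re ≤ (1 / a) ^ 2 *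
      ∑ p ∈ (PrI (Y ^ (a / 2)) Y).filter (fun p => p ∣ n), (1 - (et τ p).re) := by
  set l := n.primeFactorsList with hl
  have hprod : l.prod = n := Nat.prod_primeFactorsList hn
  have hpr : ∀ p ∈ l, p.Prime := fun p hp => Nat.prime_of_mem_primeFactorsList hp
  have hdv : ∀ p ∈ l, p ∣ n := fun p hp => Nat.dvd_of_mem_primeFactorsList hp
  have hY0 : 0 ≤ Y ^ a := Real.rpow_nonneg (by linarith) _
  have hlen : (Y ^ a) ^ l.length ≤ (n : ℝ) := by
    have := defi_len hY0 l fun p hp => hr p (hpr p hp) (hdv p hp)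
    rwa [hprod] at this
  have hlen1 : (l.length : ℝ) ≤ 1 / a := by
    have h1 : Y ^ (a * l.length) ≤ Y ^ (1 : ℝ) := by
      rw [Real.rpow_mul (by linarith), Real.rpow_natCast, Real.rpow_one]
      exact hlen.trans hnY
    have h2 := (Real.rpow_le_rpow_left_iff hY).1 h1
    rw [le_div_iff₀ ha]
    linarith
  have hnorm : ∀ z ∈ l.map (et τ), ‖z‖ = 1 := by
    intro z hz
    rw [List.mem_map] at hz
    obtain ⟨p, _, rfl⟩ := hz
    exact norm_et τ p
  have h1 : et τ n = (l.map (et τ)).prod := by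
    rw [← defi_list τ l fun p hp => (hpr p hp).ne_zero, hprod]
  have h2 := Pool.Agent.ECM.one_sub_prod_le (l.map (et τ)) hnorm
  rw [List.length_map, List.map_map] at h2
  have h3 : (l.map ((fun z : ℂ => 1 - z.re) ∘ et τ)).sum =
      ∑ p ∈ l.toFinset, l.count p • (1 - (et τ p).re) := by
    rw [Finset.sum_list_map_count]
    rfl
  have hsub : l.toFinset ⊆ (PrI (Y ^ (a / 2)) Y).filter (fun p => p ∣ n) := by
    intro p hp
    rw [List.mem_toFinset] at hp
    rw [mem_filter, mem_PrI]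
    refine ⟨⟨hpr p hp, ?_, ?_⟩, hdv p hp⟩
    · exact lt_of_lt_of_le (Real.rpow_lt_rpow_of_exponent_lt hY (by linarith))
        (hr p (hpr p hp) (hdv p hp))
    · refine le_trans ?_ hnY
      exact_mod_cast Nat.le_of_dvd (Nat.pos_of_ne_zero hn) (hdv p hp)
  have h4 : ∑ p ∈ l.toFinset, l.count p • (1 - (et τ p).re) ≤
      l.length * ∑ p ∈ (PrI (Y ^ (a / 2)) Y).filter (fun p => p ∣ n), (1 - (et τ p).re) := by
    calc ∑ p ∈ l.toFinset, l.count p • (1 - (et τ p).re) ≤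
          ∑ p ∈ l.toFinset, (l.length : ℝ) * (1 - (et τ p).re) := by
          apply sum_le_sum
          intro p hp
          rw [nsmul_eq_mul]
          apply mul_le_mul_of_nonneg_right _ (defi_nonneg τ p)
          exact_mod_cast List.count_le_length
      _ = l.length * ∑ p ∈ l.toFinset, (1 - (et τ p).re) := by rw [mul_sum]
      _ ≤ _ := by
          apply mul_le_mul_of_nonneg_left _ (Nat.cast_nonneg _)
          exact sum_le_sum_of_subset_of_nonneg hsub (fun p _ _ => defi_nonneg τ p)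
  rw [h1]
  set Sg : ℝ := ∑ p ∈ (PrI (Y ^ (a / 2)) Y).filter (fun p => p ∣ n), (1 - (et τ p).re) with hSg
  have hSg0 : 0 ≤ Sg := sum_nonneg fun p _ => defi_nonneg τ p
  have hl0 : (0 : ℝ) ≤ l.length := Nat.cast_nonneg _
  calc 1 - ((l.map (et τ)).prod).re ≤ l.length * (l.map ((fun z : ℂ => 1 - z.re) ∘ et τ)).sum := h2
    _ ≤ l.length * (l.length * Sg) := by
      apply mul_le_mul_of_nonneg_left _ hl0
      rw [h3]
      exact h4
    _ = (l.length : ℝ) ^ 2 * Sg := by ring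
    _ ≤ (1 / a) ^ 2 * Sg := by
      apply mul_le_mul_of_nonneg_right _ hSg0
      exact pow_le_pow_left₀ hl0 hlen1 2

/-- As `deficit` (Lib_MP_f1a94e_ecm/Deficit.lean). `n` in the sum of `sieve_i` is `p_1 ... p_r`, `r ≤ 1/a`, all `p_i ≥ Y^a`; `1 - Re n^(iτ) ≤ r ∑ (1 - Re p_i^(iτ))` (`one_sub_prod_le`, Lib_MP_f1a94e_ecm/ChiN.lean), hence `c1 ≤ (1/a)² ∑_(Y^a ≤ p ≤ Y) (1 - Re p^(iτ)) ∑_(n rough, p ∣ n) 1/n` and the inner sum is `≤ C / p` (`rough_i`).
(`p = Y^a` exactly costs `O(Y^(-a))`.) -/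
theorem deficit_i (hZS : ZsLogS) : ∃ a c : ℝ, 0 < a ∧ a ≤ 1 / 4 ∧ 0 < c ∧ ∀ A : ℝ, 1 ≤ A → ∃ Y0 : ℝ, 1 < Y0 ∧ ∀ Y : ℝ, Y0 ≤ Y → ∀ τ : ℝ, 1 ≤ |τ| → |τ| ≤ Y ^ A →
    c ≤ ∑ p ∈ PrI (Y ^ a) Y, (1 - (et τ p).re) / (p : ℝ) := by
  classical
  obtain ⟨a, c1, ha, ha4, hc1, hsieve⟩ := sieve_i hZS
  obtain ⟨C, hC, hrough⟩ := rough_i a ha (by linarith)
  refine ⟨a / 2, c1 * a ^ 2 / C, by positivity, by linarith, by positivity, ?_⟩
  intro A hA
  obtain ⟨Y0, hY01, hY0⟩ := hsieve A hA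
  refine ⟨max Y0 ((4 : ℝ) ^ (2 / a)), lt_max_of_lt_left hY01, ?_⟩
  intro Y hY τ hτ1 hτ2
  have hYY0 : Y0 ≤ Y := (le_max_left _ _).trans hY
  have hYY2 : (4 : ℝ) ^ (2 / a) ≤ Y := (le_max_right _ _).trans hY
  have hY1 : 1 < Y := lt_of_lt_of_le hY01 hYY0
  have hs := hY0 Y hYY0 τ hτ1 hτ2
  set UU : Finset ℕ := (Ioc ⌊Y ^ (1 / 2 : ℝ)⌋₊ ⌊Y ^ (3 / 4 : ℝ)⌋₊).filter (RoughN (Y ^ a)) with hUU
  have hUm : ∀ n ∈ UU, n ≠ 0 ∧ (n : ℝ) ≤ Y ∧ RoughN (Y ^ a) n := by
    intro n hn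
    rw [hUU, mem_filter, mem_Ioc] at hn
    obtain ⟨⟨h1, h2⟩, h3⟩ := hn
    have hn0 : n ≠ 0 := by omega
    refine ⟨hn0, ?_, h3⟩
    have h4 : (n : ℝ) ≤ Y ^ (3 / 4 : ℝ) := (Nat.le_floor_iff' hn0).1 h2
    refine h4.trans ?_
    calc Y ^ (3 / 4 : ℝ) ≤ Y ^ (1 : ℝ) := Real.rpow_le_rpow_of_exponent_le hY1.le (by norm_num)
      _ = Y := Real.rpow_one Y
  set QQ : Finset ℕ := PrI (Y ^ (a / 2)) Y with hQQ
  have h1 : ∑ n ∈ UU, (1 / (n : ℝ)) * (1 - (et (-τ) n).re) ≤
      ∑ n ∈ UU, (1 / (n : ℝ)) * ((1 / a) ^ 2 * ∑ p ∈ QQ.filter (fun p => p ∣ n), (1 - (et τ p).re)) := by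
    apply sum_le_sum
    intro n hn
    obtain ⟨hn0, hnY, hr⟩ := hUm n hn
    rw [defi_re_neg]
    exact mul_le_mul_of_nonneg_left (defi_point τ ha hY1 hn0 hnY hr) (by positivity)
  have h2 : ∑ n ∈ UU, (1 / (n : ℝ)) * ((1 / a) ^ 2 * ∑ p ∈ QQ.filter (fun p => p ∣ n), (1 - (et τ p).re)) =
      (1 / a) ^ 2 * ∑ p ∈ QQ, (1 - (et τ p).re) * ∑ n ∈ UU.filter (fun n => p ∣ n), 1 / (n : ℝ) := by
    rw [mul_sum]
    have h3 : ∀ n ∈ UU, (1 / (n : ℝ)) * ((1 / a) ^ 2 * ∑ p ∈ QQ.filter (fun p => p ∣ n), (1 - (et τ p).re)) =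
        ∑ p ∈ QQ, if p ∣ n then (1 / a) ^ 2 * ((1 - (et τ p).re) * (1 / (n : ℝ))) else 0 := by
      intro n _
      rw [sum_filter, mul_sum, mul_sum]
      apply sum_congr rfl
      intro p _
      split_ifs
      · ring
      · ring
    rw [sum_congr rfl h3, sum_comm]
    apply sum_congr rfl
    intro p _
    rw [← sum_filter, mul_sum, mul_sum]
  have h3 : ∀ p ∈ QQ, ∑ n ∈ UU.filter (fun n => p ∣ n), 1 / (n : ℝ) ≤ C / (p : ℝ) := by
    intro p hp
    rw [hQQ, mem_PrI] at hp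
    have hp0 : p ≠ 0 := hp.1.ne_zero
    set R : Finset ℕ := (Icc 1 ⌊Y⌋₊).filter (RoughN (Y ^ a)) with hR
    have hsub : UU.filter (fun n => p ∣ n) ⊆ R.image (fun u => p * u) := by
      intro n hn
      rw [mem_filter] at hn
      obtain ⟨hn1, s, rfl⟩ := hn
      obtain ⟨hn0, hnY, hr⟩ := hUm _ hn1
      rw [mem_image]
      refine ⟨s, ?_, rfl⟩
      have hs0 : s ≠ 0 := right_ne_zero_of_mul hn0
      rw [hR, mem_filter, mem_Icc]
      refine ⟨⟨Nat.pos_of_ne_zero hs0, ?_⟩, ?_⟩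
      · apply Nat.le_floor
        refine le_trans ?_ hnY
        have : s ≤ p * s := Nat.le_mul_of_pos_left s hp.1.pos
        exact_mod_cast this
      · intro q hq hqs
        exact hr q hq (Dvd.dvd.mul_left hqs p)
    calc ∑ n ∈ UU.filter (fun n => p ∣ n), 1 / (n : ℝ) ≤ ∑ n ∈ R.image (fun u => p * u), 1 / (n : ℝ) :=
          sum_le_sum_of_subset_of_nonneg hsub (fun u _ _ => by positivity)
      _ = ∑ u ∈ R, 1 / ((p * u : ℕ) : ℝ) := by
          rw [sum_image]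
          intro u _ v _ h
          exact Nat.eq_of_mul_eq_mul_left hp.1.pos h
      _ = (1 / (p : ℝ)) * ∑ u ∈ R, 1 / (u : ℝ) := by
          rw [mul_sum]
          apply sum_congr rfl
          intro u _
          push_cast
          rw [one_div_mul_one_div]
      _ ≤ (1 / (p : ℝ)) * C := mul_le_mul_of_nonneg_left (hrough Y hYY2) (by positivity)
      _ = C / (p : ℝ) := by ring
  have h4 : ∑ p ∈ QQ, (1 - (et τ p).re) * ∑ n ∈ UU.filter (fun n => p ∣ n), 1 / (n : ℝ) ≤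
      C * ∑ p ∈ QQ, (1 - (et τ p).re) / (p : ℝ) := by
    rw [mul_sum]
    apply sum_le_sum
    intro p hp
    calc (1 - (et τ p).re) * ∑ n ∈ UU.filter (fun n => p ∣ n), 1 / (n : ℝ) ≤
          (1 - (et τ p).re) * (C / (p : ℝ)) :=
        mul_le_mul_of_nonneg_left (h3 p hp) (defi_nonneg τ p)
      _ = _ := by ring
  have h6 : c1 ≤ (1 / a) ^ 2 * (C * ∑ p ∈ QQ, (1 - (et τ p).re) / (p : ℝ)) := by
    calc c1 ≤ _ := hs
      _ ≤ _ := h1
      _ = _ := h2
      _ ≤ _ := mul_le_mul_of_nonneg_left h4 (by positivity)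
  set T : ℝ := ∑ p ∈ QQ, (1 - (et τ p).re) / (p : ℝ) with hT
  show c1 * a ^ 2 / C ≤ T
  rw [div_le_iff₀ hC]
  have h9 : (1 / a) ^ 2 * (C * T) * a ^ 2 = T * C := by
    field_simp
  rw [← h9]
  exact mul_le_mul_of_nonneg_right h6 (sq_nonneg a)

private theorem defi_term (τ : ℝ) (p : ℕ) : 0 ≤ (1 - (et τ p).re) / (p : ℝ) :=
  div_nonneg (defi_nonneg τ p) (Nat.cast_nonneg _)

/-- Iterate over the disjoint ranges `(Y_j^a, Y_j]`, `Y_j = exp (e a^j S)`, `j < J`, `J` maximal with `e a^J ≥ e'`; `|τ| ≤ exp (A S) ≤ Y_j^(A/e')`. `J ≥ log (e/e') / log (1/a) - 1`, and `Lr ≤ log (e/e') + C ≤ 2 log (e/e')` (`Lr_bounds`) for `log (e/e') ≥ L1`. (As `deficit_range`, Lib_MP_f1a94e_ecm/RangeA.lean.) -/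
theorem def_range_i (hZS : ZsLogS) : ∃ c L1 : ℝ, 0 < c ∧ 0 < L1 ∧ ∀ e' e : ℝ, 0 < e' → e' < e → e ≤ 1 → L1 ≤ Real.log (e / e') → ∀ A : ℝ, 1 ≤ A → ∃ S0 : ℝ, 0 < S0 ∧
    ∀ S : ℝ, S0 ≤ S → ∀ τ : ℝ, 1 ≤ |τ| → |τ| ≤ Real.exp (A * S) →
    c * Lr (Real.exp (e' * S)) (Real.exp (e * S)) ≤ ∑ p ∈ PrI (Real.exp (e' * S)) (Real.exp (e * S)), (1 - (et τ p).re) / (p : ℝ) := by
  classical
  obtain ⟨a, c, ha, ha4, hc, hdef⟩ := deficit_i hZS
  obtain ⟨C, hC, hLr⟩ := Lr_bounds
  have hla : 0 < Real.log (1 / a) := by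
    apply Real.log_pos
    rw [lt_div_iff₀ ha]
    linarith
  refine ⟨c / (4 * Real.log (1 / a)), 2 * Real.log (1 / a) + C, by positivity, by positivity, ?_⟩
  intro e' e he' hee he1 hL A hA
  have he : 0 < e := he'.trans hee
  have hA' : 1 ≤ A / e' := by
    rw [le_div_iff₀ he']
    linarith
  obtain ⟨Y0, hY01, hY0⟩ := hdef (A / e') hA'
  have hY00 : 0 < Y0 := by linarith
  have hlY0 : 0 < Real.log Y0 := Real.log_pos hY01
  refine ⟨max (Real.log Y0 / e') (Real.log 2 / e'), lt_max_of_lt_left (by positivity), ?_⟩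
  intro S hS τ hτ1 hτ2
  have hS1 : Real.log Y0 ≤ e' * S := by
    have := (le_max_left _ _).trans hS
    rw [div_le_iff₀ he'] at this
    linarith
  have hS2 : Real.log 2 ≤ e' * S := by
    have := (le_max_right _ _).trans hS
    rw [div_le_iff₀ he'] at this
    linarith
  have hS0 : 0 < S := by
    have h1 : 0 < e' * S := lt_of_lt_of_le hlY0 hS1
    exact (mul_pos_iff_of_pos_left he').1 h1
  -- one range
  have hone : ∀ b : ℝ, e' ≤ b → c ≤ ∑ p ∈ PrI (Real.exp (b * a * S)) (Real.exp (b * S)), (1 - (et τ p).re) / (p : ℝ) := by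
    intro b hb
    have hb0 : 0 < b := he'.trans_le hb
    have h1 : Real.exp (b * a * S) = (Real.exp (b * S)) ^ a := by
      rw [← Real.exp_mul]
      congr 1
      ring
    rw [h1]
    apply hY0 (Real.exp (b * S)) _ τ hτ1
    · refine hτ2.trans ?_
      rw [← Real.exp_mul, Real.exp_le_exp]
      have h2 : A * S * 1 ≤ A * S * (b / e') := by
        apply mul_le_mul_of_nonneg_left _ (by positivity)
        rwa [one_le_div₀ he']
      calc A * S = A * S * 1 := by ring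
        _ ≤ A * S * (b / e') := h2
        _ = b * S * (A / e') := by ring
    · rw [← Real.log_le_iff_le_exp hY00]
      refine hS1.trans ?_
      exact mul_le_mul_of_nonneg_right hb hS0.le
  have hmono : ∀ J : ℕ, e' ≤ e * a ^ J →
      (J : ℝ) * c ≤ ∑ p ∈ PrI (Real.exp (e * a ^ J * S)) (Real.exp (e * S)), (1 - (et τ p).re) / (p : ℝ) := by
    intro J
    induction J with
    | zero =>
      intro _
      simp only [Nat.cast_zero, zero_mul]
      exact Finset.sum_nonneg fun p _ => defi_term τ p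
    | succ J ih =>
      intro hJ
      have h1 : e * a ^ (J + 1) ≤ e * a ^ J := by
        rw [pow_succ]
        have : e * (a ^ J * a) ≤ e * (a ^ J * 1) := by
          gcongr
          linarith
        simpa using this
      have h2 : e' ≤ e * a ^ J := hJ.trans h1
      have h3 := ih h2
      have h4 := hone (e * a ^ J) h2
      have h5 : e * a ^ J * a = e * a ^ (J + 1) := by ring
      rw [h5] at h4
      have hdisj : Disjoint (PrI (Real.exp (e * a ^ (J + 1) * S)) (Real.exp (e * a ^ J * S)))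
          (PrI (Real.exp (e * a ^ J * S)) (Real.exp (e * S))) := by
        rw [Finset.disjoint_left]
        intro w hw hw'
        have e1 := (mem_PrI.1 hw).2.2
        have e2 := (mem_PrI.1 hw').2.1
        linarith
      have hsub : PrI (Real.exp (e * a ^ (J + 1) * S)) (Real.exp (e * a ^ J * S)) ∪
          PrI (Real.exp (e * a ^ J * S)) (Real.exp (e * S)) ⊆
          PrI (Real.exp (e * a ^ (J + 1) * S)) (Real.exp (e * S)) := by
        intro w hw
        rw [Finset.mem_union] at hw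
        rcases hw with hw | hw
        · rw [mem_PrI] at hw ⊢
          refine ⟨hw.1, hw.2.1, hw.2.2.trans ?_⟩
          rw [Real.exp_le_exp]
          have h6 : a ^ J ≤ 1 := pow_le_one₀ ha.le (by linarith)
          apply mul_le_mul_of_nonneg_right _ hS0.le
          nlinarith
        · rw [mem_PrI] at hw ⊢
          refine ⟨hw.1, lt_of_le_of_lt ?_ hw.2.1, hw.2.2⟩
          rw [Real.exp_le_exp]
          exact mul_le_mul_of_nonneg_right h1 hS0.le
      calc ((J + 1 : ℕ) : ℝ) * c = c + (J : ℝ) * c := by push_cast; ring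
        _ ≤ ∑ p ∈ PrI (Real.exp (e * a ^ (J + 1) * S)) (Real.exp (e * a ^ J * S)), (1 - (et τ p).re) / (p : ℝ) +
            ∑ p ∈ PrI (Real.exp (e * a ^ J * S)) (Real.exp (e * S)), (1 - (et τ p).re) / (p : ℝ) := add_le_add h4 h3
        _ = ∑ p ∈ PrI (Real.exp (e * a ^ (J + 1) * S)) (Real.exp (e * a ^ J * S)) ∪
            PrI (Real.exp (e * a ^ J * S)) (Real.exp (e * S)), (1 - (et τ p).re) / (p : ℝ) :=
            (Finset.sum_union hdisj).symm
        _ ≤ _ := Finset.sum_le_sum_of_subset_of_nonneg hsub fun p _ _ => defi_term τ p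
  -- choice of J
  set L := Real.log (e / e') with hLdef
  set J : ℕ := ⌊L / Real.log (1 / a)⌋₊ with hJ
  have hL2 : 2 * Real.log (1 / a) ≤ L := by linarith
  have hLC : C ≤ L := by linarith
  have hL0 : 0 ≤ L := (by positivity : (0 : ℝ) ≤ 2 * Real.log (1 / a)).trans hL2
  have hJle : (J : ℝ) ≤ L / Real.log (1 / a) := Nat.floor_le (by positivity)
  have hJge : L / Real.log (1 / a) < J + 1 := Nat.lt_floor_add_one _
  have hJe : e' ≤ e * a ^ J := by
    have h1 : (J : ℝ) * Real.log (1 / a) ≤ L := by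
      rwa [le_div_iff₀ hla] at hJle
    have h2 : Real.log (1 / a) = - Real.log a := by rw [one_div, Real.log_inv]
    rw [h2] at h1
    have h3 : Real.log (e' / e) ≤ Real.log (a ^ J) := by
      rw [Real.log_pow]
      have h4 : Real.log (e' / e) = - L := by
        rw [hLdef, ← Real.log_inv, inv_div]
      rw [h4]
      linarith
    have h4 : e' / e ≤ a ^ J := (Real.log_le_log_iff (by positivity) (by positivity)).1 h3
    rw [div_le_iff₀ he] at h4
    linarith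
  have h1 := hmono J hJe
  have hsub : PrI (Real.exp (e * a ^ J * S)) (Real.exp (e * S)) ⊆
      PrI (Real.exp (e' * S)) (Real.exp (e * S)) := by
    intro w hw
    rw [mem_PrI] at hw ⊢
    refine ⟨hw.1, lt_of_le_of_lt ?_ hw.2.1, hw.2.2⟩
    rw [Real.exp_le_exp]
    exact mul_le_mul_of_nonneg_right hJe hS0.le
  have h2 : ∑ p ∈ PrI (Real.exp (e * a ^ J * S)) (Real.exp (e * S)), (1 - (et τ p).re) / (p : ℝ) ≤
      ∑ p ∈ PrI (Real.exp (e' * S)) (Real.exp (e * S)), (1 - (et τ p).re) / (p : ℝ) :=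
    Finset.sum_le_sum_of_subset_of_nonneg hsub fun p _ _ => defi_term τ p
  -- the bound for `Lr`
  have hLr1 : Lr (Real.exp (e' * S)) (Real.exp (e * S)) ≤ 2 * L := by
    have h3 : (2 : ℝ) ≤ Real.exp (e' * S) := (Real.log_le_iff_le_exp (by norm_num)).1 hS2
    have h4 : Real.exp (e' * S) ≤ Real.exp (e * S) := by
      rw [Real.exp_le_exp]
      exact mul_le_mul_of_nonneg_right hee.le hS0.le
    have h5 := (abs_le.1 (hLr _ _ h3 h4)).2
    rw [Real.log_exp, Real.log_exp, Real.log_mul he.ne' hS0.ne', Real.log_mul he'.ne' hS0.ne'] at h5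
    have h6 : L = Real.log e - Real.log e' := Real.log_div he.ne' he'.ne'
    linarith
  have h3 : c / (4 * Real.log (1 / a)) * Lr (Real.exp (e' * S)) (Real.exp (e * S)) ≤ (J : ℝ) * c := by
    have h4 : L / Real.log (1 / a) - 1 ≤ J := by linarith
    have h5 : 1 ≤ L / (2 * Real.log (1 / a)) := by
      rw [le_div_iff₀ (by positivity), one_mul]
      exact hL2
    have h6 : L / Real.log (1 / a) = 2 * (L / (2 * Real.log (1 / a))) := by
      field_simp
    have h7 : L / (2 * Real.log (1 / a)) ≤ J := by linarith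
    calc c / (4 * Real.log (1 / a)) * Lr (Real.exp (e' * S)) (Real.exp (e * S)) ≤
          c / (4 * Real.log (1 / a)) * (2 * L) := mul_le_mul_of_nonneg_left hLr1 (by positivity)
      _ = c * (L / (2 * Real.log (1 / a))) := by field_simp; ring
      _ ≤ c * J := mul_le_mul_of_nonneg_left h7 hc.le
      _ = _ := by ring
  exact h3.trans (h1.trans h2)

end Pool.Agent.SplI
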