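import Pool.Agent.Lib_MP_92ef0c_spi.Near
import Pool.Agent.Lib_MP_92ef0c_spi.DefI

/-!
# Piece I-NONPRET: z^Ω χ is not close to n^(it)
-/

set_option autoImplicit false

namespace Pool.Agent.SplI

open Finset

private theorem npi_pow (u : ℂ) (hu : ‖u‖ = 1) (n : ℕ) :
    1 - (u ^ n).re ≤ (n : ℝ) ^ 2 * (1 - u.re) := by
  have h := Pool.Agent.ECM.one_sub_prod_le (List.replicate n u) (by
    intro z hz
    rw [List.eq_of_mem_replicate hz]
    exact hu)
  rw [List.prod_replicate, List.length_replicate, List.map_replicate, List.sum_replicate,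
    nsmul_eq_mul] at h
  calc 1 - (u ^ n).re ≤ (n : ℝ) * ((n : ℝ) * (1 - u.re)) := h
    _ = (n : ℝ) ^ 2 * (1 - u.re) := by ring

private theorem npi_et_pow (t : ℝ) (p n : ℕ) : (et t p) ^ n = et (n * t) p := by
  unfold et
  rw [← Complex.exp_nat_mul]
  congr 1
  push_cast
  ring

private theorem npi_prime (z : ℂ) (M : ℕ) (χ : DirichletCharacter ℂ M) {p : ℕ} (hp : p.Prime) :
    fzc z M χ p = z * χ ((p : ℕ) : ZMod M) := by
  unfold fzc
  rw [ArithmeticFunction.cardFactors_apply_prime hp, pow_one]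

private theorem npi_chi (M : ℕ) [NeZero M] (χ : DirichletCharacter ℂ M) {p : ℕ} (hp : p.Prime)
    (hM : M < p) : (χ ((p : ℕ) : ZMod M)) ^ M.totient = 1 := by
  have hc : Nat.Coprime p M := by
    rw [Nat.Prime.coprime_iff_not_dvd hp]
    intro h
    have := Nat.le_of_dvd (NeZero.pos M) h
    omega
  have hu : IsUnit ((p : ℕ) : ZMod M) := (ZMod.isUnit_iff_coprime p M).2 hc
  obtain ⟨v, hv⟩ := hu
  rw [← hv, ← map_pow, ← Units.val_pow_eq_pow_val, ZMod.pow_totient, Units.val_one, map_one]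

private theorem npi_Lr_nonneg (P Q : ℝ) : 0 ≤ Lr P Q := by
  unfold Lr
  exact sum_nonneg fun p _ => by positivity

/-- `fzc z M χ p = z χ(p)` for primes. `|t| ≤ 1`: `near_i` (`L0` large makes `C ≤ (c/2) Lr`, `Lr_bounds`). `|t| ≥ 1`: `q1 = q φ(M)`: for `p ∤ M` the number `u = z χ(p) et t p` has modulus 1 and `u^q1 = et (q1 t) p`; `1 - Re u^n ≤ n² (1 - Re u)` for `‖u‖ = 1`
(`|1 - u^n| ≤ n |1 - u|`, `|1 - u|² = 2 (1 - Re u)`); `def_range_i` with `τ = q1 t`, `A = 5`. All `p > exp (e' S) > M`. -/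
theorem nonpret_i (hZS : ZsLogS) (q : ℕ) (hq : 0 < q) (z : ℂ) (hz : z ^ q = 1) (hz1 : z ≠ 1) (M : ℕ) [NeZero M] (χ : DirichletCharacter ℂ M) :
    ∃ c0 L0 : ℝ, 0 < c0 ∧ ∀ e' e : ℝ, 0 < e' → e' < e → e ≤ 1 → L0 ≤ Real.log (e / e') → ∃ S0 : ℝ, 0 < S0 ∧ ∀ S : ℝ, S0 ≤ S → ∀ t : ℝ,
    |t| ≤ Real.exp (4 * S) → c0 * Lr (Real.exp (e' * S)) (Real.exp (e * S)) ≤
      ∑ p ∈ PrI (Real.exp (e' * S)) (Real.exp (e * S)), (1 - (fzc z M χ p * et t p).re) / (p : ℝ) := by
  classical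
  have hznorm : ‖z‖ = 1 := Complex.norm_eq_one_of_pow_eq_one hz hq.ne'
  obtain ⟨c, C, hc, hnear⟩ := near_i z hznorm hz1 M χ
  obtain ⟨C2, hC2, hLr⟩ := Lr_bounds
  obtain ⟨c1, L1, hc1, hL1, hdef⟩ := def_range_i hZS
  set n : ℕ := q * M.totient with hn
  have hn0 : 0 < n := Nat.mul_pos hq (Nat.totient_pos.2 (NeZero.pos M))
  have hnr : (1 : ℝ) ≤ (n : ℝ) := by exact_mod_cast hn0
  have hn2 : (0 : ℝ) < (n : ℝ) ^ 2 := by positivity
  refine ⟨min (c / 2) (c1 / (n : ℝ) ^ 2), max L1 (C2 + 2 * |C| / c),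
    lt_min (by positivity) (by positivity), fun e' e he' hee he1 hL => ?_⟩
  have he : 0 < e := he'.trans hee
  obtain ⟨S1, hS1, hdefS⟩ := hdef e' e he' hee he1 ((le_max_left _ _).trans hL) 5 (by norm_num)
  refine ⟨max S1 (max (2 / e') (max (Real.log n) (((M : ℝ) + 1) / e'))), ?_, fun S hS t ht => ?_⟩
  · exact lt_max_of_lt_left hS1
  have hSS1 : S1 ≤ S := (le_max_left _ _).trans hS
  have hS2 : 2 / e' ≤ S := (le_max_left _ _).trans ((le_max_right _ _).trans hS)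
  have hS3 : Real.log n ≤ S :=
    (le_max_left _ _).trans ((le_max_right _ _).trans ((le_max_right _ _).trans hS))
  have hS4 : ((M : ℝ) + 1) / e' ≤ S :=
    (le_max_right _ _).trans ((le_max_right _ _).trans ((le_max_right _ _).trans hS))
  have hS0 : 0 < S := hS1.trans_le hSS1
  have hP3 : 3 ≤ Real.exp (e' * S) := by
    rw [div_le_iff₀ he'] at hS2
    have := Real.add_one_le_exp (e' * S)
    nlinarith
  have hPM : (M : ℝ) < Real.exp (e' * S) := by
    rw [div_le_iff₀ he'] at hS4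
    have := Real.add_one_le_exp (e' * S)
    nlinarith
  have hPQ : Real.exp (e' * S) ≤ Real.exp (e * S) :=
    Real.exp_le_exp.2 (mul_le_mul_of_nonneg_right hee.le hS0.le)
  set P := Real.exp (e' * S) with hP
  set Q := Real.exp (e * S) with hQ
  have hLnn := npi_Lr_nonneg P Q
  rcases le_total |t| 1 with ht1 | ht1
  · have h1 := hnear P Q hP3 hPQ t ht1
    have hb := (abs_le.1 (hLr P Q (by linarith) hPQ)).1
    have hlog : Real.log (Real.log Q) - Real.log (Real.log P) = Real.log (e / e') := by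
      rw [hP, hQ, Real.log_exp, Real.log_exp, Real.log_mul he.ne' hS0.ne',
        Real.log_mul he'.ne' hS0.ne', Real.log_div he.ne' he'.ne']
      ring
    rw [hlog] at hb
    have hL2 : C2 + 2 * |C| / c ≤ Real.log (e / e') := (le_max_right _ _).trans hL
    have h2 : 2 * |C| / c ≤ Lr P Q := by linarith
    rw [div_le_iff₀ hc] at h2
    have h3 := le_abs_self C
    have h4 : min (c / 2) (c1 / (n : ℝ) ^ 2) * Lr P Q ≤ c / 2 * Lr P Q :=
      mul_le_mul_of_nonneg_right (min_le_left _ _) hLnn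
    have h5 : ∑ p ∈ PrI P Q, (1 - (fzc z M χ p * et t p).re) / (p : ℝ) =
        ∑ p ∈ PrI P Q, (1 - (z * χ ((p : ℕ) : ZMod M) * et t p).re) / (p : ℝ) := by
      refine sum_congr rfl fun p hp => ?_
      rw [npi_prime z M χ (mem_PrI.1 hp).1]
    rw [h5]
    nlinarith
  · have hτ1 : 1 ≤ |(n : ℝ) * t| := by
      rw [abs_mul, abs_of_nonneg (by linarith)]
      nlinarith
    have hτ2 : |(n : ℝ) * t| ≤ Real.exp (5 * S) := by
      rw [abs_mul, abs_of_nonneg (by linarith)]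
      have h1 : (n : ℝ) ≤ Real.exp S := by
        rw [← Real.exp_log (show (0 : ℝ) < n by linarith)]
        exact Real.exp_le_exp.2 hS3
      calc (n : ℝ) * |t| ≤ Real.exp S * Real.exp (4 * S) :=
            mul_le_mul h1 ht (abs_nonneg _) (Real.exp_pos _).le
        _ = Real.exp (5 * S) := by rw [← Real.exp_add]; congr 1; ring
    have h1 := hdefS S hSS1 ((n : ℝ) * t) hτ1 hτ2
    rw [← hP, ← hQ] at h1
    have h2 : ∑ p ∈ PrI P Q, (1 - (et ((n : ℝ) * t) p).re) / (p : ℝ) ≤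
        (n : ℝ) ^ 2 * ∑ p ∈ PrI P Q, (1 - (fzc z M χ p * et t p).re) / (p : ℝ) := by
      rw [mul_sum]
      refine sum_le_sum fun p hp => ?_
      obtain ⟨hpp, hpP, -⟩ := mem_PrI.1 hp
      have hMp : M < p := by
        have : (M : ℝ) < (p : ℝ) := hPM.trans hpP
        exact_mod_cast this
      have hp0 : (0 : ℝ) < (p : ℝ) := by exact_mod_cast hpp.pos
      have hchi := npi_chi M χ hpp hMp
      have hu1 : ‖fzc z M χ p * et t p‖ = 1 := by
        rw [npi_prime z M χ hpp, norm_mul, norm_mul, hznorm, norm_et, one_mul, mul_one]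
        exact Complex.norm_eq_one_of_pow_eq_one hchi (Nat.totient_pos.2 (NeZero.pos M)).ne'
      have hu2 : (fzc z M χ p * et t p) ^ n = et ((n : ℝ) * t) p := by
        rw [mul_pow, npi_et_pow, npi_prime z M χ hpp, mul_pow, hn, pow_mul z q, hz, one_pow,
          one_mul, mul_comm q, pow_mul, hchi, one_pow, one_mul]
      have h3 := npi_pow _ hu1 n
      rw [hu2] at h3
      rw [← mul_div_assoc]
      exact div_le_div_of_nonneg_right h3 hp0.le
    have h4 : min (c / 2) (c1 / (n : ℝ) ^ 2) * Lr P Q ≤ c1 / (n : ℝ) ^ 2 * Lr P Q :=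
      mul_le_mul_of_nonneg_right (min_le_right _ _) hLnn
    have h5 : c1 / (n : ℝ) ^ 2 * Lr P Q =
        (c1 * Lr P Q) / (n : ℝ) ^ 2 := by ring
    have h6 : (c1 * Lr P Q) / (n : ℝ) ^ 2 ≤
        ∑ p ∈ PrI P Q, (1 - (fzc z M χ p * et t p).re) / (p : ℝ) := by
      rw [div_le_iff₀ hn2]
      linarith
    linarith

end Pool.Agent.SplI
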