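import Pool.Agent.Lib_MP_92ef0c_spi.TKI

/-!
# Piece I-CONV: slow variation and convolution identity
-/

set_option autoImplicit false

namespace Pool.Agent.SplI

open Finset

private theorem sf_bd (f : ℕ → ℂ) (hf : CF f) (N : ℝ) (hN : 0 ≤ N) : ‖Sf f N‖ ≤ N := by
  unfold Sf
  calc ‖∑ n ∈ Icc 1 ⌊N⌋₊, f n‖ ≤ ∑ n ∈ Icc 1 ⌊N⌋₊, ‖f n‖ := norm_sum_le _ _
    _ ≤ ∑ n ∈ Icc 1 ⌊N⌋₊, (1:ℝ) := Finset.sum_le_sum (fun n _ => hf.le n)
    _ = (⌊N⌋₊ : ℝ) := by simp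
    _ ≤ N := Nat.floor_le hN

theorem ai_bd (f : ℕ → ℂ) (hf : CF f) (s : ℝ) (hs : 0 ≤ s) : ‖Ai f s‖ ≤ 1 := by
  unfold Ai
  rw [norm_mul, Complex.norm_real, Real.norm_of_nonneg (Real.exp_pos _).le]
  calc Real.exp (-s) * ‖Sf f (Real.exp s)‖ ≤ Real.exp (-s) * Real.exp s :=
        mul_le_mul_of_nonneg_left (sf_bd f hf _ (Real.exp_pos s).le) (Real.exp_pos _).le
    _ = 1 := by rw [← Real.exp_add]; simp

private theorem sf_diff (f : ℕ → ℂ) (hf : CF f) (A B : ℝ) (hA : 0 ≤ A) (hAB : A ≤ B) :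
    ‖Sf f B - Sf f A‖ ≤ B - A + 1 := by
  have hfl : ⌊A⌋₊ ≤ ⌊B⌋₊ := Nat.floor_le_floor hAB
  have e : Sf f B - Sf f A = ∑ n ∈ Ioc ⌊A⌋₊ ⌊B⌋₊, f n := by
    unfold Sf
    have h1 : ∀ k : ℕ, ∑ n ∈ Icc 1 k, f n = ∑ n ∈ Ioc 0 k, f n := fun k => rfl
    rw [h1, h1, ← Finset.sum_Ioc_consecutive f (Nat.zero_le ⌊A⌋₊) hfl]
    ring
  rw [e]
  calc ‖∑ n ∈ Ioc ⌊A⌋₊ ⌊B⌋₊, f n‖ ≤ ∑ n ∈ Ioc ⌊A⌋₊ ⌊B⌋₊, ‖f n‖ := norm_sum_le _ _
    _ ≤ ∑ n ∈ Ioc ⌊A⌋₊ ⌊B⌋₊, (1:ℝ) := Finset.sum_le_sum (fun n _ => hf.le n)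
    _ = ((⌊B⌋₊ - ⌊A⌋₊ : ℕ) : ℝ) := by simp
    _ = (⌊B⌋₊ : ℝ) - (⌊A⌋₊ : ℝ) := by rw [Nat.cast_sub hfl]
    _ ≤ B - A + 1 := by
        have h1 := Nat.floor_le (hA.trans hAB)
        have h2 := Nat.lt_floor_add_one A
        linarith

/-- `Ai f (s+h) - Ai f s = (exp (-h) - 1) Ai f s + exp (-s-h) ∑_(exp s < n ≤ exp (s+h)) f n`; the last sum has at most `exp s (exp h - 1) + 1 ≤ 2 h exp s + 1` terms. -/
theorem ai_lip (f : ℕ → ℂ) (hf : CF f) (s h : ℝ) (hs : 0 ≤ s) (hh : 0 ≤ h) (hh1 : h ≤ 1) :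
    ‖Ai f (s + h) - Ai f s‖ ≤ 4 * (h + Real.exp (-s)) := by
  have e : Ai f (s + h) - Ai f s = ((Real.exp (-h) - 1 : ℝ) : ℂ) * Ai f s
      + ((Real.exp (-(s + h)) : ℝ) : ℂ) * (Sf f (Real.exp (s + h)) - Sf f (Real.exp s)) := by
    unfold Ai
    have : ((Real.exp (-(s + h)) : ℝ) : ℂ) = ((Real.exp (-h) : ℝ) : ℂ) * ((Real.exp (-s) : ℝ) : ℂ) := by
      rw [← Complex.ofReal_mul, ← Real.exp_add]
      congr 2
      ring
    rw [this]
    push_cast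
    ring
  rw [e]
  have h1 : |Real.exp (-h) - 1| ≤ h := by
    rw [abs_le]
    have h2 := Real.add_one_le_exp (-h)
    have h3 : Real.exp (-h) ≤ 1 := Real.exp_le_one_iff.2 (by linarith)
    constructor <;> linarith
  have h4 : Real.exp (-(s + h)) * (Real.exp (s + h) - Real.exp s + 1) ≤ h + Real.exp (-s) := by
    have e1 : Real.exp (-(s + h)) * Real.exp (s + h) = 1 := by rw [← Real.exp_add]; simp
    have e2 : Real.exp (-(s + h)) * Real.exp s = Real.exp (-h) := by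
      rw [← Real.exp_add]; congr 1; ring
    have e3 : Real.exp (-(s + h)) ≤ Real.exp (-s) := Real.exp_le_exp.2 (by linarith)
    have h2 := Real.add_one_le_exp (-h)
    nlinarith
  have h5 : ‖Sf f (Real.exp (s + h)) - Sf f (Real.exp s)‖ ≤ Real.exp (s + h) - Real.exp s + 1 :=
    sf_diff f hf _ _ (Real.exp_pos s).le (Real.exp_le_exp.2 (by linarith))
  calc _ ≤ ‖((Real.exp (-h) - 1 : ℝ) : ℂ) * Ai f s‖
        + ‖((Real.exp (-(s + h)) : ℝ) : ℂ) * (Sf f (Real.exp (s + h)) - Sf f (Real.exp s))‖ := norm_add_le _ _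
    _ ≤ h * 1 + (h + Real.exp (-s)) := by
        rw [norm_mul, norm_mul, Complex.norm_real, Complex.norm_real, Real.norm_eq_abs,
          Real.norm_of_nonneg (Real.exp_pos (-(s + h))).le]
        apply add_le_add
        · exact mul_le_mul h1 (ai_bd f hf s hs) (norm_nonneg _) hh
        · exact (mul_le_mul_of_nonneg_left h5 (Real.exp_pos _).le).trans h4
    _ ≤ 4 * (h + Real.exp (-s)) := by
        have := Real.exp_pos (-s)
        linarith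

private theorem conv_id (f : ℕ → ℂ) (hf : CF f) (P Q N : ℝ) (hN : 0 ≤ N) :
    ∑ n ∈ Icc 1 ⌊N⌋₊, f n * ((omI P Q n : ℝ) : ℂ) = ∑ p ∈ PrI P Q, f p * Sf f (N / p) := by
  have e1 : ∀ n ∈ Icc 1 ⌊N⌋₊, f n * ((omI P Q n : ℝ) : ℂ)
      = ∑ p ∈ PrI P Q, (if p ∣ n then f n else 0) := by
    intro n _
    unfold omI
    rw [← Finset.sum_filter, Finset.sum_const, nsmul_eq_mul]
    push_cast
    ring
  rw [Finset.sum_congr rfl e1, Finset.sum_comm]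
  apply Finset.sum_congr rfl
  intro p hp
  have hpp : p.Prime := (mem_PrI.1 hp).1
  unfold Sf
  rw [Finset.mul_sum, ← Finset.sum_filter]
  have hfl : ⌊N / p⌋₊ = ⌊N⌋₊ / p := Nat.floor_div_natCast N p
  rw [hfl]
  symm
  apply Finset.sum_bij (fun m _ => p * m)
  · intro m hm
    rw [mem_Icc] at hm
    rw [mem_filter, mem_Icc]
    refine ⟨⟨?_, ?_⟩, dvd_mul_right p m⟩
    · exact Nat.succ_le_of_lt (Nat.mul_pos hpp.pos (by omega))
    · calc p * m ≤ p * (⌊N⌋₊ / p) := Nat.mul_le_mul_left p hm.2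
        _ ≤ ⌊N⌋₊ := Nat.mul_div_le _ _
  · intro a _ b _ hab
    exact Nat.eq_of_mul_eq_mul_left hpp.pos hab
  · intro n hn
    rw [mem_filter, mem_Icc] at hn
    obtain ⟨⟨hn1, hn2⟩, m, rfl⟩ := hn
    refine ⟨m, ?_, rfl⟩
    rw [mem_Icc]
    refine ⟨?_, ?_⟩
    · rcases Nat.eq_zero_or_pos m with h | h
      · subst h; simp at hn1
      · exact h
    · rw [Nat.le_div_iff_mul_le hpp.pos]
      rw [mul_comm]; exact hn2
  · intro m hm
    rw [mem_Icc] at hm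
    rw [hf.mul p m hpp.ne_zero (by omega)]

/-- `N = exp s`. `∑_(n ≤ N) f n omI n = ∑_p ∑_(m ≤ N/p) f (p m) = ∑_p f p Sf f (N / p)` exactly, and `|∑ f n (omI n - L)| ≤ N^(1/2) (C N (L + 1))^(1/2)` by Cauchy-Schwarz and `tki`. Divide by `N L`; `exp (-s) Sf f (exp s / p) = Ai f (s - log p) / p`. -/
theorem ai_conv : ∃ C : ℝ, 0 < C ∧ ∀ P Q s : ℝ, 2 ≤ P → P ≤ Q → Q ^ 2 ≤ Real.exp s → 1 ≤ Lr P Q → ∀ f : ℕ → ℂ, CF f →
    ‖Ai f s - ((1 / Lr P Q : ℝ) : ℂ) * ∑ p ∈ PrI P Q, f p / (p : ℂ) * Ai f (s - Real.log p)‖ ≤ C / Real.sqrt (Lr P Q) := by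
  obtain ⟨C, hC, htk⟩ := tki
  refine ⟨Real.sqrt (2 * C), Real.sqrt_pos.2 (by linarith), fun P Q s hP hPQ hQs hL f hf => ?_⟩
  set L := Lr P Q with hLdef
  set N := Real.exp s with hN
  have hN0 : 0 < N := Real.exp_pos s
  have hL0 : 0 < L := by linarith
  have e1 : ∀ p ∈ PrI P Q, f p / (p : ℂ) * Ai f (s - Real.log p)
      = ((Real.exp (-s) : ℝ) : ℂ) * (f p * Sf f (N / p)) := by
    intro p hp
    have hp0 : (0:ℝ) < p := by exact_mod_cast (mem_PrI.1 hp).1.pos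
    have hpc : (p : ℂ) ≠ 0 := by exact_mod_cast hp0.ne'
    unfold Ai
    have h1 : Real.exp (s - Real.log p) = N / p := by
      rw [Real.exp_sub, Real.exp_log hp0]
    have h2 : Real.exp (-(s - Real.log p)) = p * Real.exp (-s) := by
      rw [show -(s - Real.log p) = Real.log p + -s by ring, Real.exp_add, Real.exp_log hp0]
    rw [h1, h2]
    push_cast
    field_simp
  have e2 : Ai f s - ((1 / L : ℝ) : ℂ) * ∑ p ∈ PrI P Q, f p / (p : ℂ) * Ai f (s - Real.log p)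
      = ((Real.exp (-s) * (1 / L) : ℝ) : ℂ) * ∑ n ∈ Icc 1 ⌊N⌋₊, f n * ((L - omI P Q n : ℝ) : ℂ) := by
    rw [Finset.sum_congr rfl e1, ← Finset.mul_sum, ← conv_id f hf P Q N hN0.le]
    have e3 : ∑ n ∈ Icc 1 ⌊N⌋₊, f n * ((L - omI P Q n : ℝ) : ℂ)
        = (L : ℂ) * Sf f N - ∑ n ∈ Icc 1 ⌊N⌋₊, f n * ((omI P Q n : ℝ) : ℂ) := by
      unfold Sf
      rw [Finset.mul_sum, ← Finset.sum_sub_distrib]
      apply Finset.sum_congr rfl
      intro n _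
      push_cast
      ring
    rw [e3]
    unfold Ai
    have hLc : (L : ℂ) ≠ 0 := by exact_mod_cast hL0.ne'
    rw [← hN]
    push_cast
    field_simp
  rw [e2, norm_mul, Complex.norm_real, Real.norm_of_nonneg (by positivity)]
  have h3 : ‖∑ n ∈ Icc 1 ⌊N⌋₊, f n * ((L - omI P Q n : ℝ) : ℂ)‖ ≤ ∑ n ∈ Icc 1 ⌊N⌋₊, |omI P Q n - L| := by
    calc _ ≤ ∑ n ∈ Icc 1 ⌊N⌋₊, ‖f n * ((L - omI P Q n : ℝ) : ℂ)‖ := norm_sum_le _ _
      _ ≤ _ := by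
        apply Finset.sum_le_sum
        intro n _
        rw [norm_mul, Complex.norm_real, Real.norm_eq_abs, abs_sub_comm]
        calc ‖f n‖ * |omI P Q n - L| ≤ 1 * |omI P Q n - L| :=
              mul_le_mul_of_nonneg_right (hf.le n) (abs_nonneg _)
          _ = _ := one_mul _
  have h4 : (∑ n ∈ Icc 1 ⌊N⌋₊, |omI P Q n - L|) ^ 2 ≤ N * (C * N * (L + 1)) := by
    have hcs := Finset.sum_mul_sq_le_sq_mul_sq (Icc 1 ⌊N⌋₊) (fun _ => (1:ℝ)) (fun n => |omI P Q n - L|)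
    simp only [one_mul, one_pow, sum_const, Nat.card_Icc, Nat.add_sub_cancel, nsmul_eq_mul, mul_one, sq_abs] at hcs
    calc _ ≤ (⌊N⌋₊ : ℝ) * ∑ n ∈ Icc 1 ⌊N⌋₊, (omI P Q n - L) ^ 2 := hcs
      _ ≤ N * (C * N * (L + 1)) := by
        apply mul_le_mul (Nat.floor_le hN0.le) (htk P Q N hP hPQ hQs) _ hN0.le
        exact Finset.sum_nonneg (fun n _ => sq_nonneg _)
  have h5 : ∑ n ∈ Icc 1 ⌊N⌋₊, |omI P Q n - L| ≤ N * Real.sqrt (2 * C * L) := by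
    apply le_of_sq_le_sq _ (by positivity)
    rw [mul_pow, Real.sq_sqrt (by positivity)]
    calc _ ≤ N * (C * N * (L + 1)) := h4
      _ ≤ N * (C * N * (2 * L)) := by gcongr; linarith
      _ = N ^ 2 * (2 * C * L) := by ring
  calc Real.exp (-s) * (1 / L) * ‖∑ n ∈ Icc 1 ⌊N⌋₊, f n * ((L - omI P Q n : ℝ) : ℂ)‖
      ≤ Real.exp (-s) * (1 / L) * (N * Real.sqrt (2 * C * L)) := by
        apply mul_le_mul_of_nonneg_left (h3.trans h5) (by positivity)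
    _ = Real.sqrt (2 * C) / Real.sqrt L := by
        rw [Real.sqrt_mul (by linarith)]
        have e5 : Real.exp (-s) * N = 1 := by rw [hN, ← Real.exp_add]; simp
        have e6 : Real.sqrt L / L = 1 / Real.sqrt L := Real.sqrt_div_self'
        calc Real.exp (-s) * (1 / L) * (N * (Real.sqrt (2 * C) * Real.sqrt L))
            = (Real.exp (-s) * N) * Real.sqrt (2 * C) * (Real.sqrt L / L) := by ring
          _ = _ := by rw [e5, e6]; ring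

end Pool.Agent.SplI
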