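import Pool.Agent.Lib_MP_92ef0c_spi.Mert
import Pool.Agent.Lib_MP_f1a94e_aq.ZSmooth
import Pool.Agent.Lib_MP_f1a94e_eq.NpT

/-!
# Piece I-CUT: sharp and smooth sums over primes
-/

set_option autoImplicit false

namespace Pool.Agent.SplI

open Finset

namespace Cut

/-- the smooth weight -/
private noncomputable def wt (L : ℝ) (p : ℕ) : ℝ := 1 / (p : ℝ) * Real.exp (-(Real.log p / L))

private theorem wt_eq {L : ℝ} {p : ℕ} (hp : 0 < p) : (p : ℝ) ^ (-(1 + 1 / L)) = wt L p := by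
  have hp0 : (0 : ℝ) < p := by exact_mod_cast hp
  unfold wt
  rw [neg_add, Real.rpow_add hp0, Real.rpow_neg_one, Real.rpow_def_of_pos hp0, one_div (p : ℝ)]
  congr 2
  rw [mul_neg, mul_one_div]

private theorem wt_nonneg (L : ℝ) (p : ℕ) : 0 ≤ wt L p := by
  unfold wt
  positivity

private theorem one_le_log {T : ℝ} (hT : 3 ≤ T) : 1 ≤ Real.log T := by
  rw [Real.le_log_iff_exp_le (by linarith)]
  have := Real.exp_one_lt_d9
  linarith

private theorem cpow_eq {L : ℝ} {p : ℕ} (hp : 0 < p) :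
    (p : ℂ) ^ (-((1 + 1 / L : ℝ) : ℂ)) = ((wt L p : ℝ) : ℂ) := by
  rw [← wt_eq hp, Complex.ofReal_cpow (Nat.cast_nonneg _)]
  push_cast
  rfl

/-- the mass of the block `T^K < p ≤ T^(K+1)` -/
private theorem block (C : ℝ) (hC0 : 0 ≤ C)
    (hA : ∀ x : ℝ, 2 ≤ x → ∑ p ∈ PrI 1 x, Real.log p / (p : ℝ) ≤ Real.log x + C)
    (T : ℝ) (hT : 3 ≤ T) (K : ℕ) (hK : 1 ≤ K) :
    ∑ p ∈ PrI (T ^ K) (T ^ (K + 1)), wt (Real.log T) p ≤ (2 + C) * Real.exp (-(K : ℝ)) := by
  have hL := one_le_log hT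
  set L := Real.log T with hLdef
  have hK' : (1 : ℝ) ≤ K := by exact_mod_cast hK
  have hKL : 1 ≤ (K : ℝ) * L := by nlinarith
  have hT1 : 1 ≤ T := by linarith
  have hTK : 1 ≤ T ^ K := one_le_pow₀ hT1
  have hT2 : 2 ≤ T ^ (K + 1) := by
    calc (2 : ℝ) ≤ T := by linarith
      _ = T ^ 1 := (pow_one T).symm
      _ ≤ T ^ (K + 1) := pow_le_pow_right₀ hT1 (by omega)
  have h1 : ∀ p ∈ PrI (T ^ K) (T ^ (K + 1)), wt L p ≤
      Real.exp (-(K : ℝ)) / (K * L) * (Real.log p / p) := by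
    intro p hp
    rw [mem_PrI] at hp
    obtain ⟨hp1, hp2, hp3⟩ := hp
    have hp0 : (0 : ℝ) < p := by exact_mod_cast hp1.pos
    have hlog : (K : ℝ) * L ≤ Real.log p := by
      rw [hLdef, ← Real.log_pow]
      exact Real.log_le_log (by positivity) hp2.le
    have h2 : (K : ℝ) ≤ Real.log p / L := by
      rw [le_div_iff₀ (by linarith)]
      exact hlog
    have h3 : Real.exp (-(Real.log p / L)) ≤ Real.exp (-(K : ℝ)) := Real.exp_le_exp.mpr (by linarith)
    unfold wt
    have h6 : Real.exp (-(K : ℝ)) / (K * L) * (Real.log p / p) =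
        1 / p * Real.exp (-(K : ℝ)) * (Real.log p / (K * L)) := by
      field_simp
    rw [h6]
    calc 1 / (p : ℝ) * Real.exp (-(Real.log p / L)) ≤ 1 / (p : ℝ) * Real.exp (-(K : ℝ)) :=
          mul_le_mul_of_nonneg_left h3 (by positivity)
      _ ≤ _ := by
          apply le_mul_of_one_le_right (by positivity)
          rw [one_le_div (by linarith)]
          exact hlog
  calc ∑ p ∈ PrI (T ^ K) (T ^ (K + 1)), wt L p
      ≤ ∑ p ∈ PrI (T ^ K) (T ^ (K + 1)), Real.exp (-(K : ℝ)) / (K * L) * (Real.log p / p) := sum_le_sum h1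
    _ ≤ ∑ p ∈ PrI 1 (T ^ (K + 1)), Real.exp (-(K : ℝ)) / (K * L) * (Real.log p / p) := by
        apply sum_le_sum_of_subset_of_nonneg
        · intro p hp
          rw [mem_PrI] at hp ⊢
          exact ⟨hp.1, lt_of_le_of_lt hTK hp.2.1, hp.2.2⟩
        · intro p hp _
          have hp0 : (1 : ℝ) ≤ p := (mem_PrI.1 hp).2.1.le
          have := Real.log_nonneg hp0
          positivity
    _ = Real.exp (-(K : ℝ)) / (K * L) * ∑ p ∈ PrI 1 (T ^ (K + 1)), (Real.log p / p) := by
        rw [mul_sum]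
    _ ≤ Real.exp (-(K : ℝ)) / (K * L) * (((K : ℝ) + 1) * L + C) := by
        apply mul_le_mul_of_nonneg_left _ (by positivity)
        have h7 := hA _ hT2
        rw [Real.log_pow] at h7
        push_cast at h7
        exact h7
    _ ≤ (2 + C) * Real.exp (-(K : ℝ)) := by
        have h9 : Real.exp (-(K : ℝ)) / (K * L) * (((K : ℝ) + 1) * L + C) =
          Real.exp (-(K : ℝ)) * ((((K : ℝ) + 1) * L + C) / (K * L)) := by
          field_simp
        rw [h9, mul_comm (2 + C)]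
        apply mul_le_mul_of_nonneg_left _ (Real.exp_pos _).le
        rw [div_le_iff₀ (by linarith)]
        nlinarith [mul_nonneg hC0 (by linarith : (0 : ℝ) ≤ (K : ℝ) * L - 1),
          mul_nonneg (by linarith : (0 : ℝ) ≤ (K : ℝ) - 1) (by linarith : (0 : ℝ) ≤ L)]

private theorem blocks (C : ℝ) (hC0 : 0 ≤ C)
    (hA : ∀ x : ℝ, 2 ≤ x → ∑ p ∈ PrI 1 x, Real.log p / (p : ℝ) ≤ Real.log x + C)
    (T : ℝ) (hT : 3 ≤ T) (K : ℕ) :
    ∑ p ∈ PrI T (T ^ (K + 1)), wt (Real.log T) p ≤ (2 + C) * (1 - Real.exp (-(K : ℝ))) := by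
  have hT1 : 1 ≤ T := by linarith
  induction K with
  | zero =>
    have : PrI T (T ^ (0 + 1)) = ∅ := by
      ext p
      rw [mem_PrI]
      simp only [zero_add, pow_one, notMem_empty, iff_false]
      rintro ⟨_, h1, h2⟩
      linarith
    rw [this]
    simp
  | succ K ih =>
    have hsub : T ≤ T ^ (K + 1) := by
      calc T = T ^ 1 := (pow_one T).symm
        _ ≤ T ^ (K + 1) := pow_le_pow_right₀ hT1 (by omega)
    have hsub2 : T ^ (K + 1) ≤ T ^ (K + 1 + 1) := pow_le_pow_right₀ hT1 (by omega)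
    have hun : PrI T (T ^ (K + 1 + 1)) =
        PrI T (T ^ (K + 1)) ∪ PrI (T ^ (K + 1)) (T ^ (K + 1 + 1)) := by
      ext p
      simp only [mem_PrI, mem_union]
      constructor
      · rintro ⟨h1, h2, h3⟩
        by_cases h4 : (p : ℝ) ≤ T ^ (K + 1)
        · exact Or.inl ⟨h1, h2, h4⟩
        · exact Or.inr ⟨h1, not_le.1 h4, h3⟩
      · rintro (⟨h1, h2, h3⟩ | ⟨h1, h2, h3⟩)
        · exact ⟨h1, h2, h3.trans hsub2⟩
        · exact ⟨h1, lt_of_le_of_lt hsub h2, h3⟩
    have hdis : Disjoint (PrI T (T ^ (K + 1))) (PrI (T ^ (K + 1)) (T ^ (K + 1 + 1))) := by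
      rw [disjoint_left]
      intro p hp hp'
      rw [mem_PrI] at hp hp'
      exact absurd hp.2.2 (not_le.2 hp'.2.1)
    rw [hun, sum_union hdis]
    have hb := block C hC0 hA T hT (K + 1) (by omega)
    have he : Real.exp (-((K + 1 : ℕ) : ℝ)) * 2 ≤ Real.exp (-(K : ℝ)) := by
      have : Real.exp (-(K : ℝ)) = Real.exp (-((K + 1 : ℕ) : ℝ)) * Real.exp 1 := by
        rw [← Real.exp_add]
        congr 1
        push_cast
        ring
      rw [this]
      apply mul_le_mul_of_nonneg_left _ (Real.exp_pos _).le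
      have := Real.exp_one_gt_d9
      linarith
    have h1C : 0 ≤ 2 + C := by linarith
    nlinarith [mul_nonneg h1C (by linarith : (0 : ℝ) ≤ Real.exp (-(K : ℝ)) -
      Real.exp (-((K + 1 : ℕ) : ℝ)) * 2)]

end Cut

open Cut

/-- As `smooth_cut` (Lib_MP_f1a94e_aq/ZSmooth.lean, for `p = 1 mod 4`) for all primes: `0 ≤ 1 - p^(-1/log T) ≤ log p / log T` and `mert_up` for `p ≤ T`; for `p > T`: `∑_(T^(2^i) < p ≤ T^(2^(i+1))) 1/p ≤ C` (`Lr_bounds`), `p^(-1/log T) ≤ exp (-2^i)` there. -/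
theorem cut_all : ∃ C : ℝ, 0 < C ∧ ∀ T : ℝ, 3 ≤ T → ∀ f : ℕ → ℂ, (∀ p, ‖f p‖ ≤ 1) →
    ‖∑ p ∈ PrI 1 T, f p / (p : ℂ) - ∑' p : Nat.Primes, f (p : ℕ) * (((p : ℕ) : ℂ) ^ (-((1 + 1 / Real.log T : ℝ) : ℂ)))‖ ≤ C := by
  classical
  obtain ⟨C, hC, hA⟩ := mert_up
  refine ⟨(1 + C) + (2 + C), by linarith, fun T hT f hf => ?_⟩
  have hL := one_le_log hT
  set L := Real.log T with hLdef
  have hL0 : 0 < L := by linarith
  have hδ : 0 < 1 / L := by positivity
  have hT1 : 1 ≤ T := by linarith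
  set a : ℕ → ℂ := fun n => if n.Prime then f n * ((n : ℂ) ^ (-((1 + 1 / L : ℝ) : ℂ))) else 0 with ha
  have htsum : ∑' p : Nat.Primes, f (p : ℕ) * (((p : ℕ) : ℂ) ^ (-((1 + 1 / L : ℝ) : ℂ))) = ∑' n, a n := by
    have h1 := tsum_subtype {n : ℕ | n.Prime} (fun n : ℕ => f n * ((n : ℂ) ^ (-((1 + 1 / L : ℝ) : ℂ))))
    have h2 : ∑' n, a n = ∑' n, Set.indicator {n : ℕ | n.Prime}
        (fun n : ℕ => f n * ((n : ℂ) ^ (-((1 + 1 / L : ℝ) : ℂ)))) n := by
      apply tsum_congr
      intro n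
      simp only [ha, Set.indicator_apply]
      rfl
    rw [h2]
    exact h1
  have hav : ∀ p ∈ PrI 1 T, a p = f p * ((wt L p : ℝ) : ℂ) := by
    intro p hp
    have hp1 := (mem_PrI.1 hp).1
    simp only [ha, hp1, if_true]
    rw [cpow_eq hp1.pos]
  have han : ∀ n, ‖a n‖ ≤ 1 / (n : ℝ) ^ (1 + 1 / L) := by
    intro n
    simp only [ha]
    split_ifs with hn
    · rw [norm_mul, cpow_eq hn.pos, Complex.norm_real, Real.norm_of_nonneg (wt_nonneg L n), ← wt_eq hn.pos,
        Real.rpow_neg (Nat.cast_nonneg _), one_div ((n : ℝ) ^ (1 + 1 / L))]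
      exact mul_le_of_le_one_left (by positivity) (hf n)
    · rw [norm_zero]
      positivity
  have hsum : Summable a :=
    Summable.of_norm_bounded (Real.summable_one_div_nat_rpow.mpr (by linarith)) han
  have hfirst : ‖∑ p ∈ PrI 1 T, f p / (p : ℂ) - ∑ p ∈ PrI 1 T, a p‖ ≤ 1 + C := by
    rw [← sum_sub_distrib]
    calc ‖∑ p ∈ PrI 1 T, (f p / (p : ℂ) - a p)‖
        ≤ ∑ p ∈ PrI 1 T, ‖f p / (p : ℂ) - a p‖ := norm_sum_le _ _
      _ ≤ ∑ p ∈ PrI 1 T, (1 / L) * (Real.log p / p) := by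
          apply sum_le_sum
          intro p hp
          rw [hav p hp]
          rw [mem_PrI] at hp
          have hp0 : (0 : ℝ) < p := by exact_mod_cast hp.1.pos
          have hlog := Real.log_nonneg hp.2.1.le
          have e2 : f p / (p : ℂ) - f p * ((wt L p : ℝ) : ℂ) =
              f p * (((1 / (p : ℝ) * (1 - Real.exp (-(Real.log p / L))) : ℝ)) : ℂ) := by
            unfold wt
            push_cast
            ring
          have h1 : 1 - Real.log p / L ≤ Real.exp (-(Real.log p / L)) := by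
            have := Real.add_one_le_exp (-(Real.log p / L))
            linarith
          have h2 : Real.exp (-(Real.log p / L)) ≤ 1 := by
            rw [Real.exp_le_one_iff]
            have : 0 ≤ Real.log p / L := by positivity
            linarith
          have h3 : 0 ≤ 1 / (p : ℝ) * (1 - Real.exp (-(Real.log p / L))) :=
            mul_nonneg (by positivity) (by linarith)
          rw [e2, norm_mul, Complex.norm_real, Real.norm_of_nonneg h3]
          calc ‖f p‖ * (1 / (p : ℝ) * (1 - Real.exp (-(Real.log p / L))))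
              ≤ 1 * (1 / (p : ℝ) * (Real.log p / L)) := by
                apply mul_le_mul (hf p) _ h3 zero_le_one
                exact mul_le_mul_of_nonneg_left (by linarith) (by positivity)
            _ = (1 / L) * (Real.log p / p) := by ring
      _ = (1 / L) * ∑ p ∈ PrI 1 T, Real.log p / p := by rw [mul_sum]
      _ ≤ (1 / L) * (L + C) :=
          mul_le_mul_of_nonneg_left (hA T (by linarith)) (by positivity)
      _ = 1 + C / L := by
          field_simp
      _ ≤ 1 + C := by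
          have : C / L ≤ C := div_le_self hC.le hL
          linarith
  have hrange : ∀ x : ℝ, 0 ≤ x → ∑ p ∈ range (⌊x⌋₊ + 1), a p = ∑ p ∈ PrI 1 x, a p := by
    intro x hx
    symm
    apply sum_subset
    · intro p hp
      rw [mem_PrI] at hp
      rw [mem_range]
      have := Nat.le_floor hp.2.2
      omega
    · intro p hp hp'
      rw [mem_range] at hp
      simp only [ha]
      rw [if_neg]
      intro hpr
      apply hp'
      rw [mem_PrI]
      refine ⟨hpr, by exact_mod_cast hpr.one_lt, ?_⟩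
      exact (Nat.le_floor_iff hx).1 (by omega)
  have hsecond : ‖∑ p ∈ PrI 1 T, a p - ∑' n, a n‖ ≤ 2 + C := by
    have hT2 : Filter.Tendsto (fun K : ℕ => ⌊T ^ (K + 1)⌋₊ + 1) Filter.atTop Filter.atTop := by
      apply Filter.tendsto_atTop_mono (f := fun K : ℕ => K)
      · intro K
        have h1 : (K : ℝ) ≤ T ^ K := by
          have h2 : (K : ℝ) ≤ (2 : ℝ) ^ K := by exact_mod_cast (Nat.lt_two_pow_self (n := K)).le
          exact h2.trans (pow_le_pow_left₀ (by norm_num) (by linarith) K)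
        have h2 : T ^ K ≤ T ^ (K + 1) := pow_le_pow_right₀ hT1 (by omega)
        have h3 : K ≤ ⌊T ^ (K + 1)⌋₊ := Nat.le_floor (h1.trans h2)
        omega
      · exact Filter.tendsto_id
    have hlim := (hsum.hasSum.tendsto_sum_nat.comp hT2)
    have hlim2 := (hlim.const_sub (∑ p ∈ PrI 1 T, a p)).norm
    refine le_of_tendsto hlim2 (Filter.Eventually.of_forall fun K => ?_)
    simp only [Function.comp_apply]
    rw [hrange _ (by positivity)]
    have hTK : T ≤ T ^ (K + 1) := by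
      calc T = T ^ 1 := (pow_one T).symm
        _ ≤ T ^ (K + 1) := pow_le_pow_right₀ hT1 (by omega)
    have hun : PrI 1 (T ^ (K + 1)) = PrI 1 T ∪ PrI T (T ^ (K + 1)) := by
      ext p
      simp only [mem_PrI, mem_union]
      constructor
      · rintro ⟨h1, h2, h3⟩
        by_cases h4 : (p : ℝ) ≤ T
        · exact Or.inl ⟨h1, h2, h4⟩
        · exact Or.inr ⟨h1, not_le.1 h4, h3⟩
      · rintro (⟨h1, h2, h3⟩ | ⟨h1, h2, h3⟩)
        · exact ⟨h1, h2, h3.trans hTK⟩
        · exact ⟨h1, lt_of_le_of_lt hT1 h2, h3⟩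
    have hdis : Disjoint (PrI 1 T) (PrI T (T ^ (K + 1))) := by
      rw [disjoint_left]
      intro p hp hp'
      rw [mem_PrI] at hp hp'
      exact absurd hp.2.2 (not_le.2 hp'.2.1)
    rw [hun, sum_union hdis, sub_add_cancel_left, norm_neg]
    calc ‖∑ p ∈ PrI T (T ^ (K + 1)), a p‖
        ≤ ∑ p ∈ PrI T (T ^ (K + 1)), ‖a p‖ := norm_sum_le _ _
      _ ≤ ∑ p ∈ PrI T (T ^ (K + 1)), wt L p := by
          apply sum_le_sum
          intro p hp
          rw [mem_PrI] at hp
          refine (han p).trans ?_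
          rw [← wt_eq hp.1.pos, Real.rpow_neg (Nat.cast_nonneg _), one_div]
      _ ≤ (2 + C) * (1 - Real.exp (-(K : ℝ))) := blocks C hC.le hA T hT K
      _ ≤ 2 + C := by
          have := Real.exp_pos (-(K : ℝ))
          nlinarith
  rw [htsum]
  calc ‖∑ p ∈ PrI 1 T, f p / (p : ℂ) - ∑' n, a n‖
      = ‖(∑ p ∈ PrI 1 T, f p / (p : ℂ) - ∑ p ∈ PrI 1 T, a p) + (∑ p ∈ PrI 1 T, a p - ∑' n, a n)‖ := by
        ring_nf
    _ ≤ _ := norm_add_le _ _
    _ ≤ _ := add_le_add hfirst hsecond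

end Pool.Agent.SplI
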