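import Pool.Agent.Lib_MP_92ef0c_spi.IDefs

/-!
# The statement of `zs_log` (only to keep the import graph flat)
-/

set_option autoImplicit false

namespace Pool.Agent.SplI

open Finset MeasureTheory

/-- the statement of `zs_log` -/
def ZsLogS : Prop :=
  ∀ (A : ℝ) (hA : 1 ≤ A), ∃ η C : ℝ, 0 < η ∧ η ≤ 1 / 2 ∧ 0 < C ∧ ∀ τ u v : ℝ, 1 ≤ u → u ≤ v → 1 ≤ |τ| → |τ| ≤ u ^ A →
    ‖∑ n ∈ Ioc ⌊u⌋₊ ⌊v⌋₊, et (-τ) n / (n : ℂ) - ((v : ℂ) ^ ((τ : ℂ) * Complex.I) - (u : ℂ) ^ ((τ : ℂ) * Complex.I)) / ((τ : ℂ) * Complex.I)‖ ≤ C * u ^ (-η)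

end Pool.Agent.SplI
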