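import Mathlib

/-!
# MP_92ef0c_nt, split twin, block M, part S2: definitions (multiplicative functions of natural numbers)
-/

set_option autoImplicit false

namespace Pool.Agent.SplI

open Finset

/-- completely multiplicative functions bounded by one (the value at 0 is irrelevant) -/
structure CF (f : ℕ → ℂ) : Prop where
  one : f 1 = 1
  mul : ∀ m n, m ≠ 0 → n ≠ 0 → f (m * n) = f m * f n
  le : ∀ n, ‖f n‖ ≤ 1

/-- `n ^ (-i t)` -/
noncomputable def et (t : ℝ) (n : ℕ) : ℂ := Complex.exp (-((t * Real.log n : ℝ) : ℂ) * Complex.I)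

/-- the primes in `(P, Q]` -/
noncomputable def PrI (P Q : ℝ) : Finset ℕ := (Icc 1 ⌊Q⌋₊).filter (fun p => p.Prime ∧ P < (p : ℝ))

/-- `∑ 1 / p` over the primes in `(P, Q]` -/
noncomputable def Lr (P Q : ℝ) : ℝ := ∑ p ∈ PrI P Q, 1 / (p : ℝ)

/-- partial sums -/
noncomputable def Sf (f : ℕ → ℂ) (N : ℝ) : ℂ := ∑ n ∈ Icc 1 ⌊N⌋₊, f n

/-- normalised partial sums in the logarithmic scale -/
noncomputable def Ai (f : ℕ → ℂ) (s : ℝ) : ℂ := (Real.exp (-s) : ℂ) * Sf f (Real.exp s)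

/-- the number of primes of `(P, Q]` dividing `n` -/
noncomputable def omI (P Q : ℝ) (n : ℕ) : ℝ := (((PrI P Q).filter (fun p => p ∣ n)).card : ℝ)

/-- numbers with all prime factors at least `y` -/
def RoughN (y : ℝ) (n : ℕ) : Prop := ∀ p : ℕ, p.Prime → p ∣ n → y ≤ (p : ℝ)

/-- the functions `z ^ Ω(n) χ(n)` -/
noncomputable def fzc (z : ℂ) (M : ℕ) (χ : DirichletCharacter ℂ M) (n : ℕ) : ℂ :=
  z ^ ArithmeticFunction.cardFactors n * χ (n : ZMod M)

theorem mem_PrI {P Q : ℝ} {p : ℕ} : p ∈ PrI P Q ↔ p.Prime ∧ P < (p : ℝ) ∧ (p : ℝ) ≤ Q := by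
  unfold PrI
  rw [mem_filter, mem_Icc]
  constructor
  · rintro ⟨⟨h1, h2⟩, h3, h4⟩
    exact ⟨h3, h4, (Nat.le_floor_iff' (by omega)).1 h2⟩
  · rintro ⟨h1, h2, h3⟩
    exact ⟨⟨h1.one_lt.le, Nat.le_floor h3⟩, h1, h2⟩

theorem norm_et (t : ℝ) (n : ℕ) : ‖et t n‖ = 1 := by
  unfold et
  rw [show -((t * Real.log n : ℝ) : ℂ) * Complex.I = ((-(t * Real.log n) : ℝ) : ℂ) * Complex.I by push_cast; ring]
  exact Complex.norm_exp_ofReal_mul_I _

theorem et_add (t y : ℝ) (n : ℕ) : et (t + y) n = et t n * et y n := by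
  unfold et
  rw [← Complex.exp_add]
  congr 1
  push_cast
  ring

theorem cf_fzc {q : ℕ} (hq : 0 < q) {z : ℂ} (hz : z ^ q = 1) (M : ℕ) (χ : DirichletCharacter ℂ M) : CF (fzc z M χ) := by
  have hz1 : ‖z‖ = 1 := Complex.norm_eq_one_of_pow_eq_one hz hq.ne'
  refine ⟨?_, fun m n hm hn => ?_, fun n => ?_⟩
  · simp [fzc]
  · unfold fzc
    rw [ArithmeticFunction.cardFactors_mul hm hn, pow_add, Nat.cast_mul, map_mul]
    ring
  · unfold fzc
    rw [norm_mul, norm_pow, hz1, one_pow, one_mul]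
    exact χ.norm_le_one _

theorem et_mul (t : ℝ) {m n : ℕ} (hm : m ≠ 0) (hn : n ≠ 0) : et t (m * n) = et t m * et t n := by
  unfold et
  rw [← Complex.exp_add]
  congr 1
  push_cast
  rw [Real.log_mul (by exact_mod_cast hm) (by exact_mod_cast hn)]
  push_cast
  ring

theorem cf_et {f : ℕ → ℂ} (hf : CF f) (t : ℝ) : CF (fun n => f n * et t n) := by
  refine ⟨?_, fun m n hm hn => ?_, fun n => ?_⟩
  · simp [hf.one, et]
  · rw [hf.mul m n hm hn, et_mul t hm hn]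
    ring
  · rw [norm_mul, norm_et, mul_one]
    exact hf.le n

end Pool.Agent.SplI
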