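import Pool.Agent.Lib_MP_92ef0c_spi.ChainSt
import Pool.Agent.Lib_MP_92ef0c_spi.FewS

/-!
# Piece I-MEAN: mean square of the polynomial of a box (assembly)
-/

set_option autoImplicit false

namespace Pool.Agent.SplI

open Finset Pool.Agent.Spl

private theorem ms_exp (t : ℝ) (z : ℕ × ℕ) : Complex.exp (((t * dirn z : ℝ) : ℂ) * Complex.I) = et t z.1 * et (-t) z.2 := by
  unfold et dirn
  rw [← Complex.exp_add]
  congr 1
  push_cast
  ring

private theorem ms_add (t u : ℝ) (z : ℕ × ℕ) : Complex.exp ((((t + u) * dirn z : ℝ) : ℂ) * Complex.I) =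
    Complex.exp (((t * dirn z : ℝ) : ℂ) * Complex.I) * (et u z.1 * et (-u) z.2) := by
  rw [← ms_exp, ← Complex.exp_add]
  congr 1
  push_cast
  ring

private theorem ms_shift (f g : ℕ → ℂ) (C D t u : ℝ) : Ps f g C D (t + u) =
    Ps (fun n => if n = 0 then 0 else f n * et u n) (fun n => if n = 0 then 0 else g n * et (-u) n) C D t := by
  unfold Ps
  refine sum_congr rfl fun z hz => ?_
  rw [mem_PB] at hz
  simp only [if_neg hz.1.1.ne', if_neg hz.2.1.1.ne', ms_add]
  ring

open Pool.Agent.GaussMR in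
/-- `few_s` with `ε/4` gives `δ`; `chainS_st` with `ε/4`, `δ`, `K` gives `Q1`; `Q0 = 4 Q1`. `N = ⌈log X⌉₊`, `T = ⌈N X / Q0⌉₊ ≤ N X / Q1`. `disc` with `h t = ‖Ps f g C D t‖²`: fix `s ∈ [0, 1]`; `Ps f g C D ((k + s)/N) = Ps f_s g_s C D (k/N)` with `f_s n = f n et (s/N) n`, `g_s n = g n et (-s/N) n` for `n ≥ 1` and `0` for `n = 0`
(completely multiplicative; `exp (i (s/N) dirn z) = et (s/N) z.1 * et (-s/N) z.2`). Outside the set `S` of `chainS_st`: `≤ (ε/4) N X²`. The points `(k + s)/N`, `k ∈ S`, fall into `N` classes `k mod N`, each 1-spaced and of cardinality at most `X^δ`, `|t| ≤ X`: `few_s` (for `f, g`) gives `≤ N (ε/4) X²`. So `M = (ε/2) N X²`. -/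
theorem mean_small (f g : ℕ → ℂ) (hf : CF f) (hg : CF g) (hp : PtwS g) (K ε : ℝ) (hK : 1 ≤ K) (hε : 0 < ε) : ∃ Q0 X0 : ℝ, 1 ≤ Q0 ∧ 1 < X0 ∧
    ∀ X : ℝ, X0 ≤ X → ∀ C D : ℝ, Real.sqrt X / K ≤ C → C ≤ K * Real.sqrt X → Real.sqrt X / K ≤ D → D ≤ K * Real.sqrt X →
    ∫ t in (-(X / Q0))..(X / Q0), ‖Ps f g C D t‖ ^ 2 ≤ ε * X ^ 2 := by
  classical
  obtain ⟨δ, X1, hδ, hX1, hfew⟩ := few_s g hg hp K (ε / 4) hK (by positivity)
  obtain ⟨Q1, X2, hQ1, hX2, hch⟩ := chainS_st (ε / 4) δ K (by positivity) hδ hK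
  refine ⟨4 * Q1, max (max X1 X2) (max (4 * Q1) 4), by linarith, lt_max_of_lt_left (lt_max_of_lt_left hX1), ?_⟩
  intro X hX C D hC1 hC2 hD1 hD2
  have hXX1 : X1 ≤ X := ((le_max_left _ _).trans (le_max_left _ _)).trans hX
  have hXX2 : X2 ≤ X := ((le_max_right _ _).trans (le_max_left _ _)).trans hX
  have hXQ : 4 * Q1 ≤ X := ((le_max_left _ _).trans (le_max_right _ _)).trans hX
  have hX4 : 4 ≤ X := ((le_max_right _ _).trans (le_max_right _ _)).trans hX
  have hX0 : 0 < X := by linarith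
  have hQ10 : 0 < Q1 := by linarith
  have hlog : 1 ≤ Real.log X := by
    rw [Real.le_log_iff_exp_le hX0]
    linarith [Real.exp_one_lt_d9]
  set N : ℕ := ⌈Real.log X⌉₊ with hN
  have hN1 : Real.log X ≤ N := Nat.le_ceil _
  have hN2 : (N : ℝ) ≤ 2 * Real.log X := by
    have := Nat.ceil_lt_add_one (show 0 ≤ Real.log X by linarith)
    rw [← hN] at this
    linarith
  have hNr : (1 : ℝ) ≤ N := hlog.trans hN1
  have hNpos : 0 < N := by
    have : (0 : ℝ) < N := by linarith
    exact_mod_cast this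
  set T : ℕ := ⌈(N : ℝ) * (X / (4 * Q1))⌉₊ with hT
  have hT1 : (N : ℝ) * (X / (4 * Q1)) ≤ T := Nat.le_ceil _
  have hT2 : (T : ℝ) < (N : ℝ) * (X / (4 * Q1)) + 1 := Nat.ceil_lt_add_one (by positivity)
  have hXQ1 : 1 ≤ X / (4 * Q1) := by rw [le_div_iff₀ (by positivity)]; linarith
  have hNX : 1 ≤ (N : ℝ) * (X / (4 * Q1)) := by nlinarith
  have hT3 : (T : ℝ) ≤ N * X / Q1 := by
    have h1 : (N : ℝ) * X / Q1 = 4 * (N * (X / (4 * Q1))) := by field_simp
    rw [h1]
    linarith
  have hXq : X / (4 * Q1) ≤ X / 4 := by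
    apply div_le_div_of_nonneg_left hX0.le (by norm_num)
    linarith
  have hTN : ((T : ℝ) + 1) / N ≤ X := by
    rw [div_le_iff₀ (by linarith)]
    have h1 : (T : ℝ) + 1 ≤ 3 * (N * (X / (4 * Q1))) := by linarith
    have h2 : (N : ℝ) * (X / (4 * Q1)) ≤ N * (X / 4) := mul_le_mul_of_nonneg_left hXq (by linarith)
    nlinarith
  have hM : ∀ s : ℝ, 0 ≤ s → s ≤ 1 → ∑ k ∈ fr T, ‖Ps f g C D ((k + s) / N)‖ ^ 2 ≤ ε / 2 * N * X ^ 2 := by
    intro s hs0 hs1
    set fs : ℕ → ℂ := fun n => if n = 0 then 0 else f n * et (s / N) n with hfs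
    set gs : ℕ → ℂ := fun n => if n = 0 then 0 else g n * et (-(s / N)) n with hgs
    have hfm : ∀ m n, fs (m * n) = fs m * fs n := by
      intro m n
      simp only [hfs]
      by_cases hm : m = 0
      · simp [hm]
      by_cases hn : n = 0
      · simp [hn]
      rw [if_neg (mul_ne_zero hm hn), if_neg hm, if_neg hn, hf.mul m n hm hn, et_mul _ hm hn]
      ring
    have hfb : ∀ n, ‖fs n‖ ≤ 1 := by
      intro n
      simp only [hfs]
      split_ifs
      · simp
      · rw [norm_mul, norm_et, mul_one]; exact hf.le n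
    have hgb : ∀ n, ‖gs n‖ ≤ 1 := by
      intro n
      simp only [hgs]
      split_ifs
      · simp
      · rw [norm_mul, norm_et, mul_one]; exact hg.le n
    obtain ⟨S, hS, hSc, hSs⟩ := hch X hXX2 fs gs hfm hfb hgb C D hC1 hC2 hD1 hD2 N hN1 hN2 T hT3
    have hsh : ∀ k : ℤ, Ps f g C D ((k + s) / N) = Ps fs gs C D (k / N) := by
      intro k
      rw [add_div, ms_shift]
    have h1 : ∑ k ∈ fr T \ S, ‖Ps f g C D ((k + s) / N)‖ ^ 2 ≤ ε / 4 * N * X ^ 2 := by
      refine le_of_eq_of_le (sum_congr rfl fun k _ => ?_) hSs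
      rw [hsh]
    -- the exceptional frequencies
    have h2 : ∑ k ∈ S, ‖Ps f g C D ((k + s) / N)‖ ^ 2 ≤ ε / 4 * N * X ^ 2 := by
      have h3 : ∑ k ∈ S, ‖Ps f g C D ((k + s) / N)‖ ^ 2 =
          ∑ r ∈ range N, ∑ k ∈ S.filter (fun k => (k % (N : ℤ)).toNat = r), ‖Ps f g C D ((k + s) / N)‖ ^ 2 := by
        rw [sum_fiberwise_of_maps_to]
        intro k _
        rw [mem_range]
        have h4 := Int.emod_lt_of_pos k (show (0 : ℤ) < N by exact_mod_cast hNpos)
        have h5 := Int.emod_nonneg k (show (N : ℤ) ≠ 0 by exact_mod_cast hNpos.ne')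
        omega
      rw [h3]
      have h4 : ∀ r ∈ range N, ∑ k ∈ S.filter (fun k => (k % (N : ℤ)).toNat = r), ‖Ps f g C D ((k + s) / N)‖ ^ 2 ≤ ε / 4 * X ^ 2 := by
        intro r _
        have hinj : Function.Injective (fun k : ℤ => ((k : ℝ) + s) / N) := by
          intro k k' hkk
          simp only at hkk
          rw [div_left_inj' (by linarith)] at hkk
          have : (k : ℝ) = k' := by linarith
          exact_mod_cast this
        have h5 := hfew X hXX1 f hf C D hC1 hC2 hD1 hD2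
          ((S.filter (fun k => (k % (N : ℤ)).toNat = r)).image (fun k : ℤ => ((k : ℝ) + s) / N)) ?_ ?_ ?_
        · rwa [sum_image (fun k _ k' _ h => hinj h)] at h5
        · intro t ht
          rw [mem_image] at ht
          obtain ⟨k, hk, rfl⟩ := ht
          have h6 := mem_fr.1 (hS (mem_filter.1 hk).1)
          have h7 : -(T : ℝ) ≤ k := by exact_mod_cast h6.1
          have h8 : (k : ℝ) ≤ T := by exact_mod_cast h6.2
          rw [abs_div, abs_of_pos (show (0 : ℝ) < N by linarith)]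
          refine (div_le_div_of_nonneg_right ?_ (by linarith)).trans hTN
          rw [abs_le]
          constructor <;> linarith
        · intro t ht t' ht' hne
          rw [mem_image] at ht ht'
          obtain ⟨k, hk, rfl⟩ := ht
          obtain ⟨k', hk', rfl⟩ := ht'
          have hkk : k ≠ k' := by
            rintro rfl
            exact hne rfl
          have h6 := (mem_filter.1 hk).2
          have h7 := (mem_filter.1 hk').2
          have h8 : k % (N : ℤ) = k' % (N : ℤ) := by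
            have a1 := Int.emod_nonneg k (show (N : ℤ) ≠ 0 by exact_mod_cast hNpos.ne')
            have a2 := Int.emod_nonneg k' (show (N : ℤ) ≠ 0 by exact_mod_cast hNpos.ne')
            omega
          have h9 : (N : ℤ) ∣ k - k' := by
            exact Int.dvd_of_emod_eq_zero (by rw [Int.sub_emod, h8]; simp)
          have h10 : (N : ℤ) ≤ |k - k'| := Int.le_of_dvd (abs_pos.2 (sub_ne_zero.2 hkk)) ((dvd_abs _ _).2 h9)
          have h11 : (N : ℝ) ≤ |(k : ℝ) - k'| := by exact_mod_cast h10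
          have h12 : ((k : ℝ) + s) / N - ((k' : ℝ) + s) / N = ((k : ℝ) - k') / N := by ring
          rw [h12, abs_div, abs_of_pos (show (0 : ℝ) < N by linarith), le_div_iff₀ (by linarith), one_mul]
          exact h11
        · refine le_trans ?_ hSc
          exact_mod_cast card_image_le.trans (card_filter_le _ _)
      calc ∑ r ∈ range N, ∑ k ∈ S.filter (fun k => (k % (N : ℤ)).toNat = r), ‖Ps f g C D ((k + s) / N)‖ ^ 2
          ≤ ∑ _r ∈ range N, ε / 4 * X ^ 2 := sum_le_sum h4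
        _ = ε / 4 * N * X ^ 2 := by rw [sum_const, card_range, nsmul_eq_mul]; ring
    rw [← sum_sdiff hS]
    linarith
  have hfin := disc (fun t => ‖Ps f g C D t‖ ^ 2) ((ps_cont f g C D).norm.pow 2) (fun t => sq_nonneg _) N T hNpos
    (X / (4 * Q1)) (by positivity) hT1 (ε / 2 * N * X ^ 2) hM
  refine hfin.trans ?_
  rw [div_le_iff₀ (by linarith)]
  have : 0 ≤ ε / 2 * N * X ^ 2 := by positivity
  nlinarith

end Pool.Agent.SplI
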