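import Pool.Agent.Lib_MP_92ef0c_spi.NonPretI
import Pool.Agent.Lib_MP_92ef0c_spi.ZSumB
import Pool.Agent.Lib_MP_92ef0c_spi.Hal

/-!
# Piece I-PTW: pointwise bound at height up to N^3 (assembly)
-/

set_option autoImplicit false

namespace Pool.Agent.SplI

open Finset

/-- `halasz_i c0 ε L0` for `f n = fzc z M χ n * et t n` (`CF`: `cf_et`, `cf_fzc`), `S = log N`; `f p * et y p = fzc .. p * et (t + y) p`, `|t + y| ≤ N^3 + T0 ≤ N^4`. `Ai f (log N) = (1/N) ∑_(n ≤ N) f n`. -/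
theorem ptw (q : ℕ) (hq : 0 < q) (z : ℂ) (hz : z ^ q = 1) (hz1 : z ≠ 1) (M : ℕ) [NeZero M] (χ : DirichletCharacter ℂ M) (ε : ℝ) (hε : 0 < ε) :
    ∃ N0 : ℝ, 1 < N0 ∧ ∀ N : ℝ, N0 ≤ N → ∀ t : ℝ, |t| ≤ N ^ 3 → ‖∑ n ∈ Icc 1 ⌊N⌋₊, fzc z M χ n * et t n‖ ≤ ε * N := by
  obtain ⟨c0, L0, hc0, H⟩ := nonpret_i zs_log q hq z hz hz1 M χ
  obtain ⟨T0, e, e', S0, hT0, he', hee, he4, hL, hS0, K⟩ := halasz_i c0 ε L0 hc0 hε
  obtain ⟨S1, hS1, H1⟩ := H e' e he' hee (by linarith) hL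
  refine ⟨max (2 + T0) (max (Real.exp S0) (Real.exp S1)), lt_max_of_lt_left (by linarith),
    fun N hN t ht => ?_⟩
  have hN1 : 2 + T0 ≤ N := (le_max_left _ _).trans hN
  have hN2 : Real.exp S0 ≤ N := (le_max_left _ _).trans ((le_max_right _ _).trans hN)
  have hN3 : Real.exp S1 ≤ N := (le_max_right _ _).trans ((le_max_right _ _).trans hN)
  have hN0 : 0 < N := by linarith
  have hS0N : S0 ≤ Real.log N := (Real.le_log_iff_exp_le hN0).2 hN2
  have hS1N : S1 ≤ Real.log N := (Real.le_log_iff_exp_le hN0).2 hN3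
  have hexp4 : Real.exp (4 * Real.log N) = N ^ 4 := by
    rw [show (4 : ℝ) * Real.log N = Real.log (N ^ 4) by rw [Real.log_pow]; norm_num]
    exact Real.exp_log (by positivity)
  have hN34 : N ^ 3 + T0 ≤ N ^ 4 := by
    have h1 : (1 : ℝ) ≤ N ^ 3 := one_le_pow₀ (by linarith)
    have h2 : N ^ 4 - N ^ 3 = N ^ 3 * (N - 1) := by ring
    nlinarith
  have h := K (Real.log N) hS0N (fun n => fzc z M χ n * et t n) (cf_et (cf_fzc hq hz M χ) t) (by
    intro y hy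
    have hty : |t + y| ≤ Real.exp (4 * Real.log N) := by
      rw [hexp4]
      exact (abs_add_le t y).trans (by linarith)
    have h1 := H1 (Real.log N) hS1N (t + y) hty
    refine h1.trans (le_of_eq (sum_congr rfl fun p _ => ?_))
    rw [et_add, mul_assoc])
  unfold Ai Sf at h
  rw [Real.exp_log hN0, norm_mul, Complex.norm_real, Real.norm_of_nonneg (Real.exp_pos _).le,
    Real.exp_neg, Real.exp_log hN0] at h
  rw [inv_mul_le_iff₀ hN0] at h
  linarith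

end Pool.Agent.SplI
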