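import Pool.Agent.Lib_MP_92ef0c_spi.MeanS
import Pool.Agent.Lib_MP_92ef0c_spi.ArcN
import Pool.Agent.Lib_MP_92ef0c_spi.Ptw

/-!
# Piece I-MRS: the interface theorem of block M (split)
-/

set_option autoImplicit false

namespace Pool.Agent.SplI

open Finset Pool.Agent.Spl MeasureTheory

/-- `line_st` with `w = H / X`, `T = X / Q0`, `mean_small` with `ε/2`: `≤ (H/X)² (ε/2) X² + C0 Q0² ≤ ε H²` for `H ≥ H0`, `C0 Q0² ≤ (ε/2) H0²`. -/
theorem mrs_one (f g : ℕ → ℂ) (hf : CF f) (hg : CF g) (hp : PtwS g) (K ε : ℝ) (hK : 1 ≤ K) (hε : 0 < ε) : ∃ H0 : ℝ, 0 < H0 ∧ ∀ H : ℝ, H0 ≤ H →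
    ∃ X0 : ℝ, 1 < X0 ∧ ∀ X : ℝ, X0 ≤ X → ∀ C D : ℝ, Real.sqrt X / K ≤ C → C ≤ K * Real.sqrt X → Real.sqrt X / K ≤ D → D ≤ K * Real.sqrt X →
    ∫ τ, ‖Sg f g C D (H / X) τ‖ ^ 2 ≤ ε * H ^ 2 := by
  obtain ⟨Q0, X0, hQ0, hX0, h⟩ := mean_small f g hf hg hp K (ε / 2) hK (by positivity)
  obtain ⟨C0, hC0, hl⟩ := line_st K hK
  refine ⟨Real.sqrt (2 * C0 * Q0 ^ 2 / ε) + 1, by positivity, fun H hH => ?_⟩
  have hs := Real.sqrt_nonneg (2 * C0 * Q0 ^ 2 / ε)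
  have hH0 : 0 < H := by linarith
  have hH2 : C0 * Q0 ^ 2 ≤ ε / 2 * H ^ 2 := by
    have h1 : 2 * C0 * Q0 ^ 2 / ε ≤ H ^ 2 := by
      have h3 : Real.sqrt (2 * C0 * Q0 ^ 2 / ε) ^ 2 = 2 * C0 * Q0 ^ 2 / ε := Real.sq_sqrt (by positivity)
      rw [← h3]
      exact pow_le_pow_left₀ hs (by linarith) 2
    rw [div_le_iff₀ hε] at h1
    linarith
  refine ⟨max X0 (max (Q0 + 1) (K ^ 2)), lt_max_of_lt_left hX0, fun X hX C D h1 h2 h3 h4 => ?_⟩
  have hXX0 : X0 ≤ X := (le_max_left _ _).trans hX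
  have hXQ : Q0 + 1 ≤ X := ((le_max_left _ _).trans (le_max_right _ _)).trans hX
  have hXK : K ^ 2 ≤ X := ((le_max_right _ _).trans (le_max_right _ _)).trans hX
  have hXpos : 0 < X := by linarith
  have hKs : 1 ≤ Real.sqrt X / K := by
    rw [le_div_iff₀ (by linarith), one_mul]
    exact Real.le_sqrt_of_sq_le hXK
  have h5 := hl X (by linarith) f g hf.le hg.le C D (hKs.trans h1) h2 (hKs.trans h3) h4 (H / X) (X / Q0) (by positivity)
    (by rw [le_div_iff₀ (by linarith)]; linarith) (div_le_self hXpos.le hQ0)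
  have h6 := h X hXX0 C D h1 h2 h3 h4
  have h7 : X / (X / Q0) = Q0 := by field_simp
  rw [h7] at h5
  have h8 : (H / X) ^ 2 * (∫ t in (-(X / Q0))..(X / Q0), ‖Ps f g C D t‖ ^ 2) ≤ (H / X) ^ 2 * (ε / 2 * X ^ 2) :=
    mul_le_mul_of_nonneg_left h6 (sq_nonneg _)
  have h9 : (H / X) ^ 2 * (ε / 2 * X ^ 2) = ε / 2 * H ^ 2 := by field_simp
  linarith

private theorem mrs_memLp (f g : ℕ → ℂ) (C D w : ℝ) : MemLp (Sg f g C D w) 2 (MeasureTheory.volume : Measure ℝ) := by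
  have h1 : Sg f g C D w = fun τ => ∑ z ∈ PB C D,
      (Set.Ioc (dirn z - w) (dirn z)).indicator (fun _ => f z.1 * g z.2) τ := by
    funext τ
    unfold Sg
    rw [sum_filter]
    refine sum_congr rfl fun z _ => ?_
    rw [Set.indicator_apply]
    congr 1
    simp only [Set.mem_Ioc, eq_iff_iff]
    constructor
    · rintro ⟨h1, h2⟩
      exact ⟨by linarith, h1⟩
    · rintro ⟨h1, h2⟩
      exact ⟨h2, by linarith⟩
  rw [h1]
  refine memLp_finsetSum _ fun z _ => ?_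
  exact memLp_indicator_const 2 measurableSet_Ioc _ (Or.inr (by simp))

private theorem mrs_int (f g : ℕ → ℂ) (C D w : ℝ) : Integrable (fun τ => ‖Sg f g C D w τ‖ ^ 2) := by
  have h := mrs_memLp f g C D w
  exact (memLp_two_iff_integrable_sq_norm h.1).1 h

/-- `arc_dec_n`; `‖∑_i a_i S_i‖² ≤ n ∑ ‖S_i‖²`; the shift of `τ` does not change the integral over `ℝ`; `mrs_one` (`ptw` for `conj z`) with `K' = K d1 d2`, `ε / n²`-type, for the finitely many pairs of characters. -/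
theorem mrs (q : ℕ) (hq : 0 < q) (z : ℂ) (hz : z ^ q = 1) (hz1 : z ≠ 1) : MRS (fun n => z ^ ArithmeticFunction.cardFactors n) := by
  intro m hm b K hK ε hε
  have hnz : ‖z‖ = 1 := Complex.norm_eq_one_of_pow_eq_one hz hq.ne'
  have hcz : ((starRingEnd ℂ) z) ^ q = 1 := by rw [← map_pow, hz, map_one]
  have hcz1 : (starRingEnd ℂ) z ≠ 1 := by
    intro h
    apply hz1
    have := congrArg (starRingEnd ℂ) h
    simpa using this
  obtain ⟨M1, M2, i1, i2, n, χ, ψ, a, d1, d2, hd1, hd2, ha, hdec⟩ := arc_dec_n z hnz m hm b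
  have hd1' : (1 : ℝ) ≤ d1 := by exact_mod_cast hd1
  have hd2' : (1 : ℝ) ≤ d2 := by exact_mod_cast hd2
  set K' : ℝ := K * d1 * d2 with hK'
  have hKd1 : K ≤ K * d1 := le_mul_of_one_le_right (by linarith) hd1'
  have hKd2 : K * d1 ≤ K' := le_mul_of_one_le_right (by positivity) hd2'
  have hK'1 : 1 ≤ K' := by linarith
  set ε' : ℝ := ε / ((n : ℝ) ^ 2 + 1) with hε'
  have hε'0 : 0 < ε' := by positivity
  have key : ∀ i : Fin n, ∃ H0 : ℝ, 0 < H0 ∧ ∀ H : ℝ, ∃ X0 : ℝ, 1 < X0 ∧ (H0 ≤ H → ∀ X : ℝ, X0 ≤ X → ∀ C D : ℝ,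
      Real.sqrt X / K' ≤ C → C ≤ K' * Real.sqrt X → Real.sqrt X / K' ≤ D → D ≤ K' * Real.sqrt X →
      ∫ τ, ‖Sg (fzc z M1 (χ i)) (fzc ((starRingEnd ℂ) z) M2 (ψ i)) C D (H / X) τ‖ ^ 2 ≤ ε' * H ^ 2) := by
    intro i
    obtain ⟨H0, hH0, h⟩ := mrs_one (fzc z M1 (χ i)) (fzc ((starRingEnd ℂ) z) M2 (ψ i)) (cf_fzc hq hz _ _) (cf_fzc hq hcz _ _)
      (fun ε1 hε1 => ptw q hq _ hcz hcz1 M2 (ψ i) ε1 hε1) K' ε' hK'1 hε'0
    refine ⟨H0, hH0, fun H => ?_⟩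
    by_cases hH : H0 ≤ H
    · obtain ⟨X0, hX0, h'⟩ := h H hH
      exact ⟨X0, hX0, fun _ => h'⟩
    · exact ⟨2, one_lt_two, fun h' => absurd h' hH⟩
  choose H0 hH0 X0 hX0 hmain using key
  refine ⟨1 + ∑ i, H0 i, by have := sum_nonneg (fun i (_ : i ∈ (univ : Finset (Fin n))) => (hH0 i).le); linarith, fun H hH => ?_⟩
  refine ⟨1 + ∑ i, X0 i H, fun X hX => ?_⟩
  have hHi : ∀ i, H0 i ≤ H := by
    intro i
    have := single_le_sum (fun j (_ : j ∈ (univ : Finset (Fin n))) => (hH0 j).le) (mem_univ i)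
    linarith
  have hXi : ∀ i, X0 i H ≤ X := by
    intro i
    have := single_le_sum (f := fun j => X0 j H) (fun j (_ : j ∈ (univ : Finset (Fin n))) => (zero_lt_one.trans (hX0 j H)).le) (mem_univ i)
    linarith
  have hX1 : 0 < X := by
    have := sum_nonneg (fun j (_ : j ∈ (univ : Finset (Fin n))) => (zero_lt_one.trans (hX0 j H)).le)
    linarith
  have hsX : 0 < Real.sqrt X := Real.sqrt_pos.2 hX1
  set φ : ℝ := Real.log d2 - Real.log d1 with hφ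
  have hC1 : Real.sqrt X / K' ≤ Real.sqrt X / d1 := by
    apply div_le_div_of_nonneg_left hsX.le (by linarith)
    calc (d1 : ℝ) = 1 * d1 * 1 := by ring
      _ ≤ K * d1 * d2 := by gcongr
  have hC2 : Real.sqrt X / d1 ≤ K' * Real.sqrt X := by
    calc Real.sqrt X / d1 ≤ Real.sqrt X := div_le_self hsX.le hd1'
      _ = 1 * Real.sqrt X := (one_mul _).symm
      _ ≤ K' * Real.sqrt X := by gcongr
  have hD1 : Real.sqrt X / K' ≤ K * Real.sqrt X / d2 := by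
    rw [div_le_div_iff₀ (by linarith) (by linarith)]
    calc Real.sqrt X * d2 = 1 * Real.sqrt X * (1 * 1 * d2) := by ring
      _ ≤ K * Real.sqrt X * (K * d1 * d2) := by gcongr
  have hD2 : K * Real.sqrt X / d2 ≤ K' * Real.sqrt X := by
    calc K * Real.sqrt X / d2 ≤ K * Real.sqrt X := div_le_self (by positivity) hd2'
      _ ≤ K' * Real.sqrt X := by gcongr; linarith
  have hint : ∀ i : Fin n, Integrable (fun τ => ‖Sg (fzc z M1 (χ i)) (fzc ((starRingEnd ℂ) z) M2 (ψ i)) (Real.sqrt X / d1)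
      (K * Real.sqrt X / d2) (H / X) (τ - φ)‖ ^ 2) := by
    intro i
    exact (mrs_int _ _ _ _ _).comp_sub_right φ
  have hpt : ∀ τ : ℝ, ‖Ss (fun n => z ^ ArithmeticFunction.cardFactors n) m b (Real.sqrt X) (K * Real.sqrt X) (H / X) τ‖ ^ 2 ≤
      n * ∑ i : Fin n, ‖Sg (fzc z M1 (χ i)) (fzc ((starRingEnd ℂ) z) M2 (ψ i)) (Real.sqrt X / d1)
        (K * Real.sqrt X / d2) (H / X) (τ - φ)‖ ^ 2 := by
    intro τ
    rw [hdec]
    have h1 : ‖∑ i, a i * Sg (fzc z M1 (χ i)) (fzc ((starRingEnd ℂ) z) M2 (ψ i)) (Real.sqrt X / d1)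
        (K * Real.sqrt X / d2) (H / X) (τ - φ)‖ ≤ ∑ i : Fin n, ‖Sg (fzc z M1 (χ i)) (fzc ((starRingEnd ℂ) z) M2 (ψ i)) (Real.sqrt X / d1)
        (K * Real.sqrt X / d2) (H / X) (τ - φ)‖ := by
      refine (norm_sum_le _ _).trans (sum_le_sum fun i _ => ?_)
      rw [norm_mul]
      exact mul_le_of_le_one_left (norm_nonneg _) (ha i)
    refine (pow_le_pow_left₀ (norm_nonneg _) h1 2).trans ?_
    have h2 := sq_sum_le_card_mul_sum_sq (s := (univ : Finset (Fin n))) (f := fun i => ‖Sg (fzc z M1 (χ i)) (fzc ((starRingEnd ℂ) z) M2 (ψ i)) (Real.sqrt X / d1)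
        (K * Real.sqrt X / d2) (H / X) (τ - φ)‖)
    simpa using h2
  have hI : ∀ i : Fin n, ∫ τ, ‖Sg (fzc z M1 (χ i)) (fzc ((starRingEnd ℂ) z) M2 (ψ i)) (Real.sqrt X / d1)
      (K * Real.sqrt X / d2) (H / X) (τ - φ)‖ ^ 2 ≤ ε' * H ^ 2 := by
    intro i
    rw [integral_sub_right_eq_self (fun τ => ‖Sg (fzc z M1 (χ i)) (fzc ((starRingEnd ℂ) z) M2 (ψ i)) (Real.sqrt X / d1)
      (K * Real.sqrt X / d2) (H / X) τ‖ ^ 2) φ]
    exact hmain i H (hHi i) X (hXi i) _ _ hC1 hC2 hD1 hD2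
  calc ∫ τ, ‖Ss (fun n => z ^ ArithmeticFunction.cardFactors n) m b (Real.sqrt X) (K * Real.sqrt X) (H / X) τ‖ ^ 2
      ≤ ∫ τ, (n * ∑ i : Fin n, ‖Sg (fzc z M1 (χ i)) (fzc ((starRingEnd ℂ) z) M2 (ψ i)) (Real.sqrt X / d1)
        (K * Real.sqrt X / d2) (H / X) (τ - φ)‖ ^ 2) := by
        refine integral_mono_of_nonneg (ae_of_all _ fun τ => sq_nonneg _) ?_ (ae_of_all _ hpt)
        exact (integrable_finsetSum _ fun i _ => hint i).const_mul _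
    _ = n * ∑ i : Fin n, ∫ τ, ‖Sg (fzc z M1 (χ i)) (fzc ((starRingEnd ℂ) z) M2 (ψ i)) (Real.sqrt X / d1)
        (K * Real.sqrt X / d2) (H / X) (τ - φ)‖ ^ 2 := by
        rw [integral_const_mul, integral_finsetSum _ fun i _ => hint i]
    _ ≤ n * ∑ _i : Fin n, ε' * H ^ 2 := by
        gcongr with i
        exact hI i
    _ = (n : ℝ) ^ 2 * (ε' * H ^ 2) := by
        rw [sum_const, card_univ, Fintype.card_fin, nsmul_eq_mul]
        ring
    _ ≤ ((n : ℝ) ^ 2 + 1) * (ε' * H ^ 2) := by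
        gcongr
        linarith
    _ = ε * H ^ 2 := by
        rw [hε']
        field_simp

end Pool.Agent.SplI
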