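import Pool.Agent.Lib_MP_92ef0c_spi.CutAll
import Pool.Agent.Lib_MP_f1a94e_eq.Np

/-!
# Piece I-NEAR: bounded height
-/

set_option autoImplicit false

namespace Pool.Agent.SplI

open Finset

private theorem near_split (f : ℕ → ℂ) {P Q : ℝ} (hP : 1 ≤ P) (hPQ : P ≤ Q) :
    ∑ p ∈ PrI P Q, f p = ∑ p ∈ PrI 1 Q, f p - ∑ p ∈ PrI 1 P, f p := by
  classical
  have h1 : PrI 1 P ⊆ PrI 1 Q := by
    intro p hp
    rw [mem_PrI] at hp ⊢
    exact ⟨hp.1, hp.2.1, hp.2.2.trans hPQ⟩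
  have h2 : PrI P Q = PrI 1 Q \ PrI 1 P := by
    ext p
    rw [mem_sdiff, mem_PrI, mem_PrI, mem_PrI]
    constructor
    · rintro ⟨a, b, c⟩
      exact ⟨⟨a, by linarith, c⟩, fun h => by linarith [h.2.2]⟩
    · rintro ⟨⟨a, b, c⟩, d⟩
      refine ⟨a, ?_, c⟩
      by_contra h
      exact d ⟨a, b, not_lt.1 h⟩
  rw [h2, ← sum_sdiff h1]
  ring

private theorem near_term (p : Nat.Primes) (u : ℂ) (δ t : ℝ) :
    u * et t (p : ℕ) * (((p : ℕ) : ℂ) ^ (-((1 + δ : ℝ) : ℂ))) =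
      u * ((p : ℕ) : ℂ) ^ (-((1 + δ : ℝ) + (t : ℂ) * Complex.I)) := by
  have hp : (((p : ℕ) : ℂ)) ≠ 0 := by exact_mod_cast p.2.ne_zero
  have h1 : Complex.log (((p : ℕ) : ℂ)) = ((Real.log (p : ℕ) : ℝ) : ℂ) := by
    rw [Complex.natCast_log]
  rw [mul_assoc]
  congr 1
  unfold et
  rw [Complex.cpow_def_of_ne_zero hp, Complex.cpow_def_of_ne_zero hp, h1, ← Complex.exp_add]
  congr 1
  push_cast
  ring

private theorem near_one_log {T : ℝ} (hT : 3 ≤ T) : 1 ≤ Real.log T := by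
  rw [Real.le_log_iff_exp_le (by linarith)]
  have := Real.exp_one_lt_d9
  linarith

/-- the difference of the pole terms -/
private theorem near_lam {a b t : ℝ} (hb : 0 < b) (hab : b ≤ a) :
    0 ≤ Real.log (1 / ‖(b : ℂ) + (t : ℂ) * Complex.I‖) -
        Real.log (1 / ‖(a : ℂ) + (t : ℂ) * Complex.I‖) ∧
      Real.log (1 / ‖(b : ℂ) + (t : ℂ) * Complex.I‖) -
        Real.log (1 / ‖(a : ℂ) + (t : ℂ) * Complex.I‖) ≤ Real.log a - Real.log b := by
  have ha : 0 < a := by linarith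
  have hn : ∀ x : ℝ, ‖(x : ℂ) + (t : ℂ) * Complex.I‖ = Real.sqrt (x ^ 2 + t ^ 2) := by
    intro x
    exact Complex.norm_add_mul_I x t
  have hpb : 0 < b ^ 2 + t ^ 2 := by positivity
  have hpa : 0 < a ^ 2 + t ^ 2 := by positivity
  rw [hn, hn, one_div, one_div, Real.log_inv, Real.log_inv, Real.log_sqrt hpb.le,
    Real.log_sqrt hpa.le]
  constructor
  · have h1 : Real.log (b ^ 2 + t ^ 2) ≤ Real.log (a ^ 2 + t ^ 2) := by
      apply Real.log_le_log hpb
      nlinarith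
    linarith
  · have h2 : (a ^ 2 + t ^ 2) * b ^ 2 ≤ a ^ 2 * (b ^ 2 + t ^ 2) := by
      have : t ^ 2 * b ^ 2 ≤ t ^ 2 * a ^ 2 := by
        apply mul_le_mul_of_nonneg_left _ (sq_nonneg t)
        nlinarith
      nlinarith
    have h3 := Real.log_le_log (by positivity) h2
    rw [Real.log_mul hpa.ne' (by positivity), Real.log_mul (by positivity) hpb.ne',
      Real.log_pow, Real.log_pow] at h3
    push_cast at h3
    linarith

/-- `cut_all` (with `f p = χ(p) p^(-iτ)`) and `charSum` (Lib_MP_f1a94e_eq/Np.lean) with `δ = 1 / log T`: `∑_(p ≤ T) χ(p) p^(-1-iτ) = [χ = 1] log (1 / |1/log T + iτ|) + O(1)`, uniformly for `|τ| ≤ 1`. Difference for `T = Q` and `T = P`: if `χ = 1` it is `λ + O(1)` with `0 ≤ λ = log (|1/log P + iτ| / |1/log Q + iτ|) ≤ log log Q - log log P`. So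
`Re (z ∑_(P < p ≤ Q) χ(p) p^(-1-iτ)) ≤ max 0 (Re z) (log log Q - log log P) + C`, and `Re z < 1`. (`et τ p = p^(-iτ)`.) -/
theorem near_i (z : ℂ) (hz : ‖z‖ = 1) (hz1 : z ≠ 1) (M : ℕ) [NeZero M] (χ : DirichletCharacter ℂ M) : ∃ c C : ℝ, 0 < c ∧ ∀ P Q : ℝ, 3 ≤ P → P ≤ Q →
    ∀ t : ℝ, |t| ≤ 1 → c * Lr P Q - C ≤ ∑ p ∈ PrI P Q, (1 - (z * χ ((p : ℕ) : ZMod M) * et t p).re) / (p : ℝ) := by
  classical
  obtain ⟨C0, hC0, hcut⟩ := cut_all
  obtain ⟨C1, hC1⟩ := Pool.Agent.OmEq.NpP.charSum M χ 1 one_pos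
  obtain ⟨C2, hC2, hLr⟩ := Lr_bounds
  have hzre : z.re < 1 := by
    have h1 : z.re ≤ 1 := hz ▸ Complex.re_le_norm z
    rcases h1.lt_or_eq with h | h
    · exact h
    · exfalso
      apply hz1
      have h2 : z.re ^ 2 + z.im ^ 2 = 1 := by
        have := Complex.sq_norm z
        rw [hz, Complex.normSq_apply] at this
        nlinarith
      have h3 : z.im = 0 := by
        have : z.im ^ 2 = 0 := by rw [h] at h2; linarith
        exact pow_eq_zero_iff (by norm_num) |>.1 this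
      apply Complex.ext
      · simpa using h
      · simpa using h3
  set m : ℝ := max 0 z.re with hm
  have hm0 : 0 ≤ m := le_max_left _ _
  have hm1 : m < 1 := max_lt one_pos hzre
  refine ⟨1 - m, C2 + 2 * (C0 + C1), by linarith, fun P Q hP hPQ t ht => ?_⟩
  have hQ : 3 ≤ Q := hP.trans hPQ
  set f : ℕ → ℂ := fun p => χ ((p : ℕ) : ZMod M) * et t p with hf
  have hf1 : ∀ p, ‖f p‖ ≤ 1 := by
    intro p
    rw [hf]
    simp only
    rw [norm_mul, norm_et, mul_one]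
    exact χ.norm_le_one _
  have key : ∀ T : ℝ, 3 ≤ T →
      ‖∑ p ∈ PrI 1 T, f p / (p : ℂ) -
        (((if χ = 1 then (1 : ℝ) else 0) *
          Real.log (1 / ‖((1 / Real.log T : ℝ) : ℂ) + (t : ℂ) * Complex.I‖) : ℝ) : ℂ)‖ ≤ C0 + C1 := by
    intro T hT
    have hL := near_one_log hT
    have h1 := hcut T hT f hf1
    have h2 := hC1 (1 / Real.log T) t (by positivity) (by
      rw [div_le_one (by linarith)]; exact hL) ht
    have h3 : ∑' p : Nat.Primes, f (p : ℕ) * (((p : ℕ) : ℂ) ^ (-((1 + 1 / Real.log T : ℝ) : ℂ))) =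
        ∑' p : Nat.Primes, χ (((p : ℕ) : ZMod M)) * ((p : ℕ) : ℂ) ^
          (-((1 + (1 / Real.log T) : ℝ) + (t : ℂ) * Complex.I)) := by
      refine tsum_congr fun p => ?_
      exact near_term p (χ (((p : ℕ) : ZMod M))) (1 / Real.log T) t
    rw [h3] at h1
    calc _ = ‖(∑ p ∈ PrI 1 T, f p / (p : ℂ) - ∑' p : Nat.Primes, χ (((p : ℕ) : ZMod M)) *
          ((p : ℕ) : ℂ) ^ (-((1 + (1 / Real.log T) : ℝ) + (t : ℂ) * Complex.I))) +
          ((∑' p : Nat.Primes, χ (((p : ℕ) : ZMod M)) *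
          ((p : ℕ) : ℂ) ^ (-((1 + (1 / Real.log T) : ℝ) + (t : ℂ) * Complex.I))) -
          (((if χ = 1 then (1 : ℝ) else 0) *
          Real.log (1 / ‖((1 / Real.log T : ℝ) : ℂ) + (t : ℂ) * Complex.I‖) : ℝ) : ℂ))‖ := by
          congr 1
          ring
      _ ≤ _ := (norm_add_le _ _).trans (add_le_add h1 h2)
  have kQ := key Q hQ
  have kP := key P hP
  have hLP := near_one_log hP
  have hLQ := near_one_log hQ
  have hLPQ : Real.log P ≤ Real.log Q := Real.log_le_log (by linarith) hPQ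
  obtain ⟨l0, l1⟩ := near_lam (a := 1 / Real.log P) (b := 1 / Real.log Q) (t := t)
    (by positivity) (one_div_le_one_div_of_le (by linarith) hLPQ)
  have hlog : Real.log (1 / Real.log P) - Real.log (1 / Real.log Q) =
      Real.log (Real.log Q) - Real.log (Real.log P) := by
    rw [one_div, one_div, Real.log_inv, Real.log_inv]
    ring
  rw [hlog] at l1
  set lam : ℝ := Real.log (1 / ‖((1 / Real.log Q : ℝ) : ℂ) + (t : ℂ) * Complex.I‖) -
    Real.log (1 / ‖((1 / Real.log P : ℝ) : ℂ) + (t : ℂ) * Complex.I‖) with hlam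
  set e : ℝ := if χ = 1 then (1 : ℝ) else 0 with he
  have he01 : 0 ≤ e ∧ e ≤ 1 := by
    rw [he]
    split_ifs <;> constructor <;> norm_num
  have hdiff : ‖∑ p ∈ PrI P Q, f p / (p : ℂ) - ((e * lam : ℝ) : ℂ)‖ ≤ 2 * (C0 + C1) := by
    rw [near_split (fun p => f p / (p : ℂ)) (by linarith) hPQ, hlam]
    have := norm_sub_le_of_le kQ kP
    refine le_trans (le_of_eq ?_) (this.trans (by linarith))
    congr 1
    push_cast
    ring
  have hre : (z * ∑ p ∈ PrI P Q, f p / (p : ℂ)).re ≤ m * (Lr P Q + C2) + 2 * (C0 + C1) := by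
    have h1 : z * ∑ p ∈ PrI P Q, f p / (p : ℂ) = ((e * lam : ℝ) : ℂ) * z +
        z * (∑ p ∈ PrI P Q, f p / (p : ℂ) - ((e * lam : ℝ) : ℂ)) := by ring
    rw [h1, Complex.add_re, Complex.re_ofReal_mul]
    have h2 : (z * (∑ p ∈ PrI P Q, f p / (p : ℂ) - ((e * lam : ℝ) : ℂ))).re ≤ 2 * (C0 + C1) := by
      refine (Complex.re_le_norm _).trans ?_
      rw [norm_mul, hz, one_mul]
      exact hdiff
    have hb := (abs_le.1 (hLr P Q (by linarith) hPQ)).1
    have h3 : e * lam * z.re ≤ m * (Lr P Q + C2) := by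
      have h4 : e * lam * z.re ≤ e * lam * m :=
        mul_le_mul_of_nonneg_left (le_max_right _ _) (mul_nonneg he01.1 l0)
      have h5 : e * lam ≤ lam := by nlinarith [he01.1, he01.2]
      have h6 : e * lam * m ≤ lam * m := mul_le_mul_of_nonneg_right h5 hm0
      have h7 : lam * m ≤ (Lr P Q + C2) * m := mul_le_mul_of_nonneg_right (by linarith) hm0
      linarith
    linarith
  have hsum : ∑ p ∈ PrI P Q, (1 - (z * χ ((p : ℕ) : ZMod M) * et t p).re) / (p : ℝ) =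
      Lr P Q - (z * ∑ p ∈ PrI P Q, f p / (p : ℂ)).re := by
    unfold Lr
    rw [mul_sum, Complex.re_sum, ← sum_sub_distrib]
    refine sum_congr rfl fun p _ => ?_
    have : z * (f p / (p : ℂ)) = (z * χ ((p : ℕ) : ZMod M) * et t p) / ((p : ℝ) : ℂ) := by
      rw [hf]
      push_cast
      ring
    rw [this, Complex.div_ofReal_re]
    ring
  rw [hsum]
  have hmC : m * C2 ≤ C2 := by nlinarith
  nlinarith

end Pool.Agent.SplI
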