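import Pool.Agent.Lib_MP_92ef0c_spi.WeightI
import Pool.Agent.Lib_MP_92ef0c_spi.Mert
import Pool.Agent.Lib_MP_f1a94e_ecm.Bh2
import Pool.Agent.Lib_MP_f1a94e_mr.SieveA

/-!
# Piece I-SIEVE: rough numbers on which n^(iτ) is not close to one
-/

set_option autoImplicit false

namespace Pool.Agent.SplI

open Finset

open Pool.Agent.GaussMR.SieveA (sum_exp lev lev_pos one_le_lev lev_zero lev_anti lev_succ_sq
  log_lev exists_t one_sub_ge_sa)

namespace SieveI

/-- the error term tends to zero -/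
theorem sieveI_err {η B c : ℝ} (hη : 0 < η) (hc : 0 < c) :
    ∀ᶠ Y : ℝ in Filter.atTop, Y ^ (-η) * (B * Real.log Y) ≤ c := by
  have h1 : Filter.Tendsto (fun Y : ℝ => Real.log Y / Y ^ η) Filter.atTop (nhds 0) :=
    (isLittleO_log_rpow_atTop hη).tendsto_div_nhds_zero
  have h3 : Filter.Tendsto (fun Y : ℝ => B * (Real.log Y / Y ^ η)) Filter.atTop
      (nhds (B * 0)) := h1.const_mul B
  rw [mul_zero] at h3
  filter_upwards [h3.eventually_le_const hc, Filter.eventually_gt_atTop 0] with Y hY hY0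
  refine le_trans (le_of_eq ?_) hY
  rw [Real.rpow_neg hY0.le]
  ring

/-- `∑ 1 / p` over the primes up to `y` -/
theorem sieveI_sum : ∃ C : ℝ, 0 < C ∧ ∀ y : ℝ, 2 ≤ y →
    ∑ p ∈ PrI 1 y, 1 / (p : ℝ) ≤ Real.log (Real.log y) - Real.log (Real.log 2) + C := by
  obtain ⟨C, hC0, hC⟩ := Lr_bounds
  refine ⟨C + 1, by linarith, fun y hy => ?_⟩
  have h1 := (abs_le.1 (hC 2 y le_rfl hy)).2
  have hsub : PrI 1 y ⊆ insert 2 (PrI 2 y) := by
    intro p hp
    rw [mem_PrI] at hp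
    rw [mem_insert, mem_PrI]
    rcases Nat.eq_or_lt_of_le hp.1.two_le with h | h
    · exact Or.inl h.symm
    · exact Or.inr ⟨hp.1, by exact_mod_cast h, hp.2.2⟩
  have h2 : ∑ p ∈ PrI 1 y, 1 / (p : ℝ) ≤ ∑ p ∈ insert 2 (PrI 2 y), 1 / (p : ℝ) :=
    Finset.sum_le_sum_of_subset_of_nonneg hsub fun p _ _ => by positivity
  have h3 : ∑ p ∈ insert 2 (PrI 2 y), 1 / (p : ℝ) = 1 / 2 + Lr 2 y := by
    rw [Finset.sum_insert]
    · simp [Lr]
    · rw [mem_PrI]
      intro h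
      have := h.2.1
      norm_num at this
  linarith

/-- `∏ (1 + 1 / p)` over the primes up to `y` -/
theorem sieveI_prod : ∃ B : ℝ, 0 < B ∧ ∀ y : ℝ, 2 ≤ y →
    ∏ p ∈ PrI 1 y, (1 + 1 / (p : ℝ)) ≤ B * Real.log y := by
  obtain ⟨C, hC0, hC⟩ := sieveI_sum
  have hl2 : 0 < Real.log 2 := Real.log_pos (by norm_num)
  refine ⟨Real.exp C / Real.log 2, by positivity, fun y hy => ?_⟩
  have hly : 0 < Real.log y := Real.log_pos (by linarith)
  calc ∏ w ∈ PrI 1 y, (1 + 1 / (w : ℝ)) ≤ ∏ w ∈ PrI 1 y, Real.exp (1 / (w : ℝ)) := by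
        refine Finset.prod_le_prod (fun w _ => by positivity) fun w _ => ?_
        have := Real.add_one_le_exp (1 / (w : ℝ))
        linarith
    _ = Real.exp (∑ w ∈ PrI 1 y, 1 / (w : ℝ)) := (Real.exp_sum _ _).symm
    _ ≤ Real.exp (Real.log (Real.log y) - Real.log (Real.log 2) + C) :=
        Real.exp_le_exp.mpr (hC y hy)
    _ = Real.exp C / Real.log 2 * Real.log y := by
        rw [Real.exp_add, Real.exp_sub, Real.exp_log hly, Real.exp_log hl2]
        ring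

theorem sieveI_sq : ∃ C2 : ℝ, 0 ≤ C2 ∧ ∀ y : ℝ, ∑ p ∈ PrI 1 y, (1 / (p : ℝ)) ^ 2 ≤ C2 := by
  have hsum : Summable (fun n : ℕ => 1 / (n : ℝ) ^ 2) :=
    Real.summable_one_div_nat_pow.2 (by norm_num)
  refine ⟨∑' n : ℕ, 1 / (n : ℝ) ^ 2, tsum_nonneg fun n => by positivity, fun y => ?_⟩
  refine le_trans (le_of_eq ?_) (hsum.sum_le_tsum (PrI 1 y) fun n _ => by positivity)
  refine Finset.sum_congr rfl fun p _ => ?_
  rw [one_div_pow]

theorem sieveI_lower : ∃ c3 : ℝ, 0 < c3 ∧ ∀ y : ℝ, 2 ≤ y →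
    c3 / Real.log y ≤ ∏ p ∈ PrI 1 y, (1 - 1 / (p : ℝ)) := by
  obtain ⟨C, hC0, hC⟩ := sieveI_sum
  obtain ⟨C2, hC20, hC2⟩ := sieveI_sq
  have hl2 : 0 < Real.log 2 := Real.log_pos (by norm_num)
  refine ⟨Real.log 2 * Real.exp (-(C + 2 * C2)), by positivity, ?_⟩
  intro y hy
  have h1 := hC y hy
  have hly : 0 < Real.log y := Real.log_pos (by linarith)
  calc Real.log 2 * Real.exp (-(C + 2 * C2)) / Real.log y =
      Real.exp (-(Real.log (Real.log y) - Real.log (Real.log 2) + C) + -(2 * C2)) := by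
        have e1 : -(Real.log (Real.log y) - Real.log (Real.log 2) + C) + -(2 * C2) =
            Real.log (Real.log 2) + -(C + 2 * C2) - Real.log (Real.log y) := by ring
        rw [e1, Real.exp_sub, Real.exp_add, Real.exp_log hl2, Real.exp_log hly]
    _ ≤ Real.exp (∑ w ∈ PrI 1 y, -(1 / (w : ℝ) + 2 * (1 / (w : ℝ)) ^ 2)) := by
        apply Real.exp_le_exp.mpr
        rw [Finset.sum_neg_distrib, Finset.sum_add_distrib, ← Finset.mul_sum]
        have := hC2 y
        linarith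
    _ = ∏ w ∈ PrI 1 y, Real.exp (-(1 / (w : ℝ) + 2 * (1 / (w : ℝ)) ^ 2)) :=
        Real.exp_sum _ _
    _ ≤ ∏ w ∈ PrI 1 y, (1 - 1 / (w : ℝ)) := by
        refine Finset.prod_le_prod (fun w _ => (Real.exp_pos _).le) fun w hw => ?_
        have h5 : (2 : ℝ) ≤ w := by exact_mod_cast (mem_PrI.1 hw).1.two_le
        refine one_sub_ge_sa (by positivity) ?_
        rw [div_le_div_iff₀ (by linarith) (by norm_num)]
        linarith

open Classical in
/-- the classes of primes; the last one (index `t`) contains all the small primes -/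
noncomputable def PN (y : ℝ) (t i : ℕ) : Finset ℕ :=
  (PrI 1 y).filter (fun p => (p : ℝ) ≤ lev y i ∧ (i < t → lev y (i + 1) < (p : ℝ)))

theorem mem_PN {y : ℝ} {t i : ℕ} {p : ℕ} :
    p ∈ PN y t i ↔ p ∈ PrI 1 y ∧ (p : ℝ) ≤ lev y i ∧ (i < t → lev y (i + 1) < (p : ℝ)) := by
  classical
  simp [PN]

theorem PN_disjoint {y : ℝ} (hy : 1 ≤ y) {t i j : ℕ} (hi : i < t + 1) (hj : j < t + 1)
    (h : i ≠ j) : Disjoint (PN y t i) (PN y t j) := by
  rw [Finset.disjoint_left]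
  intro w h1 h2
  rw [mem_PN] at h1 h2
  rcases lt_or_gt_of_ne h with h3 | h3
  · have := lev_anti hy (Nat.succ_le_of_lt h3)
    have h4 := h1.2.2 (by omega)
    simp only [Nat.succ_eq_add_one] at this
    linarith [h2.2.1]
  · have := lev_anti hy (Nat.succ_le_of_lt h3)
    have h4 := h2.2.2 (by omega)
    simp only [Nat.succ_eq_add_one] at this
    linarith [h1.2.1]

theorem PN_union {y : ℝ} {t : ℕ} :
    (Finset.range (t + 1)).biUnion (PN y t) = PrI 1 y := by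
  classical
  ext w
  rw [Finset.mem_biUnion]
  constructor
  · rintro ⟨i, -, hi⟩
    exact (mem_PN.mp hi).1
  · intro hw
    by_cases hall : ∃ j, j ≤ t ∧ lev y j < (w : ℝ)
    · have hj := Nat.find_spec hall
      have hmin : ∀ j, j < Nat.find hall → ¬ (j ≤ t ∧ lev y j < (w : ℝ)) :=
        fun j hj => Nat.find_min hall hj
      have hj0 : Nat.find hall ≠ 0 := by
        intro h0
        rw [h0, lev_zero] at hj
        exact absurd (mem_PrI.mp hw).2.2 (not_le.mpr hj.2)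
      obtain ⟨i, hi⟩ := Nat.exists_eq_succ_of_ne_zero hj0
      rw [hi] at hj
      have hmi := hmin i (by omega)
      refine ⟨i, Finset.mem_range.mpr (by omega), mem_PN.mpr ⟨hw, ?_, fun _ => hj.2⟩⟩
      by_contra hlt
      exact hmi ⟨by omega, not_le.mp hlt⟩
    · push Not at hall
      exact ⟨t, Finset.mem_range.mpr (by omega),
        mem_PN.mpr ⟨hw, hall t le_rfl, fun h => absurd h (lt_irrefl _)⟩⟩

theorem PN_sum {C : ℝ} (hC0 : 0 < C) (hC : ∀ P Q : ℝ, 2 ≤ P → P ≤ Q →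
    |Lr P Q - (Real.log (Real.log Q) - Real.log (Real.log P))| ≤ C) {y : ℝ} (hy : 1 ≤ y)
    {t : ℕ} (ht : lev y t < 5) (ht5 : ∀ i < t, 5 ≤ lev y i) {i : ℕ} (hi : i < t + 1) :
    ∑ p ∈ PN y t i, 1 / (p : ℝ) ≤ 3 + C := by
  classical
  rcases Nat.lt_or_ge i t with hit | hit
  · have h5 := ht5 i hit
    have hsq := lev_succ_sq hy i
    have hp := lev_pos hy (i + 1)
    have h2 : 2 ≤ lev y (i + 1) := by nlinarith
    have h1 := (abs_le.1 (hC (lev y (i + 1)) (lev y i) h2 (lev_anti hy (Nat.le_succ i)))).2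
    have hlog : Real.log (lev y i) = 2 * Real.log (lev y (i + 1)) := by
      rw [← hsq, Real.log_pow]
      norm_num
    have hlp : 0 < Real.log (lev y (i + 1)) := Real.log_pos (by linarith)
    rw [hlog, Real.log_mul (by norm_num) hlp.ne'] at h1
    have hl2 : Real.log 2 ≤ 1 := by
      have := Real.log_two_lt_d9
      linarith
    have h3 : ∑ p ∈ PN y t i, 1 / (p : ℝ) ≤ Lr (lev y (i + 1)) (lev y i) := by
      unfold Lr
      refine Finset.sum_le_sum_of_subset_of_nonneg ?_ (fun w _ _ => by positivity)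
      intro w hw
      rw [mem_PN] at hw
      exact mem_PrI.mpr ⟨(mem_PrI.mp hw.1).1, hw.2.2 hit, hw.2.1⟩
    linarith
  · have hit' : i = t := by omega
    subst hit'
    have hsub : PN y i i ⊆ Finset.Icc 2 4 := by
      intro w hw
      rw [mem_PN] at hw
      have h1 : (w : ℝ) < 5 := lt_of_le_of_lt hw.2.1 ht
      have h2 : w < 5 := by exact_mod_cast h1
      have h3 := (mem_PrI.mp hw.1).1.two_le
      rw [Finset.mem_Icc]
      omega
    have h1 : ∑ p ∈ PN y i i, 1 / (p : ℝ) ≤ ∑ p ∈ Finset.Icc (2 : ℕ) 4, 1 / (p : ℝ) :=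
      Finset.sum_le_sum_of_subset_of_nonneg hsub fun p _ _ => by positivity
    have h2 : ∑ p ∈ Finset.Icc (2 : ℕ) 4, 1 / (p : ℝ) ≤ ∑ p ∈ Finset.Icc (2 : ℕ) 4, (1 : ℝ) := by
      refine Finset.sum_le_sum fun p hp => ?_
      have : (1 : ℝ) ≤ p := by
        have := (Finset.mem_Icc.mp hp).1
        exact_mod_cast (by omega : 1 ≤ p)
      rw [div_le_one (by linarith)]
      exact this
    have h3 : ∑ p ∈ Finset.Icc (2 : ℕ) 4, (1 : ℝ) = 3 := by simp
    linarith

theorem prod_le_PN {y : ℝ} (hy : 1 ≤ y) {b t : ℕ} {D : Finset ℕ}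
    (hD : D ⊆ (Finset.range (t + 1)).biUnion (PN y t))
    (hc : ∀ i < t + 1, (D ∩ PN y t i).card ≤ 2 * (b + i) + 1) :
    ((∏ w ∈ D, w : ℕ) : ℝ) ≤ y ^ (4 * b + 6 : ℝ) := by
  classical
  have hDe : D = (Finset.range (t + 1)).biUnion (fun i => D ∩ PN y t i) := by
    rw [← Finset.inter_biUnion, Finset.inter_eq_left.mpr hD]
  push_cast
  rw [hDe, Finset.prod_biUnion]
  · calc ∏ i ∈ Finset.range (t + 1), ∏ w ∈ D ∩ PN y t i, (w : ℝ) ≤
        ∏ i ∈ Finset.range (t + 1), y ^ ((2 * ((b : ℝ) + i) + 1) / 2 ^ i) := by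
          refine Finset.prod_le_prod (fun i _ => Finset.prod_nonneg fun w _ => Nat.cast_nonneg _)
            fun i hi => ?_
          calc ∏ w ∈ D ∩ PN y t i, (w : ℝ) ≤ ∏ w ∈ D ∩ PN y t i, lev y i := by
                refine Finset.prod_le_prod (fun w _ => Nat.cast_nonneg _) fun w hw => ?_
                exact (mem_PN.mp (Finset.mem_inter.mp hw).2).2.1
            _ = lev y i ^ (D ∩ PN y t i).card := by rw [Finset.prod_const]
            _ ≤ lev y i ^ (2 * (b + i) + 1) :=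
                pow_le_pow_right₀ (one_le_lev hy i) (hc i (Finset.mem_range.mp hi))
            _ = y ^ ((2 * ((b : ℝ) + i) + 1) / 2 ^ i) := by
                unfold lev
                rw [← Real.rpow_natCast, ← Real.rpow_mul (by linarith)]
                congr 1
                push_cast
                ring
      _ = y ^ (∑ i ∈ Finset.range (t + 1), (2 * ((b : ℝ) + i) + 1) / 2 ^ i) := by
          rw [Real.rpow_sum_of_pos (by linarith)]
      _ ≤ y ^ (4 * b + 6 : ℝ) := by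
          refine Real.rpow_le_rpow_of_exponent_le hy ?_
          rw [sum_exp]
          have : 0 ≤ (4 * (b : ℝ) + 4 * ((t + 1 : ℕ) : ℝ) + 6) / 2 ^ (t + 1) := by positivity
          linarith
  · intro i hi j hj hij
    have hi' : i < t + 1 := by simpa using hi
    have hj' : j < t + 1 := by simpa using hj
    exact Finset.disjoint_of_subset_left Finset.inter_subset_right
      (Finset.disjoint_of_subset_right Finset.inter_subset_right (PN_disjoint hy hi' hj' hij))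

theorem prod_dvd_PN {D : Finset ℕ} (hD : ∀ p ∈ D, p.Prime) {u : ℕ} (h : ∀ w ∈ D, w ∣ u) :
    ∏ w ∈ D, w ∣ u :=
  Finset.prod_primes_dvd u (fun p hp => (hD p hp).prime) h

end SieveI

open SieveI

/-- Copy of `sieve2` (Lib_MP_f1a94e_ecm/Sieve2.lean, or `sieve_all` in Lib_MP_f1a94e_mr/SieveA.lean) for natural numbers: `obj = Ioc ⌊Y^(1/2)⌋ ⌊Y^(3/4)⌋`, weights `(1/n)(1 - Re n^(iτ))`, primes `p < Y^a` (all primes, `g p = 1/p ≤ 1/2`), classes `(y^(1/2^(i+1)), y^(1/2^i)]` with sums of `1/p` at most `G0` (`Lr_bounds`; the last class, small primes, has bounded sum),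
`E = Y^(-η)` (`weight_i`), `X0 ≥ log Y / 8`; products `D` of the family are at most `y^(4 b + 6) ≤ Y^(1/4)` with `a = 1/(4 (4 b + 6))` absolute. Main term `(X0/2) ∏_(p < Y^a) (1 - 1/p) ≥ c/a`-type constant by `Lr_bounds` (`log (1 - 1/p) ≥ -1/p - 1/p²`), error `Y^(-η) ∏ (1 + 1/p) ≤ Y^(-η) C log Y → 0`. -/
theorem sieve_i (hZS : ZsLogS) : ∃ a c : ℝ, 0 < a ∧ a ≤ 1 / 4 ∧ 0 < c ∧ ∀ A : ℝ, 1 ≤ A → ∃ Y0 : ℝ, 1 < Y0 ∧ ∀ Y : ℝ, Y0 ≤ Y → ∀ τ : ℝ, 1 ≤ |τ| → |τ| ≤ Y ^ A →
    open Classical in c ≤ ∑ n ∈ (Ioc ⌊Y ^ (1 / 2 : ℝ)⌋₊ ⌊Y ^ (3 / 4 : ℝ)⌋₊).filter (RoughN (Y ^ a)), (1 / (n : ℝ)) * (1 - (et (-τ) n).re) := by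
  classical
  obtain ⟨C, hC0, hC⟩ := Lr_bounds
  obtain ⟨c3, hc3, hprod⟩ := sieveI_lower
  obtain ⟨B, hB, hBp⟩ := sieveI_prod
  obtain ⟨b, hb⟩ := Pool.Agent.ECM.bh2 (3 + C) (by positivity)
  obtain ⟨a, ha⟩ : ∃ a : ℝ, a = 1 / (4 * (4 * b + 6)) := ⟨_, rfl⟩
  have ha0 : 0 < a := by rw [ha]; positivity
  have ha1 : a ≤ 1 / 4 := by
    rw [ha]
    apply one_div_le_one_div_of_le (by norm_num)
    have : (0 : ℝ) ≤ b := Nat.cast_nonneg b
    linarith
  have hab : a * (4 * b + 6) = 1 / 4 := by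
    rw [ha]
    have : (4 * (b : ℝ) + 6) ≠ 0 := by positivity
    field_simp
  have hc : 0 < c3 / (32 * a) := by positivity
  refine ⟨a, c3 / (32 * a), ha0, ha1, hc, ?_⟩
  intro A hA
  obtain ⟨η, Y1, hη, hY1, hw⟩ := weight_i hZS A hA
  obtain ⟨Y2, hY2⟩ := Filter.eventually_atTop.mp
    ((sieveI_err (η := η) (B := B * a) hη hc).and
    (((tendsto_rpow_atTop ha0).eventually_ge_atTop 2)))
  refine ⟨max (max Y1 Y2) 2, lt_of_lt_of_le (by norm_num) (le_max_right _ _), ?_⟩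
  intro Y hY τ hτ1 hτ2
  have hXX1 : Y1 ≤ Y := (le_max_left _ _).trans ((le_max_left _ _).trans hY)
  have hXX2 : Y2 ≤ Y := (le_max_right _ _).trans ((le_max_left _ _).trans hY)
  have hX2' : 2 ≤ Y := (le_max_right _ _).trans hY
  obtain ⟨herr, hy2⟩ := hY2 Y hXX2
  have hX0 : 0 < Y := by linarith
  have hX1 : 1 ≤ Y := by linarith
  obtain ⟨y, hy⟩ : ∃ y : ℝ, y = Y ^ a := ⟨_, rfl⟩
  rw [← hy] at hy2
  have hy1 : 1 ≤ y := by linarith
  have hlogy : Real.log y = a * Real.log Y := by rw [hy, Real.log_rpow hX0]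
  have hlogX : 0 < Real.log Y := Real.log_pos (by linarith)
  have hlogy0 : 0 < Real.log y := by rw [hlogy]; positivity
  have hyX : y ^ (4 * b + 6 : ℝ) = Y ^ (1 / 4 : ℝ) := by
    rw [hy, ← Real.rpow_mul hX0.le, hab]
  obtain ⟨t, ht5, hti, -⟩ := exists_t hy1
  have hun : (Finset.range (t + 1)).biUnion (PN y t) = PrI 1 y := PN_union
  obtain ⟨X0, hX0l, hX0u, hwd⟩ := hw Y hXX1 τ hτ1 hτ2
  have hX00 : 0 ≤ X0 := le_trans (by positivity) hX0l
  set obj := Ioc ⌊Y ^ (1 / 2 : ℝ)⌋₊ ⌊Y ^ (3 / 4 : ℝ)⌋₊ with hobj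
  have hW : ∀ u ∈ obj, 0 ≤ (1 / (u : ℝ)) * (1 - (et (-τ) u).re) := by
    intro u _
    have h1 : (et (-τ) u).re ≤ 1 := by
      refine (Complex.re_le_norm _).trans ?_
      rw [norm_et]
    exact mul_nonneg (by positivity) (by linarith)
  have hBH := hb ℕ ℕ inferInstance obj (fun u => (1 / (u : ℝ)) * (1 - (et (-τ) u).re)) (t + 1)
    (PN y t) (fun u => (PrI 1 y).filter (fun w => w ∣ u)) (fun w => 1 / (w : ℝ)) X0
    (Y ^ (-η)) hW (fun i j hi hj hij => PN_disjoint hy1 hi hj hij)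
    (by
      intro u _
      rw [hun]
      exact Finset.filter_subset _ _)
    (by
      rw [hun]
      intro p hp
      have h5 : (2 : ℝ) ≤ p := by exact_mod_cast (mem_PrI.1 hp).1.two_le
      refine ⟨by positivity, ?_⟩
      rw [div_le_div_iff₀ (by linarith) (by norm_num)]
      linarith)
    (fun i hi => PN_sum hC0 hC hy1 ht5 hti hi) hX00 (by positivity)
    (by
      intro D hD hcard
      have hnm := prod_le_PN hy1 hD hcard
      rw [hyX] at hnm
      rw [hun] at hD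
      have hDp : ∀ p ∈ D, p.Prime := fun p hp => (mem_PrI.1 (hD hp)).1
      have hfil : obj.filter (fun u => D ⊆ (PrI 1 y).filter (fun w => w ∣ u)) =
          obj.filter (fun u => (∏ w ∈ D, w) ∣ u) := by
        refine Finset.filter_congr fun u _ => ?_
        constructor
        · intro h
          exact prod_dvd_PN hDp fun w hw => (Finset.mem_filter.mp (h hw)).2
        · intro h w hw
          exact Finset.mem_filter.mpr ⟨hD hw, (Finset.dvd_prod_of_mem (fun w => w) hw).trans h⟩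
      rw [hfil]
      have hpos : 0 < ∏ w ∈ D, w := Finset.prod_pos fun p hp => (hDp p hp).pos
      have h1 := hwd (∏ w ∈ D, w) hpos hnm
      have h2 : ∏ p ∈ D, 1 / (p : ℝ) = 1 / ((∏ w ∈ D, w : ℕ) : ℝ) := by
        push_cast
        rw [Finset.prod_div_distrib, Finset.prod_const_one]
      rw [h2, mul_one_div, mul_one_div]
      exact h1)
  rw [hun] at hBH
  -- the final inequality
  have hsub : ∑ u ∈ obj.filter (fun u => (PrI 1 y).filter (fun w => w ∣ u) = ∅),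
      (1 / (u : ℝ)) * (1 - (et (-τ) u).re) ≤
      ∑ u ∈ obj.filter (RoughN (Y ^ a)),
      (1 / (u : ℝ)) * (1 - (et (-τ) u).re) := by
    refine Finset.sum_le_sum_of_subset_of_nonneg ?_ ?_
    · intro u hu
      obtain ⟨hu1, hu2⟩ := Finset.mem_filter.mp hu
      refine Finset.mem_filter.mpr ⟨hu1, fun p hp hpu => ?_⟩
      by_contra hlt
      rw [not_le, ← hy] at hlt
      have : p ∈ (PrI 1 y).filter (fun w => w ∣ u) :=
        Finset.mem_filter.mpr ⟨mem_PrI.2 ⟨hp, by exact_mod_cast hp.one_lt, hlt.le⟩, hpu⟩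
      rw [hu2] at this
      exact absurd this (Finset.notMem_empty _)
    · intro u hu _
      exact hW u (Finset.mem_filter.mp hu).1
  refine le_trans ?_ (hBH.trans hsub)
  have hP0 : 0 ≤ ∏ p ∈ PrI 1 y, (1 - 1 / (p : ℝ)) := le_trans (by positivity) (hprod y hy2)
  have hmain : c3 / (16 * a) ≤ X0 / 2 * ∏ p ∈ PrI 1 y, (1 - 1 / (p : ℝ)) := by
    calc c3 / (16 * a) = Real.log Y / 8 / 2 * (c3 / Real.log y) := by
          rw [hlogy]
          field_simp
          norm_num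
      _ ≤ X0 / 2 * (c3 / Real.log y) := by
          refine mul_le_mul_of_nonneg_right ?_ (by positivity)
          linarith
      _ ≤ X0 / 2 * ∏ p ∈ PrI 1 y, (1 - 1 / (p : ℝ)) :=
          mul_le_mul_of_nonneg_left (hprod y hy2) (by positivity)
  have hE : Y ^ (-η) * ∏ p ∈ PrI 1 y, (1 + 1 / (p : ℝ)) ≤ c3 / (32 * a) := by
    refine le_trans (mul_le_mul_of_nonneg_left (hBp y hy2) (by positivity)) ?_
    rw [hlogy]
    refine le_trans (le_of_eq ?_) herr
    ring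
  have h4 : c3 / (16 * a) = 2 * (c3 / (32 * a)) := by
    field_simp
    ring
  linarith

end Pool.Agent.SplI
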