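import Pool.Agent.Lib_MP_92ef0c_spi.IDefs
import Pool.Agent.Lib_MP_f1a94e_mr.Basic

/-!
# Piece I-TK: Turan-Kubilius
-/

set_option autoImplicit false

namespace Pool.Agent.SplI

open Finset

private theorem tki_cnt (M d : ℕ) : ∑ n ∈ Icc 1 M, (if d ∣ n then (1:ℝ) else 0) = ((M / d : ℕ) : ℝ) := by
  rw [Finset.sum_boole]
  congr 1
  have := Nat.Ioc_filter_dvd_card_eq_div M d
  rw [← this]
  congr 1

private theorem tki_om (P Q : ℝ) (n : ℕ) : omI P Q n = ∑ p ∈ PrI P Q, (if p ∣ n then (1:ℝ) else 0) := by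
  unfold omI
  rw [Finset.sum_boole]

/-- Expand the square: `∑_(n ≤ N) omI = ∑_p ⌊N/p⌋`, `∑ omI² = ∑_(p ≠ p') ⌊N/(p p')⌋ + ∑_p ⌊N/p⌋`; errors: at most `π(Q)² ≤ Q² ≤ N` and `2 L π(Q) ≤ N` (`L ≤ π(Q)`), `∑ 1/p² ≤ 1`. -/
theorem tki : ∃ C : ℝ, 0 < C ∧ ∀ P Q N : ℝ, 2 ≤ P → P ≤ Q → Q ^ 2 ≤ N →
    ∑ n ∈ Icc 1 ⌊N⌋₊, (omI P Q n - Lr P Q) ^ 2 ≤ C * N * (Lr P Q + 1) := by
  refine ⟨1, one_pos, fun P Q N hP hPQ hQN => ?_⟩
  set M := ⌊N⌋₊ with hM
  set L := Lr P Q with hL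
  have hQ2 : 2 ≤ Q := hP.trans hPQ
  have hN0 : 0 ≤ N := le_trans (sq_nonneg Q) hQN
  have hMN : (M : ℝ) ≤ N := Nat.floor_le hN0
  have hNM : N < M + 1 := Nat.lt_floor_add_one N
  have hprime : ∀ p ∈ PrI P Q, p.Prime := fun p hp => (mem_PrI.1 hp).1
  have hp2 : ∀ p ∈ PrI P Q, (2:ℝ) ≤ p := fun p hp => by exact_mod_cast (hprime p hp).two_le
  have hL0 : 0 ≤ L := by
    rw [hL]; unfold Lr
    exact Finset.sum_nonneg (fun p _ => by positivity)
  -- card bound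
  have hcard : ((PrI P Q).card : ℝ) ≤ Q := by
    have h1 : (PrI P Q).card ≤ (Icc 1 ⌊Q⌋₊).card := by
      unfold PrI
      exact Finset.card_filter_le _ _
    rw [Nat.card_Icc, Nat.add_sub_cancel] at h1
    calc ((PrI P Q).card : ℝ) ≤ (⌊Q⌋₊ : ℝ) := by exact_mod_cast h1
      _ ≤ Q := Nat.floor_le (by linarith)
  have hLc : 2 * L ≤ ((PrI P Q).card : ℝ) := by
    rw [hL]; unfold Lr
    rw [Finset.mul_sum]
    have : ∀ p ∈ PrI P Q, 2 * (1 / (p : ℝ)) ≤ 1 := by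
      intro p hp
      have := hp2 p hp
      rw [mul_one_div, div_le_one (by linarith)]
      exact this
    calc ∑ p ∈ PrI P Q, 2 * (1 / (p : ℝ)) ≤ ∑ p ∈ PrI P Q, (1:ℝ) := Finset.sum_le_sum this
      _ = _ := by simp
  -- first moment
  have hfirst : N * L - ((PrI P Q).card : ℝ) ≤ ∑ n ∈ Icc 1 M, omI P Q n := by
    have e : ∑ n ∈ Icc 1 M, omI P Q n = ∑ p ∈ PrI P Q, ((M / p : ℕ) : ℝ) := by
      rw [Finset.sum_congr rfl (fun n _ => tki_om P Q n), Finset.sum_comm]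
      exact Finset.sum_congr rfl (fun p _ => tki_cnt M p)
    rw [e, hL]
    unfold Lr
    rw [Finset.mul_sum, Finset.card_eq_sum_ones]
    push_cast
    rw [← Finset.sum_sub_distrib]
    apply Finset.sum_le_sum
    intro p hp
    have hp0 : (0:ℝ) < p := by linarith [hp2 p hp]
    have h1 : ⌊N / p⌋₊ = M / p := by
      rw [hM]; exact Nat.floor_div_natCast N p
    rw [← h1]
    have := Nat.lt_floor_add_one (N / (p:ℝ))
    have e2 : N * (1 / (p:ℝ)) = N / p := by ring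
    rw [e2]
    linarith
  -- second moment
  have hsecond : ∑ n ∈ Icc 1 M, (omI P Q n) ^ 2 ≤ N * L ^ 2 + N * L := by
    have e : ∑ n ∈ Icc 1 M, (omI P Q n) ^ 2 = ∑ p ∈ PrI P Q, ∑ p' ∈ PrI P Q,
        ∑ n ∈ Icc 1 M, (if p ∣ n then (1:ℝ) else 0) * (if p' ∣ n then (1:ℝ) else 0) := by
      have e1 : ∀ n ∈ Icc 1 M, (omI P Q n) ^ 2 = ∑ p ∈ PrI P Q, ∑ p' ∈ PrI P Q,
          (if p ∣ n then (1:ℝ) else 0) * (if p' ∣ n then (1:ℝ) else 0) := by
        intro n _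
        rw [tki_om, sq, Finset.sum_mul_sum]
      rw [Finset.sum_congr rfl e1, Finset.sum_comm]
      apply Finset.sum_congr rfl
      intro p _
      rw [Finset.sum_comm]
    rw [e]
    have hb : ∀ p ∈ PrI P Q, ∀ p' ∈ PrI P Q,
        ∑ n ∈ Icc 1 M, (if p ∣ n then (1:ℝ) else 0) * (if p' ∣ n then (1:ℝ) else 0)
        ≤ N * ((1 / (p:ℝ)) * (1 / (p':ℝ))) + (if p = p' then N * (1 / (p:ℝ)) else 0) := by
      intro p hp p' hp'
      have hp0 : (0:ℝ) < p := by linarith [hp2 p hp]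
      have hp0' : (0:ℝ) < p' := by linarith [hp2 p' hp']
      by_cases hpp : p = p'
      · subst hpp
        simp only [if_true]
        have e1 : ∑ n ∈ Icc 1 M, (if p ∣ n then (1:ℝ) else 0) * (if p ∣ n then (1:ℝ) else 0)
            = ((M / p : ℕ) : ℝ) := by
          rw [← tki_cnt M p]
          apply Finset.sum_congr rfl
          intro n _
          split_ifs <;> simp
        rw [e1]
        have h2 : ((M / p : ℕ) : ℝ) ≤ N * (1 / (p:ℝ)) := by
          calc ((M / p : ℕ) : ℝ) ≤ (M : ℝ) / p := Nat.cast_div_le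
            _ ≤ N / p := by gcongr
            _ = N * (1 / (p:ℝ)) := by ring
        have h3 : 0 ≤ N * ((1 / (p:ℝ)) * (1 / (p:ℝ))) := by positivity
        linarith
      · rw [if_neg hpp, add_zero]
        have e1 : ∑ n ∈ Icc 1 M, (if p ∣ n then (1:ℝ) else 0) * (if p' ∣ n then (1:ℝ) else 0)
            = ((M / (p * p') : ℕ) : ℝ) := by
          rw [← tki_cnt M (p * p')]
          apply Finset.sum_congr rfl
          intro n _
          have hco : Nat.Coprime p p' := (Nat.coprime_primes (hprime p hp) (hprime p' hp')).2 hpp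
          by_cases h1 : p ∣ n
          · by_cases h2 : p' ∣ n
            · rw [if_pos h1, if_pos h2, if_pos (hco.mul_dvd_of_dvd_of_dvd h1 h2)]; ring
            · rw [if_pos h1, if_neg h2, if_neg (fun h => h2 (dvd_trans (dvd_mul_left p' p) h))]; ring
          · rw [if_neg h1, if_neg (fun h => h1 (dvd_trans (dvd_mul_right p p') h))]; ring
        rw [e1]
        calc ((M / (p * p') : ℕ) : ℝ) ≤ (M : ℝ) / ((p * p' : ℕ) : ℝ) := Nat.cast_div_le
          _ = (M : ℝ) * ((1 / (p:ℝ)) * (1 / (p':ℝ))) := by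
              push_cast
              field_simp
          _ ≤ N * ((1 / (p:ℝ)) * (1 / (p':ℝ))) := by gcongr
    calc _ ≤ ∑ p ∈ PrI P Q, ∑ p' ∈ PrI P Q,
          (N * ((1 / (p:ℝ)) * (1 / (p':ℝ))) + (if p = p' then N * (1 / (p:ℝ)) else 0)) :=
          Finset.sum_le_sum (fun p hp => Finset.sum_le_sum (fun p' hp' => hb p hp p' hp'))
      _ = N * L ^ 2 + N * L := by
          rw [hL]
          unfold Lr
          have e1 : ∀ p ∈ PrI P Q, ∑ p' ∈ PrI P Q,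
              (N * ((1 / (p:ℝ)) * (1 / (p':ℝ))) + (if p = p' then N * (1 / (p:ℝ)) else 0))
              = N * ((1 / (p:ℝ)) * ∑ p' ∈ PrI P Q, 1 / (p':ℝ)) + N * (1 / (p:ℝ)) := by
            intro p hp
            rw [Finset.sum_add_distrib, ← Finset.mul_sum, ← Finset.mul_sum, Finset.sum_ite_eq, if_pos hp]
          rw [Finset.sum_congr rfl e1, Finset.sum_add_distrib, ← Finset.mul_sum, ← Finset.sum_mul,
            ← Finset.mul_sum]
          ring
  have hexp : ∑ n ∈ Icc 1 M, (omI P Q n - L) ^ 2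
      = ∑ n ∈ Icc 1 M, (omI P Q n) ^ 2 - 2 * L * ∑ n ∈ Icc 1 M, omI P Q n + L ^ 2 * M := by
    have e1 : ∀ n ∈ Icc 1 M, (omI P Q n - L) ^ 2 = (omI P Q n) ^ 2 - 2 * L * omI P Q n + L ^ 2 := by
      intro n _; ring
    rw [Finset.sum_congr rfl e1, Finset.sum_add_distrib, Finset.sum_sub_distrib, ← Finset.mul_sum]
    simp only [sum_const, Nat.card_Icc, Nat.add_sub_cancel, nsmul_eq_mul]
    ring
  rw [hexp]
  have hc0 : (0:ℝ) ≤ ((PrI P Q).card : ℝ) := by positivity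
  have hk : 2 * L * ((PrI P Q).card : ℝ) ≤ N := by
    calc 2 * L * ((PrI P Q).card : ℝ) ≤ Q * Q := by
          apply mul_le_mul (hLc.trans hcard) hcard hc0 (by linarith)
      _ = Q ^ 2 := by ring
      _ ≤ N := hQN
  have h5 : 2 * L * (N * L - ((PrI P Q).card : ℝ)) ≤ 2 * L * ∑ n ∈ Icc 1 M, omI P Q n :=
    mul_le_mul_of_nonneg_left hfirst (by linarith)
  have h6 : L ^ 2 * (M:ℝ) ≤ L ^ 2 * N := mul_le_mul_of_nonneg_left hMN (sq_nonneg L)
  nlinarith

end Pool.Agent.SplI
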