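import Pool.Agent.Lib_MP_92ef0c_spi.HHyp

/-!
# Piece I-WEIGHT: weights in arithmetic progressions
-/

set_option autoImplicit false

namespace Pool.Agent.SplI

open Finset

private theorem wti_harm_up (a : ℕ) (ha : 1 ≤ a) : ∀ b : ℕ, a ≤ b →
    ∑ s ∈ Ioc a b, 1 / (s : ℝ) ≤ Real.log ((b : ℝ) / a) := by
  intro b hb
  induction b, hb using Nat.le_induction with
  | base =>
    have ha0 : (a : ℝ) ≠ 0 := by positivity
    simp [div_self ha0]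
  | succ b hb ih =>
    rw [Finset.sum_Ioc_succ_top (by omega : a ≤ b)]
    have ha0 : (0 : ℝ) < a := by exact_mod_cast ha
    have hb0 : (0 : ℝ) < b := by exact_mod_cast (by omega : 0 < b)
    have h1 : Real.log (((b + 1 : ℕ) : ℝ) / a) = Real.log ((b : ℝ) / a) + Real.log (((b + 1 : ℕ) : ℝ) / b) := by
      rw [Real.log_div (by positivity) ha0.ne', Real.log_div hb0.ne' ha0.ne', Real.log_div (by positivity) hb0.ne']
      ring
    have h2 : 1 / (((b + 1 : ℕ) : ℝ)) ≤ Real.log (((b + 1 : ℕ) : ℝ) / b) := by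
      have h3 := Real.one_sub_inv_le_log_of_pos (show (0 : ℝ) < ((b + 1 : ℕ) : ℝ) / b by positivity)
      have h4 : 1 - (((b + 1 : ℕ) : ℝ) / b)⁻¹ = 1 / (((b + 1 : ℕ) : ℝ)) := by
        push_cast
        field_simp
        ring
      linarith
    rw [h1]
    linarith

private theorem wti_harm_lo (a : ℕ) : ∀ b : ℕ, a ≤ b →
    Real.log (((b : ℝ) + 1) / ((a : ℝ) + 1)) ≤ ∑ s ∈ Ioc a b, 1 / (s : ℝ) := by
  intro b hb
  induction b, hb using Nat.le_induction with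
  | base =>
    have ha0 : (a : ℝ) + 1 ≠ 0 := by positivity
    simp [div_self ha0]
  | succ b hb ih =>
    rw [Finset.sum_Ioc_succ_top (by omega : a ≤ b)]
    have h1 : Real.log ((((b + 1 : ℕ) : ℝ) + 1) / ((a : ℝ) + 1)) =
        Real.log (((b : ℝ) + 1) / ((a : ℝ) + 1)) + Real.log ((((b + 1 : ℕ) : ℝ) + 1) / ((b : ℝ) + 1)) := by
      rw [Real.log_div (by positivity) (by positivity), Real.log_div (by positivity) (by positivity),
        Real.log_div (by positivity) (by positivity)]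
      ring
    have h2 : Real.log ((((b + 1 : ℕ) : ℝ) + 1) / ((b : ℝ) + 1)) ≤ 1 / (((b + 1 : ℕ) : ℝ)) := by
      have h3 := Real.log_le_sub_one_of_pos (show (0 : ℝ) < (((b + 1 : ℕ) : ℝ) + 1) / ((b : ℝ) + 1) by positivity)
      have h4 : (((b + 1 : ℕ) : ℝ) + 1) / ((b : ℝ) + 1) - 1 = 1 / (((b + 1 : ℕ) : ℝ)) := by
        push_cast
        field_simp
        ring
      linarith
    rw [h1]
    linarith

private theorem wti_harm {u v : ℝ} (hu : 2 ≤ u) (huv : u ≤ v) :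
    |∑ s ∈ Ioc ⌊u⌋₊ ⌊v⌋₊, 1 / (s : ℝ) - Real.log (v / u)| ≤ 2 / u := by
  have hab : ⌊u⌋₊ ≤ ⌊v⌋₊ := Nat.floor_le_floor huv
  have ha : 1 ≤ ⌊u⌋₊ := Nat.le_floor (by push_cast; linarith)
  have hu0 : 0 < u := by linarith
  have hv0 : 0 < v := by linarith
  have h1 := wti_harm_up _ ha _ hab
  have h2 := wti_harm_lo _ _ hab
  have hfu : u - 1 < (⌊u⌋₊ : ℝ) := by
    have := Nat.lt_floor_add_one u
    linarith
  have hfu2 : (⌊u⌋₊ : ℝ) ≤ u := Nat.floor_le hu0.le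
  have hfv : v < (⌊v⌋₊ : ℝ) + 1 := Nat.lt_floor_add_one v
  have hfv2 : (⌊v⌋₊ : ℝ) ≤ v := Nat.floor_le hv0.le
  have ha0 : (0 : ℝ) < (⌊u⌋₊ : ℝ) := by exact_mod_cast ha
  have hb0 : (0 : ℝ) < (⌊v⌋₊ : ℝ) := by exact_mod_cast (lt_of_lt_of_le (by omega) hab)
  have h3 : Real.log ((⌊v⌋₊ : ℝ) / ⌊u⌋₊) ≤ Real.log (v / u) + 2 / u := by
    have h4 : Real.log ((⌊v⌋₊ : ℝ) / ⌊u⌋₊) ≤ Real.log (v / (u - 1)) := by
      apply Real.log_le_log (by positivity)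
      have : 0 < u - 1 := by linarith
      gcongr
    have h5 : Real.log (v / (u - 1)) = Real.log (v / u) + Real.log (u / (u - 1)) := by
      have h6 : u - 1 ≠ 0 := by linarith
      rw [Real.log_div hv0.ne' h6, Real.log_div hv0.ne' hu0.ne', Real.log_div hu0.ne' h6]
      ring
    have h7 : Real.log (u / (u - 1)) ≤ 2 / u := by
      have h8 : 0 < u - 1 := by linarith
      have h9 := Real.log_le_sub_one_of_pos (show 0 < u / (u - 1) by positivity)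
      have h10 : u / (u - 1) - 1 = 1 / (u - 1) := by
        field_simp
        ring
      have h11 : 1 / (u - 1) ≤ 2 / u := by
        rw [div_le_div_iff₀ h8 hu0]
        linarith
      linarith
    linarith
  have h12 : Real.log (v / u) - 2 / u ≤ Real.log (((⌊v⌋₊ : ℝ) + 1) / ((⌊u⌋₊ : ℝ) + 1)) := by
    have h4 : Real.log (v / (u + 1)) ≤ Real.log (((⌊v⌋₊ : ℝ) + 1) / ((⌊u⌋₊ : ℝ) + 1)) := by
      apply Real.log_le_log (by positivity)
      gcongr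
    have h5 : Real.log (v / (u + 1)) = Real.log (v / u) - Real.log ((u + 1) / u) := by
      have h6 : u + 1 ≠ 0 := by linarith
      rw [Real.log_div hv0.ne' h6, Real.log_div hv0.ne' hu0.ne', Real.log_div h6 hu0.ne']
      ring
    have h7 : Real.log ((u + 1) / u) ≤ 2 / u := by
      have h9 := Real.log_le_sub_one_of_pos (show 0 < (u + 1) / u by positivity)
      have h10 : (u + 1) / u - 1 = 1 / u := by
        field_simp
        ring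
      have h11 : 1 / u ≤ 2 / u := by
        gcongr
        norm_num
      linarith
    linarith
  rw [abs_le]
  constructor <;> linarith

private theorem wti_cpow (x τ : ℝ) (hx : 0 < x) :
    (x : ℂ) ^ ((τ : ℂ) * Complex.I) = Complex.exp (((τ * Real.log x : ℝ) : ℂ) * Complex.I) := by
  rw [Complex.cpow_def_of_ne_zero (by exact_mod_cast hx.ne'), ← Complex.ofReal_log hx.le]
  congr 1
  push_cast
  ring

private theorem wti_et (τ : ℝ) (n : ℕ) :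
    et (-τ) n = Complex.exp (((τ * Real.log n : ℝ) : ℂ) * Complex.I) := by
  unfold et
  congr 1
  push_cast
  ring

private theorem wti_cpow_mul (x τ : ℝ) (hx : 0 < x) (d : ℕ) (hd : 0 < d) :
    et (-τ) d * ((x / d : ℝ) : ℂ) ^ ((τ : ℂ) * Complex.I) = (x : ℂ) ^ ((τ : ℂ) * Complex.I) := by
  have hd0 : (0 : ℝ) < d := by exact_mod_cast hd
  rw [wti_cpow _ _ (by positivity), wti_cpow _ _ hx, wti_et, ← Complex.exp_add, Real.log_div hx.ne' hd0.ne']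
  congr 1
  push_cast
  ring

private theorem wti_reindex (u v : ℝ) (hu : 0 ≤ u) (hv : 0 ≤ v) (d : ℕ) (hd : 0 < d) (f : ℕ → ℝ) :
    ∑ n ∈ (Ioc ⌊u⌋₊ ⌊v⌋₊).filter (fun n => d ∣ n), f n = ∑ s ∈ Ioc ⌊u / d⌋₊ ⌊v / d⌋₊, f (d * s) := by
  have hd0 : (0 : ℝ) < d := by exact_mod_cast hd
  symm
  apply Finset.sum_bij (fun s _ => d * s)
  · intro s hs
    rw [mem_Ioc] at hs
    rw [mem_filter, mem_Ioc]
    have h1 : u / d < s := (Nat.floor_lt (by positivity)).1 hs.1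
    have h2 : (s : ℝ) ≤ v / d := by
      have := Nat.floor_le (show 0 ≤ v / d by positivity)
      have h3 : (s : ℝ) ≤ (⌊v / d⌋₊ : ℝ) := by exact_mod_cast hs.2
      linarith
    refine ⟨⟨?_, ?_⟩, Dvd.intro _ rfl⟩
    · rw [Nat.floor_lt hu]
      push_cast
      rw [div_lt_iff₀ hd0] at h1
      linarith
    · apply Nat.le_floor
      push_cast
      rw [le_div_iff₀ hd0] at h2
      linarith
  · intro a _ b _ hab
    exact Nat.eq_of_mul_eq_mul_left hd hab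
  · intro n hn
    rw [mem_filter, mem_Ioc] at hn
    obtain ⟨⟨h1, h2⟩, s, rfl⟩ := hn
    refine ⟨s, ?_, rfl⟩
    rw [mem_Ioc]
    have h3 : u < ((d * s : ℕ) : ℝ) := (Nat.floor_lt hu).1 h1
    have h4 : ((d * s : ℕ) : ℝ) ≤ v := by
      have := Nat.floor_le hv
      have h5 : ((d * s : ℕ) : ℝ) ≤ (⌊v⌋₊ : ℝ) := by exact_mod_cast h2
      linarith
    push_cast at h3 h4
    constructor
    · rw [Nat.floor_lt (by positivity), div_lt_iff₀ hd0]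
      linarith
    · apply Nat.le_floor
      rw [le_div_iff₀ hd0]
      linarith
  · intro s _
    rfl

/-- `X0 = log Y / 4 - Re ((Y^(3iτ/4) - Y^(iτ/2)) / (iτ))`, `|..| ≤ 2` since `|τ| ≥ 1`. With `n = d s`: the sum is `(1/d) (∑_(Y^(1/2)/d < s ≤ Y^(3/4)/d) 1/s - Re (d^(iτ) ∑ s^(-1+iτ)))`; harmonic sum `= log Y / 4 + O(d Y^(-1/2))`, and `zs_log` with `4 A` (`|τ| ≤ Y^A ≤ (Y^(1/2)/d)^(4A)`):
`d^(iτ) ((Y^(3/4)/d)^(iτ) - (Y^(1/2)/d)^(iτ)) / (iτ) = (Y^(3iτ/4) - Y^(iτ/2))/(iτ)`, error `C Y^(-η/4)`. -/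
theorem weight_i (hZS : ZsLogS) (A : ℝ) (hA : 1 ≤ A) : ∃ η Y0 : ℝ, 0 < η ∧ 1 < Y0 ∧ ∀ Y : ℝ, Y0 ≤ Y → ∀ τ : ℝ, 1 ≤ |τ| → |τ| ≤ Y ^ A →
    ∃ X0 : ℝ, Real.log Y / 8 ≤ X0 ∧ X0 ≤ Real.log Y ∧ ∀ d : ℕ, 0 < d → (d : ℝ) ≤ Y ^ (1 / 4 : ℝ) →
    |∑ n ∈ (Ioc ⌊Y ^ (1 / 2 : ℝ)⌋₊ ⌊Y ^ (3 / 4 : ℝ)⌋₊).filter (fun n => d ∣ n), (1 / (n : ℝ)) * (1 - (et (-τ) n).re) - X0 / d| ≤ Y ^ (-η) / d := by
  obtain ⟨η₀, C₀, hη₀, hη₀2, hC₀, hz⟩ := hZS (4 * A) (by linarith)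
  refine ⟨η₀ / 8, max (Real.exp 16) ((2 + C₀) ^ (8 / η₀)), by positivity, ?_, ?_⟩
  · exact lt_of_lt_of_le (Real.one_lt_exp_iff.2 (by norm_num)) (le_max_left _ _)
  intro Y hY τ hτ1 hτ2
  have hYe : Real.exp 16 ≤ Y := (le_max_left _ _).trans hY
  have hYC : (2 + C₀) ^ (8 / η₀) ≤ Y := (le_max_right _ _).trans hY
  have hY1 : 1 < Y := lt_of_lt_of_le (Real.one_lt_exp_iff.2 (by norm_num)) hYe
  have hY0 : 0 < Y := by linarith
  have hlog : 16 ≤ Real.log Y := (Real.le_log_iff_exp_le hY0).2 hYe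
  have hτ0 : (τ : ℂ) * Complex.I ≠ 0 := by
    have : τ ≠ 0 := by
      intro h
      rw [h, abs_zero] at hτ1
      linarith
    exact mul_ne_zero (by exact_mod_cast this) Complex.I_ne_zero
  set U : ℝ := Y ^ (1 / 2 : ℝ) with hU
  set V : ℝ := Y ^ (3 / 4 : ℝ) with hV
  have hU0 : 0 < U := by positivity
  have hV0 : 0 < V := by positivity
  set W : ℂ := ((V : ℂ) ^ ((τ : ℂ) * Complex.I) - (U : ℂ) ^ ((τ : ℂ) * Complex.I)) / ((τ : ℂ) * Complex.I) with hW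
  have hWn : ‖W‖ ≤ 2 := by
    rw [hW, norm_div]
    have h1 : ‖(V : ℂ) ^ ((τ : ℂ) * Complex.I)‖ = 1 := by
      rw [wti_cpow _ _ hV0]
      exact Complex.norm_exp_ofReal_mul_I _
    have h2 : ‖(U : ℂ) ^ ((τ : ℂ) * Complex.I)‖ = 1 := by
      rw [wti_cpow _ _ hU0]
      exact Complex.norm_exp_ofReal_mul_I _
    have h3 : ‖(τ : ℂ) * Complex.I‖ = |τ| := by
      rw [norm_mul, Complex.norm_I, mul_one, Complex.norm_real, Real.norm_eq_abs]
    rw [h3, div_le_iff₀ (by linarith)]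
    have h4 := norm_sub_le ((V : ℂ) ^ ((τ : ℂ) * Complex.I)) ((U : ℂ) ^ ((τ : ℂ) * Complex.I))
    rw [h1, h2] at h4
    linarith
  have hWre : |W.re| ≤ 2 := (Complex.abs_re_le_norm W).trans hWn
  rw [abs_le] at hWre
  refine ⟨Real.log Y / 4 - W.re, by linarith, by linarith, ?_⟩
  intro d hd hdY
  have hd0 : (0 : ℝ) < d := by exact_mod_cast hd
  have hu : Y ^ (1 / 4 : ℝ) ≤ U / d := by
    rw [le_div_iff₀ hd0]
    calc Y ^ (1 / 4 : ℝ) * d ≤ Y ^ (1 / 4 : ℝ) * Y ^ (1 / 4 : ℝ) := by gcongr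
      _ = U := by
        rw [hU, ← Real.rpow_add hY0]
        norm_num
  have hY4 : (2 : ℝ) ≤ Y ^ (1 / 4 : ℝ) := by
    have h1 : Real.exp 4 ≤ Y ^ (1 / 4 : ℝ) := by
      calc Real.exp 4 = (Real.exp 16) ^ (1 / 4 : ℝ) := by
            rw [← Real.exp_mul]
            norm_num
        _ ≤ _ := by gcongr
    have h2 := Real.add_one_le_exp (4 : ℝ)
    linarith
  have hu2 : 2 ≤ U / d := hY4.trans hu
  have huv : U / d ≤ V / d := by
    have : U ≤ V := by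
      rw [hU, hV]
      exact Real.rpow_le_rpow_of_exponent_le hY1.le (by norm_num)
    gcongr
  rw [wti_reindex U V hU0.le hV0.le d hd (fun n => (1 / (n : ℝ)) * (1 - (et (-τ) n).re))]
  -- split the sum
  have hsum : ∑ s ∈ Ioc ⌊U / d⌋₊ ⌊V / d⌋₊, (1 / ((d * s : ℕ) : ℝ)) * (1 - (et (-τ) (d * s)).re) =
      (1 / (d : ℝ)) * (∑ s ∈ Ioc ⌊U / d⌋₊ ⌊V / d⌋₊, 1 / (s : ℝ) -
        (et (-τ) d * ∑ s ∈ Ioc ⌊U / d⌋₊ ⌊V / d⌋₊, et (-τ) s / (s : ℂ)).re) := by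
    rw [Finset.mul_sum, Complex.re_sum, ← Finset.sum_sub_distrib, Finset.mul_sum]
    apply Finset.sum_congr rfl
    intro s hs
    rw [mem_Ioc] at hs
    have hs0 : s ≠ 0 := by omega
    rw [et_mul (-τ) hd.ne' hs0]
    have h1 : (et (-τ) d * (et (-τ) s / (s : ℂ))).re = (et (-τ) d * et (-τ) s).re / (s : ℝ) := by
      rw [← mul_div_assoc]
      have : ((s : ℕ) : ℂ) = ((s : ℝ) : ℂ) := by push_cast; rfl
      rw [this, Complex.div_ofReal_re]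
    rw [h1]
    have hsr : (s : ℝ) ≠ 0 := by exact_mod_cast hs0
    push_cast
    field_simp
  rw [hsum]
  have hharm := wti_harm hu2 huv
  have hlogq : Real.log (V / d / (U / d)) = Real.log Y / 4 := by
    rw [div_div_div_cancel_right₀ hd0.ne', hU, hV, ← Real.rpow_sub hY0, Real.log_rpow hY0]
    ring
  rw [hlogq] at hharm
  have hzl := hz τ (U / d) (V / d) (by linarith) huv hτ1 (hτ2.trans ?_)
  swap
  · calc Y ^ A = (Y ^ (1 / 4 : ℝ)) ^ (4 * A) := by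
          rw [← Real.rpow_mul hY0.le]
          congr 1
          ring
      _ ≤ _ := by gcongr
  -- rewrite the main term
  have hmain : et (-τ) d * ((((V / d : ℝ) : ℂ) ^ ((τ : ℂ) * Complex.I) - ((U / d : ℝ) : ℂ) ^ ((τ : ℂ) * Complex.I)) / ((τ : ℂ) * Complex.I)) = W := by
    rw [hW, ← mul_div_assoc, mul_sub, wti_cpow_mul V τ hV0 d hd, wti_cpow_mul U τ hU0 d hd]
  have herr : |(et (-τ) d * ∑ s ∈ Ioc ⌊U / d⌋₊ ⌊V / d⌋₊, et (-τ) s / (s : ℂ)).re - W.re| ≤ C₀ * (U / d) ^ (-η₀) := by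
    rw [← Complex.sub_re]
    refine (Complex.abs_re_le_norm _).trans ?_
    rw [← hmain, ← mul_sub, norm_mul, norm_et, one_mul]
    exact hzl
  have hpow1 : (U / d) ^ (-η₀) ≤ Y ^ (-(η₀ / 4)) := by
    calc (U / d) ^ (-η₀) ≤ (Y ^ (1 / 4 : ℝ)) ^ (-η₀) := by
          apply Real.rpow_le_rpow_of_nonpos (by positivity) hu (by linarith)
      _ = _ := by
        rw [← Real.rpow_mul hY0.le]
        congr 1
        ring
  have hpow2 : 2 / (U / d) ≤ 2 * Y ^ (-(η₀ / 4)) := by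
    have h1 : 2 / (U / d) ≤ 2 / Y ^ (1 / 4 : ℝ) := by gcongr
    have h2 : 2 / Y ^ (1 / 4 : ℝ) = 2 * Y ^ (-(1 / 4 : ℝ)) := by
      rw [Real.rpow_neg hY0.le]
      ring
    have h3 : Y ^ (-(1 / 4 : ℝ)) ≤ Y ^ (-(η₀ / 4)) :=
      Real.rpow_le_rpow_of_exponent_le hY1.le (by linarith)
    linarith
  have hpow3 : (2 + C₀) * Y ^ (-(η₀ / 4)) ≤ Y ^ (-(η₀ / 8)) := by
    have h1 : 2 + C₀ ≤ Y ^ (η₀ / 8) := by
      calc 2 + C₀ = ((2 + C₀) ^ (8 / η₀)) ^ (η₀ / 8) := by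
            rw [← Real.rpow_mul (by positivity)]
            have : 8 / η₀ * (η₀ / 8) = 1 := by field_simp
            rw [this, Real.rpow_one]
        _ ≤ _ := by gcongr
    calc (2 + C₀) * Y ^ (-(η₀ / 4)) ≤ Y ^ (η₀ / 8) * Y ^ (-(η₀ / 4)) := by gcongr
      _ = Y ^ (-(η₀ / 8)) := by
        rw [← Real.rpow_add hY0]
        congr 1
        ring
  have hfin : |(∑ s ∈ Ioc ⌊U / d⌋₊ ⌊V / d⌋₊, 1 / (s : ℝ) -
        (et (-τ) d * ∑ s ∈ Ioc ⌊U / d⌋₊ ⌊V / d⌋₊, et (-τ) s / (s : ℂ)).re) - (Real.log Y / 4 - W.re)| ≤ Y ^ (-(η₀ / 8)) := by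
    have h1 : C₀ * (U / d) ^ (-η₀) ≤ C₀ * Y ^ (-(η₀ / 4)) := by gcongr
    rw [abs_le] at hharm herr ⊢
    constructor <;> nlinarith [hharm.1, hharm.2, herr.1, herr.2]
  have hgoal : (1 / (d : ℝ)) * (∑ s ∈ Ioc ⌊U / d⌋₊ ⌊V / d⌋₊, 1 / (s : ℝ) -
        (et (-τ) d * ∑ s ∈ Ioc ⌊U / d⌋₊ ⌊V / d⌋₊, et (-τ) s / (s : ℂ)).re) - (Real.log Y / 4 - W.re) / d =
      ((∑ s ∈ Ioc ⌊U / d⌋₊ ⌊V / d⌋₊, 1 / (s : ℝ) -
        (et (-τ) d * ∑ s ∈ Ioc ⌊U / d⌋₊ ⌊V / d⌋₊, et (-τ) s / (s : ℂ)).re) - (Real.log Y / 4 - W.re)) / d := by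
    ring
  rw [hgoal, abs_div, abs_of_pos hd0]
  gcongr

end Pool.Agent.SplI
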