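import Pool.Agent.Lib_MP_92ef0c_spi.IDefs
import Pool.Agent.Lib_MP_f1a94e_ecm.DTwoG
import Pool.Agent.Lib_MP_f1a94e_mr.Block

/-!
# Piece I-ZSUM: zeta sums
-/

set_option autoImplicit false

namespace Pool.Agent.SplI

open Finset

private theorem zsum_pow (τ x : ℝ) (hx : 0 < x) :
    (x : ℂ) ^ ((τ : ℂ) * Complex.I) = Complex.exp (((τ * Real.log x : ℝ) : ℂ) * Complex.I) := by
  rw [Complex.cpow_def_of_ne_zero (by exact_mod_cast hx.ne'), ← Complex.ofReal_log hx.le]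
  congr 1
  push_cast
  ring

private theorem zsum_ne (τ : ℝ) : (1 : ℂ) + (τ : ℂ) * Complex.I ≠ 0 := by
  intro h
  have := congrArg Complex.re h
  simp at this

private theorem zsum_deriv (τ x : ℝ) (hx : 0 < x) :
    HasDerivAt (fun y : ℝ => (y : ℂ) ^ (1 + (τ : ℂ) * Complex.I) / (1 + (τ : ℂ) * Complex.I))
      (Complex.exp (((τ * Real.log x : ℝ) : ℂ) * Complex.I)) x := by
  have h := hasDerivAt_ofReal_cpow_const' hx.ne' (r := (τ : ℂ) * Complex.I) (by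
    intro h
    have := congrArg Complex.re h
    simp at this)
  rw [zsum_pow τ x hx, add_comm ((τ : ℂ) * Complex.I) 1] at h
  exact h

private theorem zsum_lip (τ x y : ℝ) (hx : 0 < x) (hy : 0 < y) :
    ‖(y : ℂ) ^ (1 + (τ : ℂ) * Complex.I) / (1 + (τ : ℂ) * Complex.I) -
      (x : ℂ) ^ (1 + (τ : ℂ) * Complex.I) / (1 + (τ : ℂ) * Complex.I)‖ ≤ |y - x| := by
  have h := Convex.norm_image_sub_le_of_norm_hasDerivWithin_le
    (f := fun y : ℝ => (y : ℂ) ^ (1 + (τ : ℂ) * Complex.I) / (1 + (τ : ℂ) * Complex.I))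
    (f' := fun x => Complex.exp (((τ * Real.log x : ℝ) : ℂ) * Complex.I)) (s := Set.Ioi 0) (C := 1)
    (x := x) (y := y)
    (fun z hz => (zsum_deriv τ z hz).hasDerivWithinAt)
    (fun z _ => (Complex.norm_exp_ofReal_mul_I _).le) (convex_Ioi 0) hx hy
  rw [one_mul, Real.norm_eq_abs] at h
  exact h

private theorem zsum_exp_sub (a b : ℝ) :
    ‖Complex.exp ((a : ℂ) * Complex.I) - Complex.exp ((b : ℂ) * Complex.I)‖ ≤ |a - b| := by
  have h : Complex.exp ((a : ℂ) * Complex.I) - Complex.exp ((b : ℂ) * Complex.I) =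
      Complex.exp ((b : ℂ) * Complex.I) * (Complex.exp (Complex.I * ((a - b : ℝ) : ℂ)) - 1) := by
    rw [mul_sub, ← Complex.exp_add, mul_one]
    congr 2
    push_cast
    ring
  rw [h, norm_mul, Complex.norm_exp_ofReal_mul_I, one_mul]
  exact Real.norm_exp_I_mul_ofReal_sub_one_le

private theorem zsum_et (τ : ℝ) (n : ℕ) : et (-τ) n = Complex.exp (((τ * Real.log n : ℝ) : ℂ) * Complex.I) := by
  unfold et
  congr 1
  push_cast
  ring

private theorem zsum_step (τ : ℝ) (n : ℕ) (hn : 1 ≤ n) :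
    ‖et (-τ) (n + 1) - (((n + 1 : ℕ) : ℝ) : ℂ) ^ (1 + (τ : ℂ) * Complex.I) / (1 + (τ : ℂ) * Complex.I) +
      ((n : ℝ) : ℂ) ^ (1 + (τ : ℂ) * Complex.I) / (1 + (τ : ℂ) * Complex.I)‖ ≤ |τ| / n := by
  have hn0 : (0 : ℝ) < n := by exact_mod_cast hn
  have hder : ∀ z ∈ Set.Icc (n : ℝ) ((n + 1 : ℕ) : ℝ), HasDerivWithinAt
      (fun y : ℝ => (y : ℂ) ^ (1 + (τ : ℂ) * Complex.I) / (1 + (τ : ℂ) * Complex.I) -
        (y : ℂ) * et (-τ) (n + 1))
      (Complex.exp (((τ * Real.log z : ℝ) : ℂ) * Complex.I) - 1 * et (-τ) (n + 1))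
      (Set.Icc (n : ℝ) ((n + 1 : ℕ) : ℝ)) z := by
    intro z hz
    have hz0 : 0 < z := lt_of_lt_of_le hn0 hz.1
    exact ((zsum_deriv τ z hz0).sub ((Complex.ofRealCLM.hasDerivAt).mul_const _)).hasDerivWithinAt
  have h := Convex.norm_image_sub_le_of_norm_hasDerivWithin_le (C := |τ| / n)
    (x := (n : ℝ)) (y := ((n + 1 : ℕ) : ℝ)) hder ?_ (convex_Icc _ _)
    ⟨le_refl _, by push_cast; linarith⟩ ⟨by push_cast; linarith, le_refl _⟩
  · have e1 : ‖((n + 1 : ℕ) : ℝ) - (n : ℝ)‖ = 1 := by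
      push_cast
      rw [add_sub_cancel_left, norm_one]
    rw [e1, mul_one] at h
    rw [← norm_neg]
    refine le_trans (le_of_eq ?_) h
    congr 1
    push_cast
    ring
  · intro z hz
    have hz0 : 0 < z := lt_of_lt_of_le hn0 hz.1
    rw [one_mul, zsum_et]
    refine (zsum_exp_sub _ _).trans ?_
    rw [← mul_sub, abs_mul, div_eq_mul_inv]
    apply mul_le_mul_of_nonneg_left _ (abs_nonneg _)
    have h2 : z ≤ ((n + 1 : ℕ) : ℝ) := hz.2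
    rw [abs_sub_comm, abs_of_nonneg (sub_nonneg.2 (Real.log_le_log hz0 h2))]
    rw [← Real.log_div (by positivity) hz0.ne']
    have h3 := Real.log_le_sub_one_of_pos (x := ((n + 1 : ℕ) : ℝ) / z) (by positivity)
    have h4 : ((n + 1 : ℕ) : ℝ) / z ≤ ((n + 1 : ℕ) : ℝ) / n := by
      have := hz.1
      gcongr
    have h5 : ((n + 1 : ℕ) : ℝ) / n - 1 = (n : ℝ)⁻¹ := by
      push_cast
      field_simp
      ring
    linarith

private theorem zsum_tele (τ : ℝ) (a b : ℕ) (ha : 1 ≤ a) (hab : a ≤ b) :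
    ‖∑ n ∈ Ioc a b, et (-τ) n - ((b : ℝ) : ℂ) ^ (1 + (τ : ℂ) * Complex.I) / (1 + (τ : ℂ) * Complex.I) +
      ((a : ℝ) : ℂ) ^ (1 + (τ : ℂ) * Complex.I) / (1 + (τ : ℂ) * Complex.I)‖ ≤ ((b : ℝ) - a) * (|τ| / a) := by
  induction b, hab using Nat.le_induction with
  | base => simp
  | succ b hb ih =>
    rw [Finset.sum_Ioc_succ_top hb]
    have h1 := zsum_step τ b (ha.trans hb)
    have h2 : |τ| / b ≤ |τ| / a := by
      have ha0 : (0 : ℝ) < a := by exact_mod_cast ha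
      have : (a : ℝ) ≤ b := by exact_mod_cast hb
      gcongr
    have e : (∑ n ∈ Ioc a b, et (-τ) n + et (-τ) (b + 1) -
        (((b + 1 : ℕ) : ℝ) : ℂ) ^ (1 + (τ : ℂ) * Complex.I) / (1 + (τ : ℂ) * Complex.I) +
        ((a : ℝ) : ℂ) ^ (1 + (τ : ℂ) * Complex.I) / (1 + (τ : ℂ) * Complex.I)) =
        (∑ n ∈ Ioc a b, et (-τ) n - ((b : ℝ) : ℂ) ^ (1 + (τ : ℂ) * Complex.I) / (1 + (τ : ℂ) * Complex.I) +
        ((a : ℝ) : ℂ) ^ (1 + (τ : ℂ) * Complex.I) / (1 + (τ : ℂ) * Complex.I)) +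
        (et (-τ) (b + 1) - (((b + 1 : ℕ) : ℝ) : ℂ) ^ (1 + (τ : ℂ) * Complex.I) / (1 + (τ : ℂ) * Complex.I) +
      ((b : ℝ) : ℂ) ^ (1 + (τ : ℂ) * Complex.I) / (1 + (τ : ℂ) * Complex.I)) := by ring
    rw [e]
    refine (norm_add_le _ _).trans ((add_le_add ih (h1.trans h2)).trans (le_of_eq ?_))
    push_cast
    ring

/-- `|∑_(u < n ≤ v) F n - ∫_u^v F| ≤ |F u| + |F v| + ∫_u^v |F'|`, `F x = x^(i τ)`, `|F'| = |τ| / x`. -/
theorem zs_small : ∃ C : ℝ, 0 < C ∧ ∀ τ u v : ℝ, 1 ≤ u → u ≤ v → v ≤ 2 * u →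
    ‖∑ n ∈ Ioc ⌊u⌋₊ ⌊v⌋₊, et (-τ) n - ((v : ℂ) ^ (1 + (τ : ℂ) * Complex.I) - (u : ℂ) ^ (1 + (τ : ℂ) * Complex.I)) / (1 + (τ : ℂ) * Complex.I)‖ ≤ C * (1 + |τ|) := by
  refine ⟨3, by norm_num, ?_⟩
  intro τ u v hu huv hv
  have hu0 : (0 : ℝ) < u := by linarith
  have hv0 : (0 : ℝ) < v := by linarith
  have ha : 1 ≤ ⌊u⌋₊ := Nat.le_floor (by simpa using hu)
  have hab : ⌊u⌋₊ ≤ ⌊v⌋₊ := Nat.floor_le_floor huv
  have ha0 : (1 : ℝ) ≤ (⌊u⌋₊ : ℝ) := by exact_mod_cast ha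
  have hb0 : (1 : ℝ) ≤ (⌊v⌋₊ : ℝ) := by exact_mod_cast ha.trans hab
  have h1 := zsum_tele τ _ _ ha hab
  have f1 : (⌊u⌋₊ : ℝ) ≤ u := Nat.floor_le hu0.le
  have f2 : u < (⌊u⌋₊ : ℝ) + 1 := Nat.lt_floor_add_one u
  have f3 : (⌊v⌋₊ : ℝ) ≤ v := Nat.floor_le hv0.le
  have f4 : v < (⌊v⌋₊ : ℝ) + 1 := Nat.lt_floor_add_one v
  have h2 := zsum_lip τ (⌊u⌋₊ : ℝ) u (by linarith) hu0
  have h3 := zsum_lip τ v (⌊v⌋₊ : ℝ) hv0 (by linarith)
  have h2' : |u - (⌊u⌋₊ : ℝ)| ≤ 1 := by rw [abs_le]; constructor <;> linarith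
  have h3' : |(⌊v⌋₊ : ℝ) - v| ≤ 1 := by rw [abs_le]; constructor <;> linarith
  have h4 : ((⌊v⌋₊ : ℝ) - (⌊u⌋₊ : ℝ)) * (|τ| / (⌊u⌋₊ : ℝ)) ≤ 3 * |τ| := by
    rw [mul_div_assoc', div_le_iff₀ (by linarith)]
    have h5 : (⌊v⌋₊ : ℝ) - (⌊u⌋₊ : ℝ) ≤ 3 * (⌊u⌋₊ : ℝ) := by linarith
    calc ((⌊v⌋₊ : ℝ) - (⌊u⌋₊ : ℝ)) * |τ| ≤ (3 * (⌊u⌋₊ : ℝ)) * |τ| :=
          mul_le_mul_of_nonneg_right h5 (abs_nonneg _)
      _ = _ := by ring
  have e : ∑ n ∈ Ioc ⌊u⌋₊ ⌊v⌋₊, et (-τ) n - ((v : ℂ) ^ (1 + (τ : ℂ) * Complex.I) - (u : ℂ) ^ (1 + (τ : ℂ) * Complex.I)) / (1 + (τ : ℂ) * Complex.I) =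
      (∑ n ∈ Ioc ⌊u⌋₊ ⌊v⌋₊, et (-τ) n - ((⌊v⌋₊ : ℝ) : ℂ) ^ (1 + (τ : ℂ) * Complex.I) / (1 + (τ : ℂ) * Complex.I) +
      ((⌊u⌋₊ : ℝ) : ℂ) ^ (1 + (τ : ℂ) * Complex.I) / (1 + (τ : ℂ) * Complex.I)) +
      ((u : ℂ) ^ (1 + (τ : ℂ) * Complex.I) / (1 + (τ : ℂ) * Complex.I) -
        ((⌊u⌋₊ : ℝ) : ℂ) ^ (1 + (τ : ℂ) * Complex.I) / (1 + (τ : ℂ) * Complex.I)) +
      (((⌊v⌋₊ : ℝ) : ℂ) ^ (1 + (τ : ℂ) * Complex.I) / (1 + (τ : ℂ) * Complex.I) -
        (v : ℂ) ^ (1 + (τ : ℂ) * Complex.I) / (1 + (τ : ℂ) * Complex.I)) := by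
    rw [sub_div]
    ring
  rw [e]
  refine (norm_add₃_le).trans ?_
  have h6 := abs_nonneg τ
  linarith

/-- a smooth positive function equal to `x` for `x ≥ 1/2` -/
private noncomputable def zsum_phi (x : ℝ) : ℝ :=
  x * Real.smoothTransition (4 * x - 1) + (1 - Real.smoothTransition (4 * x - 1))

private theorem zsum_phi_pos (x : ℝ) : 0 < zsum_phi x := by
  unfold zsum_phi
  have h0 := Real.smoothTransition.nonneg (4 * x - 1)
  have h1 := Real.smoothTransition.le_one (4 * x - 1)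
  rcases le_or_gt (4 * x - 1) 0 with h | h
  · rw [Real.smoothTransition.zero_of_nonpos h]
    norm_num
  · have hx : 0 < x := by linarith
    rcases eq_or_lt_of_le h0 with h2 | h2
    · rw [← h2]
      norm_num
    · have := mul_pos hx h2
      linarith

private theorem zsum_phi_eq (x : ℝ) (hx : 1 / 2 ≤ x) : zsum_phi x = x := by
  unfold zsum_phi
  rw [Real.smoothTransition.one_of_one_le (by linarith)]
  ring

open scoped ContDiff in
private theorem zsum_phi_cd : ContDiff ℝ ∞ zsum_phi := by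
  unfold zsum_phi
  have h : ContDiff ℝ ∞ (fun x : ℝ => Real.smoothTransition (4 * x - 1)) :=
    Real.smoothTransition.contDiff.comp ((contDiff_const.mul contDiff_id).sub contDiff_const)
  exact (contDiff_id.mul h).add (contDiff_const.sub h)

open scoped ContDiff in
private theorem zsum_f_cd (c : ℝ) : ContDiff ℝ ∞ (fun x : ℝ => c * Real.log (zsum_phi x)) :=
  contDiff_const.mul (zsum_phi_cd.log (fun x => (zsum_phi_pos x).ne'))

private theorem zsum_iter (c : ℝ) (q : ℕ) (x : ℝ) (hx : 1 / 2 < x) :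
    iteratedDeriv (q + 1) (fun x : ℝ => c * Real.log (zsum_phi x)) x =
      c * ((-1) ^ q * (q.factorial : ℝ) * (x ^ (q + 1))⁻¹) := by
  have h1 : (fun x : ℝ => c * Real.log (zsum_phi x)) =ᶠ[nhds x] (fun x : ℝ => c * Real.log x) := by
    filter_upwards [Ioi_mem_nhds hx] with y hy
    rw [zsum_phi_eq y (le_of_lt hy)]
  rw [h1.iteratedDeriv_eq, iteratedDeriv_const_mul_field, iteratedDeriv_succ', Real.deriv_log',
    iteratedDeriv_eq_iterate, iter_deriv_inv]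
  have hx0 : x ≠ 0 := by linarith
  congr 2
  rw [show (-1 - (q : ℤ)) = -((q + 1 : ℕ) : ℤ) by push_cast; ring, zpow_neg, zpow_natCast]

private theorem zsum_main (q : ℕ) (β ρ η C : ℝ) (hq : 2 ≤ q) (hC : 0 < C) (h : ECM.DTR q β ρ η C)
    (τ u v : ℝ) (hu : 1 ≤ u) (huv : u ≤ v) (hv : v ≤ 2 * u)
    (h1 : u ^ (-(7 / 4 : ℝ)) ≤ |τ| / (2 * Real.pi) * ((q - 1).factorial : ℝ) * ((2 * u) ^ q)⁻¹)
    (h3 : |τ| / (2 * Real.pi) * ((q - 1).factorial : ℝ) * (u ^ q)⁻¹ ≤ u ^ (-β))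
    (h4 : (2 : ℝ) ^ q ≤ u ^ ρ) :
    ‖∑ n ∈ Ioc ⌊u⌋₊ ⌊v⌋₊, et (-τ) n‖ ≤ C * u ^ (1 - η) := by
  have hu0 : (0 : ℝ) < u := by linarith
  have hv0 : (0 : ℝ) < v := by linarith
  have ha : 1 ≤ ⌊u⌋₊ := Nat.le_floor (by simpa using hu)
  have f1 : (⌊u⌋₊ : ℝ) ≤ u := Nat.floor_le hu0.le
  have f2 : u < (⌊u⌋₊ : ℝ) + 1 := Nat.lt_floor_add_one u
  have f3 : (⌊v⌋₊ : ℝ) ≤ v := Nat.floor_le hv0.le
  rcases le_or_gt (⌊v⌋₊) (⌊u⌋₊) with hle | hlt
  · rw [Finset.Ioc_eq_empty (by omega), Finset.sum_empty, norm_zero]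
    positivity
  · -- the function
    obtain ⟨k, rfl⟩ : ∃ k, q = k + 1 := ⟨q - 1, by omega⟩
    set c : ℝ := τ / (2 * Real.pi) with hc
    have hcabs : |c| = |τ| / (2 * Real.pi) := by
      rw [hc, abs_div, abs_of_pos (show (0 : ℝ) < 2 * Real.pi by positivity)]
    have hs1 : ((-1 : ℝ) ^ k = 1 ∨ (-1 : ℝ) ^ k = -1) := neg_one_pow_eq_or ℝ k
    have hs2 : (-1 : ℝ) ^ k * (-1 : ℝ) ^ k = 1 := by
      rcases hs1 with h | h <;> rw [h] <;> norm_num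
    have hsum : ‖∑ n ∈ Ioc ⌊u⌋₊ ⌊v⌋₊, et (-τ) n‖ =
        ‖∑ t ∈ Finset.Icc ((⌊u⌋₊ : ℤ) + 1) (⌊v⌋₊ : ℤ),
          GaussMR.ee ((fun x : ℝ => ((-1 : ℝ) ^ k * |c|) * Real.log (zsum_phi x)) t)‖ := by
      have e1 : ∑ n ∈ Ioc ⌊u⌋₊ ⌊v⌋₊, et (-τ) n =
          ∑ t ∈ Finset.Icc ((⌊u⌋₊ : ℤ) + 1) (⌊v⌋₊ : ℤ), GaussMR.ee (-(-c) * Real.log (zsum_phi t)) := by
        symm
        apply Finset.sum_nbij' (fun t : ℤ => t.toNat) (fun n : ℕ => (n : ℤ))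
        · intro t ht
          rw [Finset.mem_Icc] at ht
          rw [Finset.mem_Ioc]
          omega
        · intro n hn
          rw [Finset.mem_Ioc] at hn
          rw [Finset.mem_Icc]
          omega
        · intro t ht
          rw [Finset.mem_Icc] at ht
          omega
        · intro n hn
          omega
        · intro t ht
          rw [Finset.mem_Icc] at ht
          have ht1 : (1 : ℝ) ≤ (t : ℝ) := by
            have : (1 : ℤ) ≤ t := by omega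
            exact_mod_cast this
          have ht2 : ((t.toNat : ℕ) : ℝ) = (t : ℝ) := by
            have : ((t.toNat : ℕ) : ℤ) = t := by omega
            exact_mod_cast this
          rw [zsum_et, zsum_phi_eq _ (by linarith), ht2]
          unfold GaussMR.ee
          congr 1
          rw [hc]
          have hpi : (Real.pi : ℂ) ≠ 0 := by exact_mod_cast Real.pi_ne_zero
          push_cast
          field_simp
      rw [e1]
      have e2 := GaussMR.block_sign (Finset.Icc ((⌊u⌋₊ : ℤ) + 1) (⌊v⌋₊ : ℤ))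
        (fun t : ℤ => Real.log (zsum_phi t)) (-c) ((-1 : ℝ) ^ k) hs1
      rw [abs_neg] at e2
      exact e2
    rw [hsum]
    have hlt' : (⌊u⌋₊ : ℝ) + 1 ≤ (⌊v⌋₊ : ℝ) := by exact_mod_cast hlt
    have hfac : (0 : ℝ) < (k.factorial : ℝ) := by exact_mod_cast Nat.factorial_pos k
    have hkk : k + 1 - 1 = k := by omega
    rw [hkk, ← hcabs] at h1 h3
    refine h _ (zsum_f_cd _) _ _ u (|c| * (k.factorial : ℝ) * ((2 * u) ^ (k + 1))⁻¹)
      (|c| * (k.factorial : ℝ) * (u ^ (k + 1))⁻¹) (by omega) hu ?_ h1 ?_ h3 ?_ ?_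
    · push_cast
      linarith
    · have : u ^ (k + 1) ≤ (2 * u) ^ (k + 1) := by gcongr; linarith
      gcongr
    · have e3 : |c| * (k.factorial : ℝ) * ((2 * u) ^ (k + 1))⁻¹ * u ^ ρ =
          |c| * (k.factorial : ℝ) * (u ^ (k + 1))⁻¹ * (u ^ ρ / (2 : ℝ) ^ (k + 1)) := by
        rw [mul_pow]
        field_simp
      rw [e3]
      apply le_mul_of_one_le_right (by positivity)
      rw [le_div_iff₀ (by positivity), one_mul]
      exact h4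
    · intro x hx
      have hx1 : u ≤ x := by
        have := hx.1
        push_cast at this
        linarith
      have hx2 : x ≤ 2 * u := by
        have := hx.2
        push_cast at this
        linarith
      rw [zsum_iter _ k x (by linarith)]
      have e4 : (-1 : ℝ) ^ k * |c| * ((-1) ^ k * (k.factorial : ℝ) * (x ^ (k + 1))⁻¹) =
          |c| * (k.factorial : ℝ) * (x ^ (k + 1))⁻¹ := by
        linear_combination (|c| * (k.factorial : ℝ) * (x ^ (k + 1))⁻¹) * hs2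
      rw [e4]
      have hx0 : 0 < x := by linarith
      constructor
      · gcongr
      · gcongr

/-- Derivative tests `dtr_all` (Lib_MP_f1a94e_ecm/DTwoG.lean) with `Q ≥ A + 2`, `f x = (|τ| / 2π) log x` extended smoothly (or a smooth function equal to it on `[u, v]`; see how Lib_MP_f1a94e_ecm/BlockG.lean does it), `L = max 1 u`: `|f^(q)| = (|τ|/2π) (q-1)! x^(-q)` on `[u, 2u]`, ratio at most `2^q ≤ L^ρ` for large `u`; window of `q`:
`C u^(q - 7/4) ≤ |τ| ≤ c u^(q - 2^(q-2) β)`, these windows for `2 ≤ q ≤ Q` cover `u^(1/2) ≤ |τ| ≤ u^A` for large `u` (`2^(q-2) β ≤ 1/8 < 3/4`); small `u`: constant. The sign of `f^(q)` can be changed by complex conjugation. `‖∑‖ ≤ C u^(1 - η)`. -/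
theorem zs_large (A : ℝ) (hA : 1 ≤ A) : ∃ η C : ℝ, 0 < η ∧ η ≤ 1 / 2 ∧ 0 < C ∧ ∀ τ u v : ℝ, 1 ≤ u → u ≤ v → v ≤ 2 * u →
    u ^ (1 / 2 : ℝ) ≤ |τ| → |τ| ≤ u ^ A → ‖∑ n ∈ Ioc ⌊u⌋₊ ⌊v⌋₊, et (-τ) n‖ ≤ C * u ^ (1 - η) := by
  obtain ⟨Q, hQ⟩ : ∃ Q : ℕ, Q = ⌈A⌉₊ + 2 := ⟨_, rfl⟩
  obtain ⟨β, ρ, η, C, hβ, hβQ, hρ, hρβ, hη, hη', hC, hdt⟩ := ECM.dtr_all Q
  -- constants
  obtain ⟨K, hKdef⟩ : ∃ K : ℝ, K = 8 * 2 ^ Q * (Q.factorial : ℝ) := ⟨_, rfl⟩
  have hQf : (1 : ℝ) ≤ (Q.factorial : ℝ) := by exact_mod_cast Nat.factorial_pos Q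
  have h2Q : (1 : ℝ) ≤ 2 ^ Q := one_le_pow₀ (by norm_num)
  have hK8 : 8 ≤ K := by rw [hKdef]; nlinarith
  have hK2 : (2 : ℝ) ^ Q ≤ K := by rw [hKdef]; nlinarith
  have hKf : (Q.factorial : ℝ) ≤ K := by rw [hKdef]; nlinarith
  obtain ⟨σ, hσdef⟩ : ∃ σ : ℝ, σ = min ρ (1 / 8) := ⟨_, rfl⟩
  have hσ0 : 0 < σ := by rw [hσdef]; exact lt_min hρ (by norm_num)
  have hσ1 : σ ≤ 1 / 8 := by rw [hσdef]; exact min_le_right _ _
  have hσ2 : σ ≤ ρ := by rw [hσdef]; exact min_le_left _ _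
  obtain ⟨R0, hR01, hRpow⟩ : ∃ R0 : ℝ, 1 < R0 ∧ R0 ^ σ = K := by
    refine ⟨K ^ (1 / σ), Real.one_lt_rpow (by linarith) (by positivity), ?_⟩
    rw [← Real.rpow_mul (by linarith), one_div_mul_cancel hσ0.ne', Real.rpow_one]
  refine ⟨η, C + 2 * R0, hη, hη', by linarith, ?_⟩
  intro τ u v hu huv hv ht1 ht2
  have hu0 : (0 : ℝ) < u := by linarith
  have hv0 : (0 : ℝ) < v := by linarith
  have hpos : ∀ e : ℝ, 0 < u ^ e := fun e => Real.rpow_pos_of_pos hu0 e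
  by_cases hbig : R0 ≤ u
  · -- large u
    have hKu : K ≤ u ^ σ := by
      rw [← hRpow]
      exact Real.rpow_le_rpow (by linarith) hbig hσ0.le
    have hge : ∀ e : ℝ, σ ≤ e → K ≤ u ^ e := fun e he =>
      hKu.trans (Real.rpow_le_rpow_of_exponent_le hu he)
    have hu1 : 1 < u := lt_of_lt_of_le hR01 hbig
    have htpos : 0 < |τ| := lt_of_lt_of_le (hpos _) ht1
    obtain ⟨θ, hθdef⟩ : ∃ θ : ℝ, θ = Real.logb u |τ| := ⟨_, rfl⟩
    have hθ : |τ| = u ^ θ := by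
      rw [hθdef, Real.rpow_logb hu0 hu1.ne' htpos]
    have hθ1 : 1 / 2 ≤ θ := by
      rw [hθ] at ht1
      exact (Real.rpow_le_rpow_left_iff hu1).1 ht1
    have hθ2 : θ ≤ A := by
      rw [hθ] at ht2
      exact (Real.rpow_le_rpow_left_iff hu1).1 ht2
    obtain ⟨q, hqdef⟩ : ∃ q : ℕ, q = max 2 ⌈θ + 1 / 4⌉₊ := ⟨_, rfl⟩
    have hq2 : 2 ≤ q := by rw [hqdef]; exact le_max_left _ _
    have hq3 : θ + 1 / 4 ≤ q := by
      rw [hqdef]
      refine (Nat.le_ceil _).trans ?_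
      exact_mod_cast le_max_right _ _
    have hq4 : (q : ℝ) - 3 / 2 ≤ θ := by
      rcases le_total ⌈θ + 1 / 4⌉₊ 2 with h | h
      · have : q = 2 := by rw [hqdef]; exact max_eq_left h
        rw [this]
        push_cast
        linarith
      · have h5 : q = ⌈θ + 1 / 4⌉₊ := by rw [hqdef]; exact max_eq_right h
        have h6 := Nat.ceil_lt_add_one (show 0 ≤ θ + 1 / 4 by linarith)
        rw [← h5] at h6
        linarith
    have hqQ : q ≤ Q := by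
      rw [hqdef, hQ]
      apply max_le (by omega)
      apply Nat.ceil_le.2
      push_cast
      have := Nat.le_ceil A
      linarith
    have hfq : ((q - 1).factorial : ℝ) ≤ (Q.factorial : ℝ) := by
      exact_mod_cast Nat.factorial_le (by omega)
    have hfq1 : (1 : ℝ) ≤ ((q - 1).factorial : ℝ) := by exact_mod_cast Nat.factorial_pos _
    have h2q : (2 : ℝ) ^ q ≤ 2 ^ Q := pow_le_pow_right₀ (by norm_num) hqQ
    have hβq : (2 : ℝ) ^ (q - 2) * β ≤ 1 / 8 := by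
      have h7 : (2 : ℝ) ^ (q - 2) * 4 = 2 ^ q := by
        have : (2 : ℝ) ^ q = 2 ^ (q - 2) * 2 ^ 2 := by
          rw [← pow_add]
          congr 1
          omega
        rw [this]
        norm_num
      have h8 : (2 : ℝ) ^ q * β ≤ 2 ^ Q * β := mul_le_mul_of_nonneg_right h2q hβ.le
      nlinarith
    have hpi1 : 3 < Real.pi := Real.pi_gt_three
    have hpi2 : Real.pi < 4 := Real.pi_lt_four
    have huq : u ^ q = u ^ (q : ℝ) := (Real.rpow_natCast u q).symm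
    refine (zsum_main q _ ρ η C hq2 hC (hdt q hq2 hqQ) τ u v hu huv hv ?_ ?_ ?_).trans ?_
    · rw [mul_pow, huq, hθ, mul_inv, ← Real.rpow_neg hu0.le]
      have e1 : u ^ θ / (2 * Real.pi) * ((q - 1).factorial : ℝ) * (((2 : ℝ) ^ q)⁻¹ * u ^ (-(q : ℝ))) =
          u ^ (θ - q + 7 / 4) * u ^ (-(7 / 4) : ℝ) * (((q - 1).factorial : ℝ) / (2 * Real.pi * (2 : ℝ) ^ q)) := by
        rw [← Real.rpow_add hu0]
        have : u ^ (θ - q + 7 / 4 + -(7 / 4)) = u ^ θ * u ^ (-(q : ℝ)) := by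
          rw [← Real.rpow_add hu0]
          congr 1
          ring
        rw [this]
        field_simp
      rw [e1]
      have e2 : K ≤ u ^ (θ - q + 7 / 4) := hge _ (by linarith)
      have e3 : 1 ≤ u ^ (θ - q + 7 / 4) * (((q - 1).factorial : ℝ) / (2 * Real.pi * (2 : ℝ) ^ q)) := by
        rw [mul_div_assoc', le_div_iff₀ (by positivity), one_mul]
        have e4 : 2 * Real.pi * (2 : ℝ) ^ q ≤ K := by
          rw [hKdef]
          have : 2 * Real.pi ≤ 8 := by linarith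
          calc 2 * Real.pi * (2 : ℝ) ^ q ≤ 8 * 2 ^ Q := by gcongr
            _ ≤ 8 * 2 ^ Q * (Q.factorial : ℝ) := le_mul_of_one_le_right (by positivity) hQf
        calc 2 * Real.pi * (2 : ℝ) ^ q ≤ u ^ (θ - q + 7 / 4) := e4.trans e2
          _ ≤ u ^ (θ - q + 7 / 4) * ((q - 1).factorial : ℝ) :=
            le_mul_of_one_le_right (hpos _).le hfq1
      have e5 := hpos (-(7 / 4) : ℝ)
      calc u ^ (-(7 / 4) : ℝ) ≤ u ^ (-(7 / 4) : ℝ) * (u ^ (θ - q + 7 / 4) * (((q - 1).factorial : ℝ) / (2 * Real.pi * (2 : ℝ) ^ q))) :=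
            le_mul_of_one_le_right e5.le e3
        _ = _ := by ring
    · rw [huq, hθ, ← Real.rpow_neg hu0.le]
      have e1 : u ^ θ / (2 * Real.pi) * ((q - 1).factorial : ℝ) * u ^ (-(q : ℝ)) =
          u ^ (θ - q) * ((q - 1).factorial : ℝ) / (2 * Real.pi) := by
        rw [sub_eq_add_neg, Real.rpow_add hu0]
        ring
      rw [e1, div_le_iff₀ (by positivity)]
      have e2 : ((q - 1).factorial : ℝ) ≤ u ^ (1 / 8 : ℝ) := hfq.trans (hKf.trans (hge _ hσ1))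
      calc u ^ (θ - q) * ((q - 1).factorial : ℝ) ≤ u ^ (θ - q) * u ^ (1 / 8 : ℝ) := by
            have := hpos (θ - q)
            gcongr
        _ = u ^ (θ - q + 1 / 8) := by rw [← Real.rpow_add hu0]
        _ ≤ u ^ (-((2 : ℝ) ^ (q - 2) * β)) := Real.rpow_le_rpow_of_exponent_le hu (by linarith)
        _ ≤ u ^ (-((2 : ℝ) ^ (q - 2) * β)) * (2 * Real.pi) :=
            le_mul_of_one_le_right (hpos _).le (by linarith)
    · exact h2q.trans (hK2.trans (hge _ hσ2))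
    · apply mul_le_mul_of_nonneg_right _ (hpos _).le
      linarith
  · -- small u
    have hlt : u < R0 := not_le.1 hbig
    have f2 : u < (⌊u⌋₊ : ℝ) + 1 := Nat.lt_floor_add_one u
    have f3 : (⌊v⌋₊ : ℝ) ≤ v := Nat.floor_le hv0.le
    have h1 : ‖∑ n ∈ Ioc ⌊u⌋₊ ⌊v⌋₊, et (-τ) n‖ ≤ ((⌊v⌋₊ - ⌊u⌋₊ : ℕ) : ℝ) := by
      refine (norm_sum_le _ _).trans ?_
      rw [Finset.sum_congr rfl (fun n _ => norm_et (-τ) n)]
      simp
    have h2 : ((⌊v⌋₊ - ⌊u⌋₊ : ℕ) : ℝ) ≤ 2 * R0 := by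
      rw [Nat.cast_sub (Nat.floor_le_floor huv)]
      linarith
    have h3 : (1 : ℝ) ≤ u ^ (1 - η) := Real.one_le_rpow hu (by linarith)
    have h4 : 2 * R0 ≤ (C + 2 * R0) * u ^ (1 - η) := by
      calc 2 * R0 ≤ C + 2 * R0 := by linarith
        _ ≤ (C + 2 * R0) * u ^ (1 - η) := le_mul_of_one_le_right (by linarith) h3
    linarith

end Pool.Agent.SplI
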